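import Mathlib.GroupTheory.PresentedGroup

namespace Pool.Agent.MP_e0ec03_al

/-- The relator `t a^p t⁻¹ a^(-q)`; the generator `a` is `false`, the generator `t` is `true`. -/
def rels (p q : ℕ) : Set (FreeGroup Bool) :=
  {FreeGroup.of true * FreeGroup.of false ^ p * (FreeGroup.of true)⁻¹ * (FreeGroup.of false ^ q)⁻¹}

/-- The elements of the Baumslag-Solitar group `B(p,q)` of word length at most `n`. -/
def ball (p q n : ℕ) : Set (PresentedGroup (rels p q)) :=
  {g | ∃ w : List (Bool × Bool), w.length ≤ n ∧ PresentedGroup.mk (rels p q) (FreeGroup.mk w) = g}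

end Pool.Agent.MP_e0ec03_al
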