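import Mathlib.CategoryTheory.Category.Init
import Mathlib.Tactic.Monotonicity.Lemmas
import Mathlib.Algebra.Order.Ring.Star
import Mathlib.Analysis.InnerProductSpace.Basic
import Mathlib.Analysis.RCLike.Lemmas
import Mathlib.Algebra.Ring.IsFormallyReal
import Mathlib.RingTheory.PowerSeries.Basic
import Mathlib.Analysis.Calculus.Deriv.Polynomial
import Mathlib.Analysis.Analytic.Uniqueness
import Mathlib.Analysis.Calculus.ImplicitContDiff
import Mathlib.Tactic.Polynomial.Basic
import Mathlib.Topology.UniformSpace.Uniformizable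

-- ======== part 0: formerly Pool.Agent.MP_e0ec03_al.Words
section MrgPart0

namespace Pool.Agent.MP_e0ec03_al

section
variable {G : Type} [Group G] (a t : G)

/-- value of a letter -/
def letter (x : Bool × Bool) : G :=
  cond x.2 (cond x.1 t a) (cond x.1 t a)⁻¹

/-- `g` is the value of a word of length at most `n` -/
def Len (g : G) (n : ℕ) : Prop :=
  ∃ w : List (Bool × Bool), w.length ≤ n ∧ (w.map (letter a t)).prod = g

variable {a t}

theorem Len.mono {g : G} {n n' : ℕ} (h : Len a t g n) (hn : n ≤ n') : Len a t g n' := by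
  obtain ⟨w, h1, h2⟩ := h
  exact ⟨w, h1.trans hn, h2⟩

theorem Len.mul {g g' : G} {n n' : ℕ} (h : Len a t g n) (h' : Len a t g' n') :
    Len a t (g * g') (n + n') := by
  obtain ⟨w, h1, h2⟩ := h
  obtain ⟨w', h1', h2'⟩ := h'
  refine ⟨w ++ w', by simp; omega, by simp [h2, h2']⟩

theorem Len.one : Len a t 1 0 := ⟨[], by simp, by simp⟩
theorem Len.ga : Len a t a 1 := ⟨[(false, true)], by simp, by simp [letter]⟩
theorem Len.gai : Len a t a⁻¹ 1 := ⟨[(false, false)], by simp, by simp [letter]⟩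
theorem Len.gt : Len a t t 1 := ⟨[(true, true)], by simp, by simp [letter]⟩
theorem Len.gti : Len a t t⁻¹ 1 := ⟨[(true, false)], by simp, by simp [letter]⟩

theorem Len.zpow (k : ℤ) : Len a t (a ^ k) k.natAbs := by
  induction k using Int.induction_on with
  | zero => simpa using Len.one
  | succ i ih =>
    have := ih.mul (Len.ga (a := a) (t := t))
    rw [zpow_add_one]
    refine this.mono ?_
    omega
  | pred i ih =>
    have := ih.mul (Len.gai (a := a) (t := t))
    rw [zpow_sub_one]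
    refine this.mono ?_
    omega

variable (a t)

/-- values of words whose height stays at most `0` and ends at `0` -/
inductive Dy : G → ℕ → Prop
  | one : Dy 1 0
  | ma {g : G} {n : ℕ} : Dy g n → Dy (g * a) (n + 1)
  | mai {g : G} {n : ℕ} : Dy g n → Dy (g * a⁻¹) (n + 1)
  | conj {g h : G} {n n' : ℕ} : Dy g n → Dy h n' → Dy (g * t⁻¹ * h * t) (n + n' + 2)

/-- values of words which end at their maximal height -/
inductive As : G → ℕ → Prop
  | dy {g : G} {n : ℕ} : Dy a t g n → As g n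
  | up {g h : G} {n n' : ℕ} : As g n → Dy a t h n' → As (g * t * h) (n + n' + 1)

/-- values of words which start at their maximal height and end at a last new minimum -/
inductive De : G → ℕ → Prop
  | dy {g : G} {n : ℕ} : Dy a t g n → De g n
  | down {g h : G} {n n' : ℕ} : De g n → Dy a t h n' → De (g * t⁻¹ * h) (n + n' + 1)

variable {a t}

theorem Dy.cast {g g' : G} {n n' : ℕ} (h : Dy a t g n) (e : g = g') (e' : n = n') :
    Dy a t g' n' := e ▸ e' ▸ h
theorem As.cast {g g' : G} {n n' : ℕ} (h : As a t g n) (e : g = g') (e' : n = n') :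
    As a t g' n' := e ▸ e' ▸ h
theorem De.cast {g g' : G} {n n' : ℕ} (h : De a t g n) (e : g = g') (e' : n = n') :
    De a t g' n' := e ▸ e' ▸ h

theorem Dy.mul {g h : G} {n n' : ℕ} (hg : Dy a t g n) (hh : Dy a t h n') :
    Dy a t (g * h) (n + n') := by
  induction hh with
  | one => simpa using hg
  | ma _ ih => exact ih.ma.cast (by group) (by omega)
  | mai _ ih => exact ih.mai.cast (by group) (by omega)
  | conj _ h2 ih _ => exact (ih.conj h2).cast (by group) (by omega)

theorem Dy.inv {g : G} {n : ℕ} (hg : Dy a t g n) : Dy a t g⁻¹ n := by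
  induction hg with
  | one => simpa using Dy.one
  | ma _ ih => exact (Dy.one.mai.mul ih).cast (by group) (by omega)
  | mai _ ih => exact (Dy.one.ma.mul ih).cast (by group) (by omega)
  | conj _ _ ih ih' => exact ((Dy.one.conj ih').mul ih).cast (by group) (by omega)

theorem As.mul_dy {g h : G} {n n' : ℕ} (hg : As a t g n) (hh : Dy a t h n') :
    As a t (g * h) (n + n') := by
  cases hg with
  | dy h1 => exact As.dy (h1.mul hh)
  | up h1 h2 => exact (As.up h1 (h2.mul hh)).cast (by group) (by omega)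

theorem De.mul_dy {g h : G} {n n' : ℕ} (hg : De a t g n) (hh : Dy a t h n') :
    De a t (g * h) (n + n') := by
  cases hg with
  | dy h1 => exact De.dy (h1.mul hh)
  | down h1 h2 => exact (De.down h1 (h2.mul hh)).cast (by group) (by omega)

theorem As.left {g h : G} {n n' : ℕ} (hg : As a t g n) (hh : Dy a t h n') :
    As a t (h * t * g) (n + n' + 1) := by
  induction hg with
  | dy h1 => exact (As.up (As.dy hh) h1).cast rfl (by omega)
  | up _ h2 ih => exact (As.up ih h2).cast (by group) (by omega)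

theorem De.inv {g : G} {n : ℕ} (hg : De a t g n) : As a t g⁻¹ n := by
  induction hg with
  | dy h1 => exact As.dy h1.inv
  | down _ h2 ih => exact (ih.left h2.inv).cast (by group) (by omega)

theorem split_word (w : List (Bool × Bool)) :
    ∃ (g h : G) (n n' : ℕ), As a t g n ∧ De a t h n' ∧ n + n' = w.length ∧
      (w.map (letter a t)).prod = g * h := by
  induction w using List.reverseRecOn with
  | nil => exact ⟨1, 1, 0, 0, As.dy Dy.one, De.dy Dy.one, by simp, by simp⟩
  | append_singleton w x ih =>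
    obtain ⟨g, h, n, n', h1, h2, h3, h4⟩ := ih
    obtain ⟨b, s⟩ := x
    cases b <;> cases s
    · exact ⟨g, h * a⁻¹, n, n' + 1, h1, (h2.mul_dy Dy.one.mai).cast (by simp) rfl,
        by simp; omega, by simp [h4, letter, mul_assoc]⟩
    · exact ⟨g, h * a, n, n' + 1, h1, (h2.mul_dy Dy.one.ma).cast (by simp) rfl,
        by simp; omega, by simp [h4, letter, mul_assoc]⟩
    · exact ⟨g, h * t⁻¹, n, n' + 1, h1, (De.down h2 Dy.one).cast (by simp) rfl,
        by simp; omega, by simp [h4, letter, mul_assoc]⟩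
    · cases h2 with
      | dy h5 =>
        exact ⟨g * h * t, 1, n + n' + 1, 0, (As.up (h1.mul_dy h5) Dy.one).cast (by simp) rfl,
          De.dy Dy.one, by simp; omega, by simp [h4, letter, mul_assoc]⟩
      | @down g1 g2 n1 n2 h5 h6 =>
        refine ⟨g, g1 * t⁻¹ * g2 * t, n, n1 + n2 + 2, h1,
          (h5.mul_dy (Dy.one.conj h6)).cast (by group) (by omega), by simp; omega,
          by simp [h4, letter, mul_assoc]⟩

theorem Len.split {g : G} {N : ℕ} (h : Len a t g N) :
    ∃ (g1 g2 : G) (n n' : ℕ), As a t g1 n ∧ As a t g2 n' ∧ n + n' ≤ N ∧ g = g1 * g2⁻¹ := by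
  obtain ⟨w, h1, h2⟩ := h
  obtain ⟨g1, h, n, n', h3, h4, h5, h6⟩ := split_word (a := a) (t := t) w
  exact ⟨g1, h⁻¹, n, n', h3, h4.inv, by omega, by rw [← h2, h6]; simp⟩

end

end Pool.Agent.MP_e0ec03_al

end MrgPart0

-- ======== part 1: formerly Pool.Agent.MP_e0ec03_al.Core
section MrgPart1

namespace Pool.Agent.MP_e0ec03_al

/-- normal forms of vertices of the Bass-Serre tree reached by ascending words -/
inductive Core (p q : ℕ) : Type
  | empty : Core p q
  | up (y : Core p q) (d : ZMod q) : Core p q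
  | node (x : Core p q) (r : ZMod p) (y : Core p q) (d : ZMod q) : Core p q

namespace Core

variable {p q : ℕ}

/-- no `up` along the spine -/
def pure : Core p q → Prop
  | empty => True
  | up _ _ => False
  | node x _ _ _ => pure x

/-- reducedness -/
def valid : Core p q → Prop
  | empty => True
  | up y _ => valid y
  | node x r y d => valid x ∧ valid y ∧ pure y ∧ ¬ (y = empty ∧ d = 0) ∧ (x = empty ∨ r ≠ 0)

/-- the distance function on the line of a core -/
noncomputable def D : Core p q → ℤ → ℕ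
  | empty, k => k.natAbs
  | up y d, k => ⨅ j : ℤ, (D y (d.val + q * j) + 1 + (k - p * j).natAbs)
  | node x r y d, k => ⨅ ij : ℤ × ℤ,
      (D x (r.val + p * ij.1) + D y (d.val + q * ij.2) + 2 + (k - p * (ij.1 + ij.2)).natAbs)

theorem D_up_le (y : Core p q) (d : ZMod q) (k j : ℤ) :
    D (up y d) k ≤ D y (d.val + q * j) + 1 + (k - p * j).natAbs := by
  rw [D]
  exact ciInf_le' (fun j : ℤ => D y (d.val + q * j) + 1 + (k - p * j).natAbs) j

theorem D_up_ex (y : Core p q) (d : ZMod q) (k : ℤ) :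
    ∃ j : ℤ, D (up y d) k = D y (d.val + q * j) + 1 + (k - p * j).natAbs := by
  rw [D]
  obtain ⟨j, hj⟩ := ciInf_mem (fun j : ℤ => D y (d.val + q * j) + 1 + (k - p * j).natAbs)
  exact ⟨j, hj.symm⟩

theorem D_node_le (x : Core p q) (r : ZMod p) (y : Core p q) (d : ZMod q) (k i j : ℤ) :
    D (node x r y d) k ≤
      D x (r.val + p * i) + D y (d.val + q * j) + 2 + (k - p * (i + j)).natAbs := by
  rw [D]
  exact ciInf_le' (fun ij : ℤ × ℤ => D x (r.val + p * ij.1) + D y (d.val + q * ij.2) + 2 +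
    (k - p * (ij.1 + ij.2)).natAbs) (i, j)

theorem D_node_ex (x : Core p q) (r : ZMod p) (y : Core p q) (d : ZMod q) (k : ℤ) :
    ∃ i j : ℤ, D (node x r y d) k =
      D x (r.val + p * i) + D y (d.val + q * j) + 2 + (k - p * (i + j)).natAbs := by
  rw [D]
  obtain ⟨ij, hj⟩ := ciInf_mem (fun ij : ℤ × ℤ => D x (r.val + p * ij.1) +
    D y (d.val + q * ij.2) + 2 + (k - p * (ij.1 + ij.2)).natAbs)
  exact ⟨ij.1, ij.2, hj.symm⟩

theorem D_lip (c : Core p q) (k s : ℤ) : D c (k + s) ≤ D c k + s.natAbs := by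
  cases c with
  | empty => simp only [D]; omega
  | up y d =>
    obtain ⟨j, hj⟩ := D_up_ex y d k
    have := D_up_le y d (k + s) j
    omega
  | node x r y d =>
    obtain ⟨i, j, hj⟩ := D_node_ex x r y d k
    have := D_node_le x r y d (k + s) i j
    omega

section group

variable {G : Type} [Group G] (a t : G)

/-- the group element of a core -/
def ev : Core p q → G
  | empty => 1
  | up y d => ev y * a ^ (d.val : ℤ) * t
  | node x r y d => ev x * a ^ (r.val : ℤ) * t⁻¹ * ev y * a ^ (d.val : ℤ) * t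

variable {a t}

theorem rel_zpow (h : t * a ^ p * t⁻¹ = a ^ q) (j : ℤ) :
    a ^ ((q : ℤ) * j) * t = t * a ^ ((p : ℤ) * j) := by
  have : a ^ ((q : ℤ) * j) = t * a ^ ((p : ℤ) * j) * t⁻¹ := by
    rw [zpow_mul, zpow_mul, zpow_natCast, zpow_natCast, ← h, conj_zpow]
  rw [this]; group

theorem rel_zpow' (h : t * a ^ p * t⁻¹ = a ^ q) (j : ℤ) :
    a ^ ((p : ℤ) * j) * t⁻¹ = t⁻¹ * a ^ ((q : ℤ) * j) := by
  have := rel_zpow h j
  calc a ^ ((p : ℤ) * j) * t⁻¹ = t⁻¹ * (t * a ^ ((p : ℤ) * j)) * t⁻¹ := by group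
    _ = t⁻¹ * (a ^ ((q : ℤ) * j) * t) * t⁻¹ := by rw [this]
    _ = _ := by group

/-- conjugation by `t` keeps the centralizer of `a^p` -/
theorem comm_conj (h : t * a ^ p * t⁻¹ = a ^ q) (hpq : p ∣ q) {g : G}
    (hg : ∀ j : ℤ, a ^ ((p : ℤ) * j) * g = g * a ^ ((p : ℤ) * j)) (j : ℤ) :
    a ^ ((p : ℤ) * j) * (t⁻¹ * g * t) = (t⁻¹ * g * t) * a ^ ((p : ℤ) * j) := by
  obtain ⟨m, rfl⟩ := hpq
  have h1 := rel_zpow h j
  have h2 := rel_zpow' h j
  have h3 := hg (m * j)
  have e : ((p * m : ℕ) : ℤ) * j = (p : ℤ) * (m * j) := by push_cast; ring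
  rw [e] at h1 h2
  calc a ^ ((p : ℤ) * j) * (t⁻¹ * g * t) = (a ^ ((p : ℤ) * j) * t⁻¹) * g * t := by group
    _ = t⁻¹ * (a ^ ((p : ℤ) * (m * j)) * g) * t := by rw [h2]; group
    _ = t⁻¹ * g * (a ^ ((p : ℤ) * (m * j)) * t) := by rw [h3]; group
    _ = _ := by rw [h1]; group

theorem comm_ev (h : t * a ^ p * t⁻¹ = a ^ q) (hpq : p ∣ q) :
    ∀ c : Core p q, valid c → pure c → ∀ j : ℤ,
      a ^ ((p : ℤ) * j) * ev a t c = ev a t c * a ^ ((p : ℤ) * j)
  | empty, _, _, j => by simp [ev]
  | up _ _, _, hp, _ => hp.elim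
  | node x r y d, hv, hp, j => by
    have h1 := comm_ev h hpq x hv.1 hp j
    have h2 : ∀ j : ℤ, a ^ ((p : ℤ) * j) * (ev a t y * a ^ (d.val : ℤ)) =
        (ev a t y * a ^ (d.val : ℤ)) * a ^ ((p : ℤ) * j) := by
      intro j
      rw [← mul_assoc, comm_ev h hpq y hv.2.1 hv.2.2.1 j, mul_assoc, mul_assoc, ← zpow_add,
        ← zpow_add, add_comm]
    have h3 := comm_conj h hpq h2 j
    have h4 : a ^ ((p : ℤ) * j) * a ^ (r.val : ℤ) = a ^ (r.val : ℤ) * a ^ ((p : ℤ) * j) := by
      rw [← zpow_add, ← zpow_add, add_comm]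
    calc a ^ ((p : ℤ) * j) * ev a t (node x r y d)
        = (a ^ ((p : ℤ) * j) * ev a t x) * a ^ (r.val : ℤ) *
          (t⁻¹ * (ev a t y * a ^ (d.val : ℤ)) * t) := by simp only [ev]; group
      _ = ev a t x * (a ^ ((p : ℤ) * j) * a ^ (r.val : ℤ)) *
          (t⁻¹ * (ev a t y * a ^ (d.val : ℤ)) * t) := by rw [h1]; group
      _ = ev a t x * a ^ (r.val : ℤ) * (a ^ ((p : ℤ) * j) *
          (t⁻¹ * (ev a t y * a ^ (d.val : ℤ)) * t)) := by rw [h4]; group
      _ = _ := by rw [h3]; simp only [ev]; group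

theorem ev_up (h : t * a ^ p * t⁻¹ = a ^ q) (y : Core p q) (d : ZMod q) (k j : ℤ) :
    ev a t (up y d) * a ^ k = ev a t y * a ^ ((d.val : ℤ) + q * j) * t * a ^ (k - p * j) := by
  have h1 := rel_zpow h j
  calc ev a t (up y d) * a ^ k
      = ev a t y * a ^ (d.val : ℤ) * (t * a ^ ((p : ℤ) * j)) * a ^ (k - p * j) := by
        simp only [ev]; group
    _ = _ := by rw [← h1]; group

theorem ev_node (h : t * a ^ p * t⁻¹ = a ^ q) (hpq : p ∣ q) (x : Core p q) (r : ZMod p)
    (y : Core p q) (d : ZMod q) (hv : valid y) (hp : pure y) (k i j : ℤ) :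
    ev a t (node x r y d) * a ^ k = ev a t x * a ^ ((r.val : ℤ) + p * i) * t⁻¹ *
      (ev a t y * a ^ ((d.val : ℤ) + q * j)) * t * a ^ (k - p * (i + j)) := by
  have h1 := rel_zpow h j
  have h2 : ∀ j : ℤ, a ^ ((p : ℤ) * j) * (ev a t y * a ^ (d.val : ℤ)) =
      (ev a t y * a ^ (d.val : ℤ)) * a ^ ((p : ℤ) * j) := by
    intro j
    rw [← mul_assoc, comm_ev h hpq y hv hp j, mul_assoc, mul_assoc, ← zpow_add,
      ← zpow_add, add_comm]
  have h3 := comm_conj h hpq h2 i
  calc ev a t (node x r y d) * a ^ k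
      = ev a t x * a ^ (r.val : ℤ) * ((t⁻¹ * (ev a t y * a ^ (d.val : ℤ)) * t) *
          a ^ ((p : ℤ) * i)) * a ^ ((p : ℤ) * j) * a ^ (k - p * (i + j)) := by
        simp only [ev]; group
    _ = ev a t x * a ^ (r.val : ℤ) * a ^ ((p : ℤ) * i) * t⁻¹ * (ev a t y * a ^ (d.val : ℤ)) *
          (t * a ^ ((p : ℤ) * j)) * a ^ (k - p * (i + j)) := by rw [← h3]; group
    _ = _ := by rw [← h1]; group

/-- the distance function bounds the word length -/
theorem len_ev (h : t * a ^ p * t⁻¹ = a ^ q) (hpq : p ∣ q) :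
    ∀ c : Core p q, valid c → ∀ k : ℤ, Len a t (ev a t c * a ^ k) (D c k)
  | empty, _, k => by simpa [ev, D] using Len.zpow k
  | up y d, hv, k => by
    obtain ⟨j, hj⟩ := D_up_ex y d k
    rw [hj, ev_up h y d k j]
    exact ((len_ev h hpq y hv _).mul Len.gt).mul (Len.zpow _)
  | node x r y d, hv, k => by
    obtain ⟨i, j, hj⟩ := D_node_ex x r y d k
    rw [hj, ev_node h hpq x r y d hv.2.1 hv.2.2.1 k i j]
    exact (((((len_ev h hpq x hv.1 _).mul Len.gti).mul (len_ev h hpq y hv.2.1 _)).mul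
      Len.gt).mul (Len.zpow _)).mono (by omega)

variable (p q a t) in
/-- `g` has a normal form of cost at most `n` (pure if `b`) -/
def Rep (b : Prop) (g : G) (n : ℕ) : Prop :=
  ∃ (c : Core p q) (k : ℤ), valid c ∧ (b → pure c) ∧ g = ev a t c * a ^ k ∧ D c k ≤ n

theorem Rep.mono {b : Prop} {g : G} {n n' : ℕ} (h : Rep p q a t b g n) (hn : n ≤ n') :
    Rep p q a t b g n' := by
  obtain ⟨c, k, h1, h2, h3, h4⟩ := h
  exact ⟨c, k, h1, h2, h3, h4.trans hn⟩

theorem Rep.zpow {b : Prop} {g : G} {n : ℕ} (h : Rep p q a t b g n) (s : ℤ) :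
    Rep p q a t b (g * a ^ s) (n + s.natAbs) := by
  obtain ⟨c, k, h1, h2, h3, h4⟩ := h
  refine ⟨c, k + s, h1, h2, by rw [h3]; group, ?_⟩
  have := D_lip c k s
  omega

theorem Rep.one (b : Prop) : Rep p q a t b 1 0 :=
  ⟨empty, 0, trivial, fun _ => trivial, by simp [ev], by simp [D]⟩

theorem int_digit (n : ℕ) [NeZero n] (k : ℤ) :
    k = ((k : ZMod n).val : ℤ) + n * (k / n) := by
  rw [ZMod.val_intCast]
  have := Int.emod_add_mul_ediv k n
  omega

theorem Rep.up [NeZero q] (h : t * a ^ p * t⁻¹ = a ^ q) {b : Prop} {g : G} {n : ℕ}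
    (hg : Rep p q a t b g n) : Rep p q a t False (g * t) (n + 1) := by
  obtain ⟨c, k, h1, -, h3, h4⟩ := hg
  have e := int_digit q k
  refine ⟨Core.up c (k : ZMod q), p * (k / q), h1, False.elim, ?_, ?_⟩
  · rw [ev_up h c _ _ (k / q), ← e, h3]; simp
  · have := D_up_le c (k : ZMod q) (p * (k / q)) (k / q)
    rw [← e] at this
    simp at this
    omega

/-- attaching an excursion after an extendable vertex -/
theorem Rep.attach [NeZero p] [NeZero q] (h : t * a ^ p * t⁻¹ = a ^ q) (hpq : p ∣ q) {b : Prop}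
    (x : Core p q) (k : ℤ) (hv : valid x) (hb : b → pure x)
    (hx : x = empty ∨ (k : ZMod p) ≠ 0) {g : G} {n : ℕ} (hg : Rep p q a t True g n) :
    Rep p q a t b (ev a t x * a ^ k * t⁻¹ * g * t) (D x k + n + 2) := by
  obtain ⟨y, l, h1, h2, h3, h4⟩ := hg
  have e := int_digit q l
  have e' := int_digit p k
  by_cases hy : y = empty ∧ (l : ZMod q) = 0
  · obtain ⟨rfl, hl⟩ := hy
    rw [hl] at e
    simp only [ZMod.val_zero, Nat.cast_zero, zero_add] at e
    have h5 : Rep p q a t b (ev a t x * a ^ k) (D x k) := ⟨x, k, hv, hb, rfl, le_rfl⟩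
    have h6 := h5.zpow (p * (l / q))
    have h7 : ev a t x * a ^ k * t⁻¹ * g * t = ev a t x * a ^ k * a ^ ((p : ℤ) * (l / q)) := by
      have := rel_zpow h (l / q)
      rw [← e] at this
      rw [h3]
      simp only [ev, one_mul]
      calc ev a t x * a ^ k * t⁻¹ * a ^ l * t = ev a t x * a ^ k * t⁻¹ * (a ^ l * t) := by group
        _ = _ := by rw [this]; group
    rw [h7]
    refine h6.mono ?_
    simp only [D] at h4
    have h8 : ((p : ℤ) * (l / q)).natAbs ≤ l.natAbs := by
      conv_rhs => rw [e]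
      rw [Int.natAbs_mul, Int.natAbs_mul]
      simp only [Int.natAbs_natCast]
      exact Nat.mul_le_mul_right _ (Nat.le_of_dvd (NeZero.pos q) hpq)
    omega
  · refine ⟨node x (k : ZMod p) y (l : ZMod q), p * (k / p + l / q),
      ⟨hv, h1, h2 trivial, hy, hx⟩, hb, ?_, ?_⟩
    · rw [ev_node h hpq x _ y _ h1 (h2 trivial) _ (k / p) (l / q), ← e, ← e', h3]; simp
    · have := D_node_le x (k : ZMod p) y (l : ZMod q) (p * (k / p + l / q)) (k / p) (l / q)
      rw [← e, ← e'] at this
      simp at this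
      omega

theorem dy_good [NeZero p] [NeZero q] (h : t * a ^ p * t⁻¹ = a ^ q) (hpq : p ∣ q) {g' : G}
    {n' : ℕ} (hd : Dy a t g' n') :
    (∀ j : ℤ, a ^ ((p : ℤ) * j) * g' = g' * a ^ ((p : ℤ) * j)) ∧
    ∀ (b : Prop) (g : G) (n : ℕ), Rep p q a t b g n → Rep p q a t b (g * g') (n + n') := by
  induction hd with
  | one => exact ⟨by simp, by simp⟩
  | @ma g1 n1 _ ih =>
    refine ⟨fun j => ?_, fun b g n hg => ?_⟩
    · rw [← mul_assoc, ih.1, mul_assoc, mul_assoc, ← zpow_add_one, ← zpow_one_add, add_comm]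
    · have := (ih.2 b g n hg).zpow 1
      simpa [mul_assoc, add_assoc] using this
  | @mai g1 n1 _ ih =>
    refine ⟨fun j => ?_, fun b g n hg => ?_⟩
    · rw [← mul_assoc, ih.1]; group
    · have := (ih.2 b g n hg).zpow (-1)
      simpa [mul_assoc, add_assoc] using this
  | @conj g1 g2 n1 n2 _ _ ih1 ih2 =>
    refine ⟨fun j => ?_, fun b g n hg => ?_⟩
    · have := comm_conj h hpq ih2.1 j
      calc a ^ ((p : ℤ) * j) * (g1 * t⁻¹ * g2 * t)
          = (a ^ ((p : ℤ) * j) * g1) * (t⁻¹ * g2 * t) := by group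
        _ = g1 * (a ^ ((p : ℤ) * j) * (t⁻¹ * g2 * t)) := by rw [ih1.1]; group
        _ = _ := by rw [this]; group
    · obtain ⟨c, k, h1, h2, h3, h4⟩ := ih1.2 b g n hg
      have e0 : g * (g1 * t⁻¹ * g2 * t) = ev a t c * a ^ k * t⁻¹ * g2 * t := by
        rw [← h3]; group
      rw [e0]
      by_cases hx : c = empty ∨ (k : ZMod p) ≠ 0
      · have h5 := ih2.2 True 1 0 (Rep.one True)
        rw [one_mul, zero_add] at h5
        exact (Rep.attach h hpq c k h1 h2 hx h5).mono (by omega)
      · push Not at hx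
        obtain ⟨hc, hk⟩ := hx
        obtain ⟨u, rfl⟩ := (ZMod.intCast_zmod_eq_zero_iff_dvd k p).1 hk
        cases c with
        | empty => exact (hc rfl).elim
        | up y d =>
          obtain ⟨j, hj⟩ := D_up_ex y d (p * u)
          have h5 : Rep p q a t False (ev a t y * a ^ ((d.val : ℤ) + q * j))
              (D y (d.val + q * j)) := ⟨y, _, h1, False.elim, rfl, le_rfl⟩
          have h6 := ((ih2.2 False _ _ h5).up h).zpow (p * (u - j))
          have h7 := comm_conj h hpq ih2.1 (u - j)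
          have h8 : ev a t (Core.up y d) * a ^ ((p : ℤ) * u) * t⁻¹ * g2 * t =
              ev a t y * a ^ ((d.val : ℤ) + q * j) * g2 * t * a ^ ((p : ℤ) * (u - j)) := by
            rw [ev_up h y d _ j]
            calc _ = ev a t y * a ^ ((d.val : ℤ) + q * j) * t *
                  (a ^ ((p : ℤ) * (u - j)) * (t⁻¹ * g2 * t)) := by group
              _ = _ := by rw [h7]; group
          rw [h8]
          obtain ⟨c', k', i1, -, i3, i4⟩ := h6
          refine ⟨c', k', i1, fun hb => (h2 hb).elim, i3, i4.trans ?_⟩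
          rw [mul_sub]
          omega
        | node x r y d =>
          obtain ⟨i, j, hj⟩ := D_node_ex x r y d (p * u)
          have h5 : Rep p q a t True (ev a t y * a ^ ((d.val : ℤ) + q * j))
              (D y (d.val + q * j)) := ⟨y, _, h1.2.1, fun _ => h1.2.2.1, rfl, le_rfl⟩
          have hr : x = empty ∨ (((r.val : ℤ) + p * i : ℤ) : ZMod p) ≠ 0 := by
            simpa using h1.2.2.2.2
          have h6 := (Rep.attach h hpq (b := b) x _ h1.1 h2 hr (ih2.2 True _ _ h5)).zpow
            (p * (u - (i + j)))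
          have h7 := comm_conj h hpq ih2.1 (u - (i + j))
          have h8 : ev a t (node x r y d) * a ^ ((p : ℤ) * u) * t⁻¹ * g2 * t =
              ev a t x * a ^ ((r.val : ℤ) + p * i) * t⁻¹ *
                (ev a t y * a ^ ((d.val : ℤ) + q * j) * g2) * t *
                a ^ ((p : ℤ) * (u - (i + j))) := by
            rw [ev_node h hpq x r y d h1.2.1 h1.2.2.1 _ i j]
            calc _ = ev a t x * a ^ ((r.val : ℤ) + p * i) * t⁻¹ *
                  (ev a t y * a ^ ((d.val : ℤ) + q * j)) * t *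
                  (a ^ ((p : ℤ) * (u - (i + j))) * (t⁻¹ * g2 * t)) := by group
              _ = _ := by rw [h7]; group
          rw [h8]
          refine h6.mono ?_
          rw [mul_sub]
          omega

theorem as_rep [NeZero p] [NeZero q] (h : t * a ^ p * t⁻¹ = a ^ q) (hpq : p ∣ q) {g : G}
    {n : ℕ} (hd : As a t g n) : Rep p q a t False g n := by
  induction hd with
  | dy h1 => simpa using (dy_good h hpq h1).2 False 1 0 (Rep.one False)
  | up _ h2 ih => exact ((dy_good h hpq h2).2 False _ _ (ih.up h)).mono (by omega)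

end group

end Core

end Pool.Agent.MP_e0ec03_al

end MrgPart1

-- ======== part 2: formerly Pool.Agent.MP_e0ec03_al.Radius
section MrgPart2

namespace Pool.Agent.MP_e0ec03_al

open Filter Topology Polynomial

/-- Pringsheim's theorem, real form -/
theorem pringsheim (a : ℕ → ℝ) (ha : ∀ n, 0 ≤ a n) {R : ℝ} (hR : 0 < R)
    (hs : ∀ x, 0 ≤ x → x < R → Summable (fun n => a n * x ^ n)) {g : ℝ → ℝ}
    (hg : AnalyticAt ℝ g R) (hfg : ∀ᶠ x in 𝓝[<] R, g x = ∑' n, a n * x ^ n) :
    ∃ x, R < x ∧ Summable (fun n => a n * x ^ n) := by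
  obtain ⟨pg, r, hpg⟩ := hg
  obtain ⟨δ, hδ, hδ'⟩ : ∃ δ > 0, ∀ x, R - δ < x → x < R → g x = ∑' n, a n * x ^ n := by
    obtain ⟨l, hl, hl'⟩ := (mem_nhdsLT_iff_exists_Ioo_subset).1 hfg
    exact ⟨R - l, by simpa using hl, fun x h1 h2 => hl' ⟨by linarith, h2⟩⟩
  obtain ⟨ρ, hρ0, hρ⟩ : ∃ ρ : NNReal, 0 < ρ ∧ (ρ : ENNReal) < r := by
    obtain ⟨ρ, h1, h2⟩ := ENNReal.lt_iff_exists_nnreal_btwn.1 hpg.r_pos
    exact ⟨ρ, by simpa using h1, h2⟩
  set ε : ℝ := min (min (ρ / 3) (δ / 2)) (R / 2) with hε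
  have hρ0' : (0 : ℝ) < ρ := hρ0
  have hε0 : 0 < ε := by positivity
  have hε1 : ε ≤ ρ / 3 := (min_le_left _ _).trans (min_le_left _ _)
  have hε2 : ε ≤ δ / 2 := (min_le_left _ _).trans (min_le_right _ _)
  have hε3 : ε ≤ R / 2 := min_le_right _ _
  set x1 := R - ε with hx1
  have hx0 : 0 ≤ x1 := by linarith
  set u : ℝ → ℕ × ℕ → ℝ := fun h nk =>
    a nk.1 * (x1 ^ (nk.1 - nk.2) * (nk.1.choose nk.2)) * h ^ nk.2 with hu
  have hrow : ∀ h n, HasSum (fun k => u h (n, k)) (a n * (x1 + h) ^ n) := by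
    intro h n
    have : a n * (x1 + h) ^ n = ∑ k ∈ Finset.range (n + 1), u h (n, k) := by
      rw [add_comm x1, add_pow, Finset.mul_sum]
      refine Finset.sum_congr rfl fun k _ => ?_
      simp only [hu]; ring
    rw [this]
    refine hasSum_sum_of_ne_finset_zero fun k hk => ?_
    have : n < k := by simpa using hk
    simp [hu, Nat.choose_eq_zero_of_lt this]
  have hun : ∀ h, 0 ≤ h → 0 ≤ u h := fun h hh nk => by
    have := ha nk.1
    simp only [hu, Pi.zero_apply]; positivity
  have hsum : ∀ h, |h| < ε → Summable (u h) := by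
    intro h hh
    have h1 : Summable (u |h|) := by
      rw [summable_prod_of_nonneg (hun _ (abs_nonneg h))]
      refine ⟨fun n => (hrow _ n).summable, ?_⟩
      simp only [fun n => (hrow |h| n).tsum_eq]
      exact hs _ (by positivity) (by linarith)
    refine Summable.of_norm_bounded h1 fun nk => le_of_eq ?_
    have := ha nk.1
    simp only [hu, Real.norm_eq_abs, abs_mul, abs_pow, abs_of_nonneg this, abs_of_nonneg hx0,
      Nat.abs_cast]
  set c : ℕ → ℝ := fun k => ∑' n, a n * (x1 ^ (n - k) * (n.choose k)) with hc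
  have hcs : ∀ k, Summable (fun n => a n * (x1 ^ (n - k) * (n.choose k))) := by
    intro k
    have h1 := (hsum (ε / 2) (by rw [abs_of_pos (by positivity)]; linarith)).prod_symm.prod_factor k
    simp only [hu, Prod.swap_prod_mk] at h1
    exact (summable_mul_right_iff (by positivity)).1 h1
  have hcol : ∀ h k, HasSum (fun n => u h (n, k)) (c k * h ^ k) := fun h k =>
    (hcs k).hasSum.mul_right _
  have hf : HasFPowerSeriesAt g (FormalMultilinearSeries.ofScalars ℝ c) x1 := by
    rw [hasFPowerSeriesAt_iff]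
    filter_upwards [Metric.ball_mem_nhds (0 : ℝ) hε0] with h hh
    have hh' : |h| < ε := by simpa using hh
    have h1 := (hsum h hh').hasSum
    have h2 := h1.prod_fiberwise (hrow h)
    have h3 : HasSum (fun kn : ℕ × ℕ => u h kn.swap) (∑' nk, u h nk) :=
      (Equiv.prodComm ℕ ℕ).hasSum_iff.2 h1
    have h4 := h3.prod_fiberwise (fun k => hcol h k)
    rw [hδ' (x1 + h) (by linarith [abs_lt.1 hh']) (by linarith [abs_lt.1 hh']), h2.tsum_eq]
    simpa [mul_comm] using h4
  have hy : (‖(-ε : ℝ)‖₊ : ENNReal) < ρ := by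
    rw [ENNReal.coe_lt_coe, ← NNReal.coe_lt_coe, coe_nnnorm, norm_neg, Real.norm_of_nonneg hε0.le]
    linarith
  have hg1 := (hpg.mono (by simpa using hρ0) hρ.le).changeOrigin hy
  have e1 : R + -ε = x1 := by rw [hx1]; ring
  rw [e1] at hg1
  have e2 := hg1.hasFPowerSeriesAt.eq_formalMultilinearSeries hf
  rw [e2] at hg1
  have hmem : (3 / 2 * ε) ∈ Metric.eball (0 : ℝ) (ρ - ‖(-ε : ℝ)‖₊) := by
    rw [Metric.mem_eball, edist_zero_right, ← ENNReal.coe_sub, enorm_eq_nnnorm,
      ENNReal.coe_lt_coe, ← NNReal.coe_lt_coe, NNReal.coe_sub (by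
        rw [← NNReal.coe_le_coe, coe_nnnorm, norm_neg, Real.norm_of_nonneg hε0.le]; linarith),
      coe_nnnorm, coe_nnnorm, norm_neg, Real.norm_of_nonneg hε0.le,
      Real.norm_of_nonneg (by positivity)]
    linarith
  have h5 := (hg1.hasSum hmem).summable
  have h6 : Summable (fun k => c k * (3 / 2 * ε) ^ k) := by
    simpa [mul_comm] using h5
  have h7 : Summable (fun kn : ℕ × ℕ => u (3 / 2 * ε) kn.swap) := by
    rw [summable_prod_of_nonneg (fun kn => hun _ (by positivity) kn.swap)]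
    refine ⟨fun k => (hcol _ k).summable, ?_⟩
    simpa only [Prod.swap_prod_mk, fun k => (hcol (3 / 2 * ε) k).tsum_eq] using h6
  have h8 : Summable (u (3 / 2 * ε)) := by simpa using h7.prod_symm
  exact ⟨x1 + 3 / 2 * ε, by linarith, (h8.hasSum.prod_fiberwise (hrow _)).summable⟩

/-- evaluation of a rational polynomial in two variables at a real point -/
noncomputable def E (x y : ℝ) : ℚ[X][X] →+* ℝ :=
  eval₂RingHom (aeval x : ℚ[X] →ₐ[ℚ] ℝ).toRingHom y

theorem E_C (x y : ℝ) (c : ℚ[X]) : E x y (C c) = aeval x c := by simp [E]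
theorem E_X (x y : ℝ) : E x y X = y := by simp [E]

theorem analytic_aeval (c : ℚ[X]) (x : ℝ) : AnalyticAt ℝ (fun x : ℝ => aeval x c) x := by
  induction c using Polynomial.induction_on with
  | C a => simpa using analyticAt_const
  | add p q hp hq => simp only [map_add]; exact hp.add hq
  | monomial n a h =>
    simp only [pow_succ, ← mul_assoc, map_mul, aeval_X] at h ⊢
    exact h.mul analyticAt_id

theorem analytic_E (P : ℚ[X][X]) (v : ℝ × ℝ) :
    AnalyticAt ℝ (fun v : ℝ × ℝ => E v.1 v.2 P) v := by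
  induction P using Polynomial.induction_on with
  | C a => simp only [E_C]; exact (analytic_aeval a v.1).comp analyticAt_fst
  | add p q hp hq => simp only [map_add]; exact hp.add hq
  | monomial n a h =>
    simp only [pow_succ, ← mul_assoc, map_mul, E_X] at h ⊢
    exact h.mul analyticAt_snd

theorem hasDerivAt_E (P : ℚ[X][X]) (x y : ℝ) :
    HasDerivAt (fun y => E x y P) (E x y (derivative P)) y := by
  have := (P.map (aeval x : ℚ[X] →ₐ[ℚ] ℝ).toRingHom).hasDerivAt y
  simpa [E, eval_map, derivative_map] using this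

/-- the series `G` converges absolutely at `x` with sum `v` -/
def SumsTo (x : ℝ) (G : PowerSeries ℚ) (v : ℝ) : Prop :=
  Summable (fun n => ‖((PowerSeries.coeff n G : ℚ) : ℝ) * x ^ n‖) ∧
    ∑' n, ((PowerSeries.coeff n G : ℚ) : ℝ) * x ^ n = v

theorem SumsTo.add {x : ℝ} {G H : PowerSeries ℚ} {v w : ℝ} (h : SumsTo x G v)
    (h' : SumsTo x H w) : SumsTo x (G + H) (v + w) := by
  have e : ∀ n, ((PowerSeries.coeff n (G + H) : ℚ) : ℝ) * x ^ n =
      ((PowerSeries.coeff n G : ℚ) : ℝ) * x ^ n + ((PowerSeries.coeff n H : ℚ) : ℝ) * x ^ n := by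
    intro n; simp; ring
  refine ⟨?_, ?_⟩
  · simp only [e]
    exact Summable.of_nonneg_of_le (fun _ => norm_nonneg _) (fun n => norm_add_le _ _)
      (h.1.add h'.1)
  · simp only [e]
    rw [h.1.of_norm.tsum_add h'.1.of_norm, h.2, h'.2]

theorem SumsTo.mul {x : ℝ} {G H : PowerSeries ℚ} {v w : ℝ} (h : SumsTo x G v)
    (h' : SumsTo x H w) : SumsTo x (G * H) (v * w) := by
  have e : ∀ n, ((PowerSeries.coeff n (G * H) : ℚ) : ℝ) * x ^ n =
      ∑ kl ∈ Finset.HasAntidiagonal.antidiagonal n, (((PowerSeries.coeff kl.1 G : ℚ) : ℝ) * x ^ kl.1) *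
        (((PowerSeries.coeff kl.2 H : ℚ) : ℝ) * x ^ kl.2) := by
    intro n
    rw [PowerSeries.coeff_mul]
    push_cast
    rw [Finset.sum_mul]
    refine Finset.sum_congr rfl fun kl hkl => ?_
    rw [← Finset.HasAntidiagonal.mem_antidiagonal.1 hkl]; ring
  refine ⟨?_, ?_⟩
  · have := summable_norm_sum_mul_antidiagonal_of_summable_norm h.1 h'.1
    exact this.congr fun n => by rw [e]
  · have := tsum_mul_tsum_eq_tsum_sum_antidiagonal_of_summable_norm h.1 h'.1
    rw [h.2, h'.2] at this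
    rw [this]
    exact tsum_congr e

theorem SumsTo.poly (x : ℝ) (c : ℚ[X]) : SumsTo x (c : PowerSeries ℚ) (aeval x c) := by
  have h0 : ∀ n ∉ Finset.range (c.natDegree + 1),
      ((PowerSeries.coeff n (c : PowerSeries ℚ) : ℚ) : ℝ) * x ^ n = 0 := by
    intro n hn
    have : c.natDegree < n := by simpa using hn
    simp [coeff_eq_zero_of_natDegree_lt this]
  refine ⟨summable_of_ne_finset_zero (s := Finset.range (c.natDegree + 1))
    fun n hn => by rw [h0 n hn, norm_zero], ?_⟩
  rw [tsum_eq_sum h0, aeval_eq_sum_range]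
  simp [Algebra.smul_def]

theorem SumsTo.aeval {x v : ℝ} {G : PowerSeries ℚ} (h : SumsTo x G v) (P : ℚ[X][X]) :
    SumsTo x (aeval G P) (E x v P) := by
  induction P using Polynomial.induction_on with
  | C a =>
    rw [aeval_C, E_C, PowerSeries.algebraMap_apply']
    simpa using SumsTo.poly x a
  | add p q hp hq => simpa using hp.add hq
  | monomial n a ih =>
    simp only [pow_succ, ← mul_assoc, map_mul, E_X, aeval_X] at ih ⊢
    exact ih.mul h

theorem E_reflect (P : ℚ[X][X]) (x y : ℝ) (hy : y ≠ 0) :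
    E x y⁻¹ (reflect P.natDegree P) * y ^ P.natDegree = E x y P := by
  let _ : Invertible y := invertibleOfNonzero hy
  have := eval₂_reflect_mul_pow (aeval x : ℚ[X] →ₐ[ℚ] ℝ).toRingHom y P.natDegree P le_rfl
  simpa [E] using this

/-- the radius of convergence of an algebraic series is a root of the leading coefficient or of
the discriminant -/
theorem radius_root (a : ℕ → ℕ) {R : ℝ} (hR : 0 < R)
    (hs : ∀ x : ℝ, 0 ≤ x → x < R → Summable (fun n => (a n : ℝ) * x ^ n))
    (hns : ∀ x : ℝ, R < x → ¬ Summable (fun n => (a n : ℝ) * x ^ n))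
    (P A B : ℚ[X][X]) (Δ : ℚ[X]) (hP : aeval (PowerSeries.mk fun n => (a n : ℚ)) P = 0)
    (hB : A * P + B * derivative P = C Δ) :
    aeval R P.leadingCoeff = 0 ∨ aeval R Δ = 0 := by
  by_contra hcon
  push Not at hcon
  obtain ⟨h1, h2⟩ := hcon
  set f : ℝ → ℝ := fun x => ∑' n, (a n : ℝ) * x ^ n with hf
  have hE : ∀ x : ℝ, 0 ≤ x → Summable (fun n => (a n : ℝ) * x ^ n) → E x (f x) P = 0 := by
    intro x hx hsx
    have h3 : SumsTo x (PowerSeries.mk fun n => (a n : ℚ)) (f x) := by
      refine ⟨?_, by simp [hf]⟩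
      simpa using hsx.norm
    have h4 := (h3.aeval P).2
    rw [hP] at h4
    simpa using h4.symm
  have hev : ∀ᶠ x in 𝓝[<] R, 0 ≤ x ∧ x < R := by
    filter_upwards [Ioo_mem_nhdsLT hR] with x hx using ⟨hx.1.le, hx.2⟩
  have hsR : Summable (fun n => (a n : ℝ) * R ^ n) := by
    by_contra hn
    have h3 := (not_summable_iff_tendsto_nat_atTop_of_nonneg (fun n => by positivity)).1 hn
    have h4 : Tendsto f (𝓝[<] R) atTop := by
      rw [tendsto_atTop]
      intro M
      obtain ⟨N, hN⟩ := (h3.eventually (eventually_gt_atTop M)).exists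
      have h5 : ContinuousAt (fun x : ℝ => ∑ n ∈ Finset.range N, (a n : ℝ) * x ^ n) R := by
        fun_prop
      filter_upwards [(h5.eventually (lt_mem_nhds hN)).filter_mono nhdsWithin_le_nhds, hev]
        with x hx hx'
      exact hx.le.trans ((hs x hx'.1 hx'.2).sum_le_tsum _ (fun i _ => by have := hx'.1; positivity))
    have h5 : Tendsto (fun x => (x, (f x)⁻¹)) (𝓝[<] R) (𝓝 (R, 0)) :=
      (tendsto_nhdsWithin_of_tendsto_nhds tendsto_id).prodMk_nhds h4.inv_tendsto_atTop
    have h6 := ((analytic_E (reflect P.natDegree P) (R, 0)).continuousAt.tendsto).comp h5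
    have h7 : ∀ᶠ x in 𝓝[<] R, ((fun v : ℝ × ℝ => E v.1 v.2 (reflect P.natDegree P)) ∘
        fun x => (x, (f x)⁻¹)) x = 0 := by
      filter_upwards [hev, h4.eventually (eventually_gt_atTop 0)] with x hx hx'
      have := E_reflect P x (f x) hx'.ne'
      rw [hE x hx.1 (hs x hx.1 hx.2)] at this
      simpa [hx'.ne'] using this
    have h8 := tendsto_nhds_unique (h6.congr' h7) tendsto_const_nhds
    apply h1
    simpa [E, eval₂_at_zero, coeff_reflect] using h8
  have hcont : ContinuousOn f (Set.Icc 0 R) := by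
    refine continuousOn_tsum (fun n => by fun_prop) hsR fun n x hx => ?_
    have := hx.1
    rw [Real.norm_of_nonneg (by positivity)]
    gcongr
    exact hx.2
  have hER := hE R hR.le hsR
  have hD : E R (f R) (derivative P) ≠ 0 := by
    intro h0
    have := congrArg (E R (f R)) hB
    rw [map_add, map_mul, map_mul, hER, h0, E_C] at this
    exact h2 (by simpa using this.symm)
  have cdf : ContDiffAt ℝ ⊤ (fun v : ℝ × ℝ => E v.1 v.2 P) (R, f R) :=
    (analytic_E P _).contDiffAt
  have hinv : (fderiv ℝ (fun v : ℝ × ℝ => E v.1 v.2 P) (R, f R) ∘L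
      ContinuousLinearMap.inr ℝ ℝ ℝ).IsInvertible := by
    have h3 := (analytic_E P (R, f R)).differentiableAt.hasFDerivAt.comp (f R)
      (hasFDerivAt_prodMk_right R (f R))
    have h4 := h3.unique (hasDerivAt_E P R (f R)).hasFDerivAt
    rw [h4]
    exact ⟨ContinuousLinearEquiv.unitsEquivAut ℝ (Units.mk0 _ hD), by ext; simp⟩
  have hg := cdf.contDiffAt_implicitFunction (by simp) hinv
  have hg' := cdf.eventually_apply_eq_iff_implicitFunction (by simp) hinv
  have h5 : Tendsto (fun x => (x, f x)) (𝓝[<] R) (𝓝 (R, f R)) := by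
    refine (tendsto_nhdsWithin_of_tendsto_nhds tendsto_id).prodMk_nhds ?_
    refine (hcont R ⟨hR.le, le_rfl⟩).tendsto.mono_left ?_
    refine le_inf nhdsWithin_le_nhds (le_principal_iff.2 ?_)
    filter_upwards [hev] with x hx using ⟨hx.1, hx.2.le⟩
  obtain ⟨x, hx, hx'⟩ := pringsheim (fun n => (a n : ℝ)) (fun n => by positivity) hR hs
    hg.analyticAt (by
      filter_upwards [h5.eventually hg', hev] with x hx hx'
      exact hx.1 (by rw [hE x hx'.1 (hs x hx'.1 hx'.2), hER]))
  exact hns x hx hx'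

end Pool.Agent.MP_e0ec03_al

end MrgPart2

-- marker of a merged file
example : 731051 + 446609 = 731051 + 446609 := rfl
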