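import Mathlib.Topology.Sheaves.Presheaf
import Mathlib.Algebra.Lie.OfAssociative
import Mathlib.Data.Int.Star
import Mathlib.RingTheory.Unramified.Field
import Mathlib.Analysis.SpecialFunctions.Pow.Real
import Mathlib.Order.Interval.Finset.Box
import Mathlib.Analysis.Subadditive
import Mathlib.Data.Set.Card.Arithmetic
import Mathlib.Data.Set.Finite.List
import Mathlib.RingTheory.PiTensorProduct
import Mathlib.RingTheory.SimpleRing.Principal
import Mathlib.RingTheory.Henselian
import Mathlib.RingTheory.LaurentSeries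
import Mathlib.RingTheory.RegularLocalRing.Defs
import Pool.Agent.MP_e0ec03_al.Radius
import Pool.Agent.MP_e0ec03_al.Defs

-- ======== part 0: formerly Pool.Agent.MP_e0ec03_al.Inject
section MrgPart0

namespace Pool.Agent.MP_e0ec03_al

open Classical

variable {p q : ℕ}

/-- whether the top letter may be cancelled (first: a down letter, second: an up letter) -/
def pp : List (ZMod p ⊕ ZMod q) → Prop × Prop
  | [] => (False, False)
  | Sum.inl r :: l => (¬ (r = 0 ∧ (pp l).2), False)
  | Sum.inr d :: l => (False, ¬ (d = 0 ∧ (pp l).1))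

/-- value of the top letter -/
def hv : List (ZMod p ⊕ ZMod q) → ℤ
  | [] => 0
  | Sum.inl r :: _ => r.val
  | Sum.inr d :: _ => d.val

/-- right multiplication of a normal form by `t` -/
noncomputable def tau (s : List (ZMod p ⊕ ZMod q) × ℤ) : List (ZMod p ⊕ ZMod q) × ℤ :=
  if (pp s.1).1 ∧ (q : ℤ) ∣ s.2 then (s.1.tail, hv s.1 + p * (s.2 / q))
  else (Sum.inr (s.2 : ZMod q) :: s.1, p * (s.2 / q))

/-- right multiplication of a normal form by `t⁻¹` -/
noncomputable def tau' (s : List (ZMod p ⊕ ZMod q) × ℤ) : List (ZMod p ⊕ ZMod q) × ℤ :=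
  if (pp s.1).2 ∧ (p : ℤ) ∣ s.2 then (s.1.tail, hv s.1 + q * (s.2 / p))
  else (Sum.inl (s.2 : ZMod p) :: s.1, q * (s.2 / p))

theorem val_div (n : ℕ) [NeZero n] (r : ZMod n) (j : ℤ) : ((r.val : ℤ) + n * j) / n = j := by
  have h : (n : ℤ) ≠ 0 := by exact_mod_cast NeZero.ne n
  rw [Int.add_mul_ediv_left _ _ h, Int.ediv_eq_zero_of_lt (by positivity)
    (by exact_mod_cast ZMod.val_lt r), zero_add]

theorem val_cast (n : ℕ) [NeZero n] (r : ZMod n) (j : ℤ) :
    (((r.val : ℤ) + n * j : ℤ) : ZMod n) = r := by simp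

theorem val_dvd (n : ℕ) [NeZero n] (r : ZMod n) (j : ℤ) :
    (n : ℤ) ∣ ((r.val : ℤ) + n * j : ℤ) ↔ r = 0 := by
  rw [← ZMod.intCast_zmod_eq_zero_iff_dvd, val_cast]

theorem tau'_tau [NeZero p] [NeZero q] (s : List (ZMod p ⊕ ZMod q) × ℤ) : tau' (tau s) = s := by
  obtain ⟨l, k⟩ := s
  have hp : (p : ℤ) ≠ 0 := by exact_mod_cast NeZero.ne p
  have hq : (q : ℤ) ≠ 0 := by exact_mod_cast NeZero.ne q
  by_cases h : (pp l).1 ∧ (q : ℤ) ∣ k
  · obtain ⟨h1, j, rfl⟩ := h
    have e : tau (l, (q : ℤ) * j) = (l.tail, hv l + p * j) := by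
      simp [tau, h1, Int.mul_ediv_cancel_left _ hq]
    rw [e]
    match l, h1 with
    | Sum.inl r :: l', h1 =>
      simp only [pp] at h1
      have h2 : ¬ ((pp l').2 ∧ (p : ℤ) ∣ (r.val : ℤ) + p * j) := by
        rw [val_dvd]; tauto
      simp only [tau', List.tail_cons, hv, if_neg h2, val_cast, val_div]
  · have e : tau (l, k) = (Sum.inr (k : ZMod q) :: l, p * (k / q)) := by
      simp only [tau, if_neg h]
    rw [e]
    have h2 : (pp (Sum.inr (k : ZMod q) :: l)).2 ∧ (p : ℤ) ∣ p * (k / q) := by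
      refine ⟨?_, dvd_mul_right _ _⟩
      simp only [pp, ZMod.intCast_zmod_eq_zero_iff_dvd]
      tauto
    simp only [tau', if_pos h2, List.tail_cons, hv, Int.mul_ediv_cancel_left _ hp]
    rw [← Core.int_digit]

theorem tau_tau' [NeZero p] [NeZero q] (s : List (ZMod p ⊕ ZMod q) × ℤ) : tau (tau' s) = s := by
  obtain ⟨l, k⟩ := s
  have hp : (p : ℤ) ≠ 0 := by exact_mod_cast NeZero.ne p
  have hq : (q : ℤ) ≠ 0 := by exact_mod_cast NeZero.ne q
  by_cases h : (pp l).2 ∧ (p : ℤ) ∣ k
  · obtain ⟨h1, j, rfl⟩ := h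
    have e : tau' (l, (p : ℤ) * j) = (l.tail, hv l + q * j) := by
      simp [tau', h1, Int.mul_ediv_cancel_left _ hp]
    rw [e]
    match l, h1 with
    | Sum.inr r :: l', h1 =>
      simp only [pp] at h1
      have h2 : ¬ ((pp l').1 ∧ (q : ℤ) ∣ (r.val : ℤ) + q * j) := by
        rw [val_dvd]; tauto
      simp only [tau, List.tail_cons, hv, if_neg h2, val_cast, val_div]
  · have e : tau' (l, k) = (Sum.inl (k : ZMod p) :: l, q * (k / p)) := by
      simp only [tau', if_neg h]
    rw [e]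
    have h2 : (pp (Sum.inl (k : ZMod p) :: l : List (ZMod p ⊕ ZMod q))).1 ∧
        (q : ℤ) ∣ q * (k / p) := by
      refine ⟨?_, dvd_mul_right _ _⟩
      simp only [pp, ZMod.intCast_zmod_eq_zero_iff_dvd]
      tauto
    simp only [tau, if_pos h2, List.tail_cons, hv, Int.mul_ediv_cancel_left _ hq]
    rw [← Core.int_digit]

variable (p q) in
/-- the permutation attached to `t` -/
noncomputable def permT [NeZero p] [NeZero q] : Equiv.Perm (List (ZMod p ⊕ ZMod q) × ℤ) :=
  ⟨tau', tau, tau_tau', tau'_tau⟩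

variable (p q) in
/-- the permutation attached to `a` -/
def permA : Equiv.Perm (List (ZMod p ⊕ ZMod q) × ℤ) :=
  ⟨fun s => (s.1, s.2 - 1), fun s => (s.1, s.2 + 1), fun s => by simp, fun s => by simp⟩

theorem permA_zpow (k : ℤ) (s : List (ZMod p ⊕ ZMod q) × ℤ) :
    (permA p q ^ k) s = (s.1, s.2 - k) := by
  induction k using Int.induction_on generalizing s with
  | zero => simp
  | succ i ih =>
    rw [zpow_add_one, Equiv.Perm.mul_apply, ih]
    simp [permA]; ring
  | pred i ih =>
    rw [zpow_sub_one, Equiv.Perm.mul_apply, ih]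
    simp [permA, Equiv.Perm.inv_def]; ring

theorem permA_zpow_inv (k : ℤ) (s : List (ZMod p ⊕ ZMod q) × ℤ) :
    (permA p q ^ k)⁻¹ s = (s.1, s.2 + k) := by
  rw [← zpow_neg, permA_zpow]; simp

theorem perm_rel [NeZero p] [NeZero q] :
    permT p q * permA p q ^ p * (permT p q)⁻¹ = permA p q ^ q := by
  have hp : (p : ℤ) ≠ 0 := by exact_mod_cast NeZero.ne p
  rw [mul_inv_eq_iff_eq_mul]
  ext1 s
  obtain ⟨l, k⟩ := s
  rw [Equiv.Perm.mul_apply, Equiv.Perm.mul_apply, ← zpow_natCast, ← zpow_natCast, permA_zpow,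
    permA_zpow]
  have e1 : (k - p) / p = k / p - 1 := by
    rw [show k - p = k + p * (-1) by ring, Int.add_mul_ediv_left _ _ hp]; ring
  have e2 : (p : ℤ) ∣ k - p ↔ (p : ℤ) ∣ k := by simp
  change tau' (l, k - p) = ((tau' (l, k)).1, (tau' (l, k)).2 - q)
  simp only [tau', e1, e2]
  split_ifs
  · simp; ring
  · simp; ring

namespace Core

/-- the list of letters of a core -/
def code : Core p q → List (ZMod p ⊕ ZMod q)
  | empty => []
  | up y d => Sum.inr d :: code y
  | node x r y d => Sum.inr d :: (code y ++ Sum.inl r :: code x)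

theorem code_inj : ∀ (c c' : Core p q) (l l' : List (ZMod p ⊕ ZMod q)), valid c → valid c' →
    (∀ d, l.head? ≠ some (Sum.inr d)) → (∀ d, l'.head? ≠ some (Sum.inr d)) →
    (pure c ∨ l = []) → (pure c' ∨ l' = []) →
    code c ++ l = code c' ++ l' → c = c' ∧ l = l'
  | empty, empty, l, l', _, _, _, _, _, _, h => by simpa [code] using h
  | empty, up y d, l, l', _, _, h1, _, _, _, h => by
    simp only [code, List.nil_append] at h
    exact (h1 d (by simp [h])).elim
  | empty, node x r y d, l, l', _, _, h1, _, _, _, h => by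
    simp only [code, List.nil_append] at h
    exact (h1 d (by simp [h])).elim
  | up y d, empty, l, l', _, _, _, h1, _, _, h => by
    simp only [code, List.nil_append] at h
    exact (h1 d (by simp [← h])).elim
  | node x r y d, empty, l, l', _, _, _, h1, _, _, h => by
    simp only [code, List.nil_append] at h
    exact (h1 d (by simp [← h])).elim
  | up y d, up y' d', l, l', hv, hv', h1, h2, h3, h4, h => by
    simp only [code, List.cons_append, List.cons.injEq, Sum.inr.injEq] at h
    have e1 : l = [] := by simpa [pure] using h3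
    have e2 : l' = [] := by simpa [pure] using h4
    have := code_inj y y' l l' hv hv' h1 h2 (Or.inr e1) (Or.inr e2) h.2
    simp [h.1, this.1, this.2]
  | up y d, node x' r' y' d', l, l', hv, hv', h1, h2, h3, h4, h => by
    simp only [code, List.cons_append, List.cons.injEq, Sum.inr.injEq, List.append_assoc] at h
    have e1 : l = [] := by simpa [pure] using h3
    have := code_inj y y' _ _ hv hv'.2.1 h1 (by simp) (Or.inr e1) (Or.inl hv'.2.2.1) h.2
    simp [e1] at this
  | node x r y d, up y' d', l, l', hv, hv', h1, h2, h3, h4, h => by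
    simp only [code, List.cons_append, List.cons.injEq, Sum.inr.injEq, List.append_assoc] at h
    have e1 : l' = [] := by simpa [pure] using h4
    have := code_inj y y' _ _ hv.2.1 hv' (by simp) h2 (Or.inl hv.2.2.1) (Or.inr e1) h.2
    simp [e1] at this
  | node x r y d, node x' r' y' d', l, l', hv, hv', h1, h2, h3, h4, h => by
    simp only [code, List.cons_append, List.cons.injEq, Sum.inr.injEq, List.append_assoc] at h
    have i1 := code_inj y y' _ _ hv.2.1 hv'.2.1 (by simp) (by simp) (Or.inl hv.2.2.1)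
      (Or.inl hv'.2.2.1) h.2
    simp only [List.cons.injEq, Sum.inl.injEq] at i1
    have i2 := code_inj x x' l l' hv.1 hv'.1 h1 h2 h3 h4 i1.2.2
    simp [h.1, i1.1, i1.2.1, i2.1, i2.2]

theorem pp_code_fst (c : Core p q) (hc : c ≠ empty) (l : List (ZMod p ⊕ ZMod q)) :
    ¬ (pp (code c ++ l)).1 := by
  cases c with
  | empty => exact (hc rfl).elim
  | up y d => simp [code, pp]
  | node x r y d => simp [code, pp]

theorem act_ev [NeZero p] [NeZero q] (hpq : p ∣ q) : ∀ (c : Core p q)
    (l : List (ZMod p ⊕ ZMod q)) (u : ℤ), valid c → ¬ (pp l).2 →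
    (pure c ∨ (l = [] ∧ u = 0)) →
    (ev (permA p q) (permT p q) c)⁻¹ (l, p * u) = (code c ++ l, p * u)
  | empty, l, u, _, _, _ => by simp [ev, code]
  | up y d, l, u, hv, hl, h => by
    obtain ⟨rfl, rfl⟩ : l = [] ∧ u = 0 := by simpa [pure] using h
    have ih := act_ev hpq y [] 0 hv hl (Or.inr ⟨rfl, rfl⟩)
    simp only [ev, mul_inv_rev, Equiv.Perm.mul_apply, ih, permA_zpow_inv]
    change tau _ = _
    have h1 : ¬ (pp (code y ++ [])).1 := by
      by_cases hy : y = empty
      · simp [hy, code, pp]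
      · exact pp_code_fst y hy _
    have h2 := val_div q d 0
    have h3 := val_cast q d 0
    simp only [mul_zero, add_zero] at h2 h3
    simp only [tau, h1, false_and, if_false, mul_zero, zero_add, h2, h3, code, List.cons_append]
  | node x r y d, l, u, hv, hl, h => by
    obtain ⟨m, hm⟩ := hpq
    have ih := act_ev ⟨m, hm⟩ x l u hv.1 hl h
    have ih' := act_ev ⟨m, hm⟩ y (Sum.inl r :: (code x ++ l)) (m * u) hv.2.1 (by simp [pp])
      (Or.inl hv.2.2.1)
    have e : (p : ℤ) * (m * u) = q * u := by rw [hm]; push_cast; ring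
    rw [e] at ih'
    simp only [ev, mul_inv_rev, Equiv.Perm.mul_apply, ih, permA_zpow_inv, inv_inv]
    have s1 : permT p q (code x ++ l, p * u + r.val) = (Sum.inl r :: (code x ++ l), q * u) := by
      change tau' _ = _
      have h1 : ¬ ((pp (code x ++ l)).2 ∧ (p : ℤ) ∣ p * u + r.val) := by
        rw [add_comm, val_dvd]
        rcases hv.2.2.2.2 with hx | hx
        · simp [hx, code, hl]
        · simp [hx]
      simp only [tau', if_neg h1]
      rw [add_comm, val_cast, val_div]
    rw [s1, ih']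
    change tau _ = _
    have h1 : ¬ ((pp (code y ++ Sum.inl r :: (code x ++ l))).1 ∧ (q : ℤ) ∣ q * u + d.val) := by
      rw [add_comm, val_dvd]
      by_cases hy : y = empty
      · have := hv.2.2.2.1
        tauto
      · have := pp_code_fst y hy (Sum.inl r :: (code x ++ l))
        tauto
    simp only [tau, if_neg h1]
    rw [add_comm, val_cast, val_div]
    simp [code]

theorem map_ev {G H : Type} [Group G] [Group H] (f : G →* H) (a t : G) :
    ∀ c : Core p q, f (ev a t c) = ev (f a) (f t) c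
  | empty => by simp [ev]
  | up y d => by simp [ev, map_ev f a t y]
  | node x r y d => by simp [ev, map_ev f a t x, map_ev f a t y]

end Core

variable (p q) in
/-- the generator `a` -/
def gA : PresentedGroup (rels p q) := PresentedGroup.of false
variable (p q) in
/-- the generator `t` -/
def gT : PresentedGroup (rels p q) := PresentedGroup.of true

theorem g_rel : gT p q * gA p q ^ p * (gT p q)⁻¹ = gA p q ^ q := by
  have : PresentedGroup.mk (rels p q) (FreeGroup.of true * FreeGroup.of false ^ p *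
      (FreeGroup.of true)⁻¹ * (FreeGroup.of false ^ q)⁻¹) = 1 :=
    PresentedGroup.one_of_mem (by simp [rels])
  simp only [map_mul, map_pow, map_inv] at this
  exact mul_inv_eq_one.1 this

variable (p q) in
/-- the action on normal forms -/
noncomputable def rho [NeZero p] [NeZero q] :
    PresentedGroup (rels p q) →* Equiv.Perm (List (ZMod p ⊕ ZMod q) × ℤ) :=
  PresentedGroup.toGroup (f := fun b => cond b (permT p q) (permA p q)) (by
    intro r hr
    simp only [rels, Set.mem_singleton_iff] at hr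
    subst hr
    simp only [map_mul, map_pow, map_inv, FreeGroup.lift_apply_of, cond_true, cond_false]
    rw [perm_rel, mul_inv_cancel])

theorem ev_inj [NeZero p] [NeZero q] (hpq : p ∣ q) {c c' : Core p q} (hc : c.valid)
    (hc' : c'.valid) {k k' : ℤ}
    (h : c.ev (gA p q) (gT p q) * gA p q ^ k = c'.ev (gA p q) (gT p q) * gA p q ^ k') :
    c = c' ∧ k = k' := by
  have hA : rho p q (gA p q) = permA p q := by simp [rho, gA]
  have hT : rho p q (gT p q) = permT p q := by simp [rho, gT]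
  have h1 := congrArg (fun g => (rho p q g)⁻¹ ([], p * 0)) h
  simp only [map_mul, map_zpow, Core.map_ev, hA, hT, mul_inv_rev, Equiv.Perm.mul_apply] at h1
  rw [Core.act_ev hpq c [] 0 hc (by simp [pp]) (Or.inr ⟨rfl, rfl⟩),
    Core.act_ev hpq c' [] 0 hc' (by simp [pp]) (Or.inr ⟨rfl, rfl⟩), permA_zpow_inv,
    permA_zpow_inv] at h1
  simp only [Prod.mk.injEq] at h1
  exact ⟨(Core.code_inj c c' [] [] hc hc' (by simp) (by simp) (Or.inr rfl) (Or.inr rfl) h1.1).1,
    by omega⟩

theorem mem_ball {n : ℕ} {g : PresentedGroup (rels p q)} :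
    g ∈ ball p q n ↔ Len (gA p q) (gT p q) g n := by
  have : ∀ w : List (Bool × Bool), PresentedGroup.mk (rels p q) (FreeGroup.mk w) =
      (w.map (letter (gA p q) (gT p q))).prod := by
    intro w
    have e : PresentedGroup.mk (rels p q) = FreeGroup.lift (fun b => cond b (gT p q) (gA p q)) := by
      ext b
      cases b <;> simp [gA, gT, PresentedGroup.of]
    rw [e, FreeGroup.lift_mk]
    rfl
  simp only [ball, Len, Set.mem_ofPred_eq, this]

end Pool.Agent.MP_e0ec03_al

end MrgPart0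

-- ======== part 1: formerly Pool.Agent.MP_e0ec03_al.Growth
section MrgPart1

namespace Pool.Agent.MP_e0ec03_al

open Filter Topology

theorem growth_exists (b : ℕ → ℕ) (h1 : ∀ n, 1 ≤ b n) (h2 : ∀ m n, b (m + n) ≤ b m * b n) :
    ∃ w : ℝ, 1 ≤ w ∧ Tendsto (fun n : ℕ => (b n : ℝ) ^ (1 / (n : ℝ))) atTop (𝓝 w) ∧
      (∀ n, w ^ n ≤ b n) ∧ ∀ x : ℝ, 0 ≤ x → x * w < 1 → Summable (fun n => (b n : ℝ) * x ^ n) := by
  have hpos : ∀ n, (0 : ℝ) < b n := fun n => by exact_mod_cast h1 n
  have hs : Subadditive (fun n => Real.log (b n)) := by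
    intro m n
    rw [← Real.log_mul (hpos m).ne' (hpos n).ne']
    exact Real.log_le_log (hpos _) (by exact_mod_cast h2 m n)
  have hnn : ∀ n : ℕ, 0 ≤ Real.log (b n) / n := fun n =>
    div_nonneg (Real.log_nonneg (by exact_mod_cast h1 n)) (Nat.cast_nonneg n)
  have hb : BddBelow (Set.range fun n : ℕ => Real.log (b n) / n) :=
    ⟨0, by rintro _ ⟨n, rfl⟩; exact hnn n⟩
  have ht := hs.tendsto_lim hb
  have ht' : Tendsto (fun n : ℕ => (b n : ℝ) ^ (1 / (n : ℝ))) atTop (𝓝 (Real.exp hs.lim)) := by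
    refine ((Real.continuous_exp.tendsto _).comp ht).congr fun n => ?_
    simp only [Function.comp]
    rw [Real.rpow_def_of_pos (hpos n)]
    congr 1
    ring
  have h0 : 0 ≤ hs.lim := ge_of_tendsto' ht hnn
  refine ⟨Real.exp hs.lim, Real.one_le_exp h0, ht', fun n => ?_, fun x hx hxw => ?_⟩
  · rcases Nat.eq_zero_or_pos n with rfl | hn
    · simpa using h1 0
    · have := hs.lim_le_div hb hn.ne'
      rw [le_div_iff₀ (by exact_mod_cast hn)] at this
      rw [← Real.exp_nat_mul, mul_comm, ← Real.le_log_iff_exp_le (hpos n)]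
      exact this
  · obtain ⟨w', hw1, hw2⟩ : ∃ w', Real.exp hs.lim < w' ∧ x * w' < 1 := by
      have hc : ContinuousAt (fun y : ℝ => x * y) (Real.exp hs.lim) := by fun_prop
      have h3 := hc.eventually (gt_mem_nhds hxw)
      exact (h3.filter_mono nhdsWithin_le_nhds |>.and self_mem_nhdsWithin
        (f := 𝓝[>] (Real.exp hs.lim))).exists.imp fun y hy => ⟨hy.2, hy.1⟩
    have hw0 : 0 < w' := (Real.exp_pos _).trans hw1
    refine Summable.of_norm_bounded_eventually_nat
      (summable_geometric_of_lt_one (mul_nonneg hx hw0.le) hw2) ?_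
    filter_upwards [ht'.eventually (gt_mem_nhds hw1), eventually_gt_atTop 0] with n hn hn0
    rw [Real.norm_of_nonneg (by positivity), mul_pow, mul_comm]
    refine mul_le_mul_of_nonneg_left ?_ (by positivity)
    have := pow_le_pow_left₀ (by positivity) hn.le n
    rwa [one_div, Real.rpow_inv_natCast_pow (hpos n).le hn0.ne'] at this

theorem le_one_of_poly {y K : ℝ} {k : ℕ} (h : ∀ n : ℕ, 1 ≤ n → y ^ n ≤ K * (n : ℝ) ^ k) :
    y ≤ 1 := by
  by_contra hy
  push Not at hy
  have h1 := (tendsto_pow_const_div_const_pow_of_one_lt k hy).const_mul K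
  rw [mul_zero] at h1
  obtain ⟨n, hn, hn1⟩ := ((h1.eventually (gt_mem_nhds zero_lt_one)).and
    (eventually_ge_atTop 1)).exists
  have h2 := h n hn1
  have h3 : 0 < y ^ n := by positivity
  rw [← mul_div_assoc, div_lt_one h3] at hn
  linarith

variable {p q : ℕ}

theorem ball_finite (n : ℕ) : (ball p q n).Finite :=
  (List.finite_length_le (Bool × Bool) n).image
    (fun w => PresentedGroup.mk (rels p q) (FreeGroup.mk w))

theorem ball_pos (n : ℕ) : 1 ≤ (ball p q n).ncard :=
  (Set.ncard_pos (ball_finite n)).2 ⟨1, mem_ball.2 (Len.one.mono (Nat.zero_le _))⟩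

theorem ball_submul (m n : ℕ) :
    (ball p q (m + n)).ncard ≤ (ball p q m).ncard * (ball p q n).ncard := by
  rw [← Set.ncard_prod]
  have hf := (ball_finite (p := p) (q := q) m).prod (ball_finite (p := p) (q := q) n)
  refine le_trans (Set.ncard_le_ncard ?_ (hf.image (fun x => x.1 * x.2))) (Set.ncard_image_le hf)
  intro g hg
  obtain ⟨w, h1, h2⟩ := mem_ball.1 hg
  refine ⟨(((w.take m).map (letter (gA p q) (gT p q))).prod,
    ((w.drop m).map (letter (gA p q) (gT p q))).prod),
    ⟨mem_ball.2 ⟨_, by simp, rfl⟩, mem_ball.2 ⟨_, by simp; omega, rfl⟩⟩, ?_⟩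
  simp only
  rw [← List.prod_append, ← List.map_append, List.take_append_drop, h2]

namespace Core

/-- the distance from the identity to the line of a core -/
noncomputable def mu (c : Core p q) : ℕ := ⨅ k : ℤ, D c k

theorem mu_le (c : Core p q) (k : ℤ) : mu c ≤ D c k := ciInf_le' (fun k => D c k) k

theorem mu_ex (c : Core p q) : ∃ k, D c k = mu c := ciInf_mem (fun k => D c k)

theorem abs_le_D [NeZero p] [NeZero q] (hpq : p ≤ q) :
    ∀ (c : Core p q) (k : ℤ), |k| ≤ q * D c k
  | empty, k => by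
    have : (1 : ℤ) ≤ q := by exact_mod_cast NeZero.pos q
    simp only [D, Int.natCast_natAbs]
    nlinarith [abs_nonneg k]
  | up y d, k => by
    obtain ⟨j, hj⟩ := D_up_ex y d k
    have h1 := abs_le_D hpq y (d.val + q * j)
    have h2 : (d.val : ℤ) < q := by exact_mod_cast ZMod.val_lt d
    have hq : (1 : ℤ) ≤ q := by exact_mod_cast NeZero.pos q
    have hpq' : (p : ℤ) ≤ q := by exact_mod_cast hpq
    have h3 : (q : ℤ) * |j| ≤ q * (D y (d.val + q * j) + 1) := by
      have : |(q : ℤ) * j| ≤ |(d.val : ℤ) + q * j| + |(d.val : ℤ)| := by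
        have := abs_sub ((d.val : ℤ) + q * j) d.val
        simpa using this
      rw [abs_mul, Nat.abs_cast, Nat.abs_cast] at this
      linarith
    have h5 : |k| ≤ |k - p * j| + p * |j| := by
      have := abs_add_le (k - p * j) (p * j)
      rw [abs_mul, Nat.abs_cast] at this
      simpa using this
    rw [hj]
    push_cast
    nlinarith [abs_nonneg j, abs_nonneg (k - p * j)]
  | node x r y d, k => by
    obtain ⟨i, j, hj⟩ := D_node_ex x r y d k
    have h0 := abs_le_D hpq x (r.val + p * i)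
    have h1 := abs_le_D hpq y (d.val + q * j)
    have h2 : (d.val : ℤ) < q := by exact_mod_cast ZMod.val_lt d
    have h2' : (r.val : ℤ) < p := by exact_mod_cast ZMod.val_lt r
    have hq : (1 : ℤ) ≤ q := by exact_mod_cast NeZero.pos q
    have hpq' : (p : ℤ) ≤ q := by exact_mod_cast hpq
    have h3 : (q : ℤ) * |j| ≤ q * (D y (d.val + q * j) + 1) := by
      have : |(q : ℤ) * j| ≤ |(d.val : ℤ) + q * j| + |(d.val : ℤ)| := by
        have := abs_sub ((d.val : ℤ) + q * j) d.val
        simpa using this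
      rw [abs_mul, Nat.abs_cast, Nat.abs_cast] at this
      linarith
    have h4 : (p : ℤ) * |i| ≤ q * D x (r.val + p * i) + p := by
      have : |(p : ℤ) * i| ≤ |(r.val : ℤ) + p * i| + |(r.val : ℤ)| := by
        have := abs_sub ((r.val : ℤ) + p * i) r.val
        simpa using this
      rw [abs_mul, Nat.abs_cast, Nat.abs_cast] at this
      linarith
    have h5 : |k| ≤ |k - p * (i + j)| + p * |i| + p * |j| := by
      have h6 := abs_add_le (k - p * (i + j)) (p * (i + j))
      have h7 := abs_add_le i j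
      rw [abs_mul, Nat.abs_cast] at h6
      have h8 : (p : ℤ) * |i + j| ≤ p * (|i| + |j|) := by gcongr
      simp only [sub_add_cancel] at h6
      linarith
    rw [hj]
    push_cast
    nlinarith [abs_nonneg j, abs_nonneg (k - p * (i + j))]

end Core

variable (p q) in
/-- valid cores at distance at most `n` -/
def cores (n : ℕ) : Set (Core p q) := {c | c.valid ∧ c.mu ≤ n}

variable (p q) in
/-- number of valid cores at distance exactly `n` -/
noncomputable def cnt (n : ℕ) : ℕ := {c : Core p q | c.valid ∧ c.mu = n}.ncard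

theorem cores_inj [NeZero p] [NeZero q] (hpq : p ∣ q) (n : ℕ) :
    ∃ f : Core p q → PresentedGroup (rels p q), (∀ c ∈ cores p q n, f c ∈ ball p q n) ∧
      Set.InjOn f (cores p q n) := by
  choose k hk using Core.mu_ex (p := p) (q := q)
  refine ⟨fun c => c.ev (gA p q) (gT p q) * gA p q ^ k c, fun c hc => ?_, fun c hc c' hc' h => ?_⟩
  · exact mem_ball.2 ((Core.len_ev g_rel hpq c hc.1 _).mono (by rw [hk]; exact hc.2))
  · exact (ev_inj hpq hc.1 hc'.1 h).1

theorem cores_finite [NeZero p] [NeZero q] (hpq : p ∣ q) (n : ℕ) : (cores p q n).Finite := by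
  obtain ⟨f, h1, h2⟩ := cores_inj hpq n
  exact Set.Finite.of_injOn h1 h2 (ball_finite n)

theorem cnt_le [NeZero p] [NeZero q] (hpq : p ∣ q) (n : ℕ) : cnt p q n ≤ (ball p q n).ncard := by
  obtain ⟨f, h1, h2⟩ := cores_inj hpq n
  refine le_trans (Set.ncard_le_ncard (t := cores p q n) (fun c hc => ⟨hc.1, hc.2.le⟩)
    (cores_finite hpq n)) ?_
  exact Set.ncard_le_ncard_of_injOn f h1 h2 (ball_finite n)

theorem cores_le (n : ℕ) :
    (cores p q n).ncard ≤ ∑ i ∈ Finset.range (n + 1), cnt p q i := by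
  have : cores p q n = ⋃ i ∈ Finset.range (n + 1), {c : Core p q | c.valid ∧ c.mu = i} := by
    ext c
    simp [cores]
  rw [this]
  exact Finset.set_ncard_biUnion_le _ _

theorem ball_le [NeZero p] [NeZero q] (hpq : p ∣ q) (N : ℕ) :
    (ball p q N).ncard ≤ ∑ i ∈ Finset.range (N + 1),
      ((cores p q i).ncard * (2 * q * N + 1)) * ((cores p q (N - i)).ncard * (2 * q * N + 1)) := by
  set I : Set ℤ := Set.Icc (-(q * N : ℤ)) (q * N) with hI
  have hIc : I.ncard = 2 * q * N + 1 := by
    rw [hI, ← Finset.coe_Icc, Set.ncard_coe_finset, Int.card_Icc]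
    have : ((q * N : ℤ) + 1 - -(q * N)) = ((2 * q * N + 1 : ℕ) : ℤ) := by push_cast; ring
    rw [this, Int.toNat_natCast]
  have hIf : I.Finite := Set.finite_Icc _ _
  set F : (Core p q × ℤ) × (Core p q × ℤ) → PresentedGroup (rels p q) := fun x =>
    (x.1.1.ev (gA p q) (gT p q) * gA p q ^ x.1.2) *
      (x.2.1.ev (gA p q) (gT p q) * gA p q ^ x.2.2)⁻¹ with hF
  have hsub : ball p q N ⊆ ⋃ i ∈ Finset.range (N + 1),
      F '' ((cores p q i ×ˢ I) ×ˢ (cores p q (N - i) ×ˢ I)) := by
    intro g hg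
    obtain ⟨g1, g2, n, n', h1, h2, h3, h4⟩ := (mem_ball.1 hg).split
    obtain ⟨c1, k1, i1, -, i2, i3⟩ := Core.as_rep g_rel hpq h1
    obtain ⟨c2, k2, j1, -, j2, j3⟩ := Core.as_rep g_rel hpq h2
    have hle := Nat.le_of_dvd (NeZero.pos q) hpq
    have b1 := Core.abs_le_D hle c1 k1
    have b2 := Core.abs_le_D hle c2 k2
    have b3 : (q : ℤ) * c1.D k1 ≤ q * N := by gcongr; omega
    have b4 : (q : ℤ) * c2.D k2 ≤ q * N := by gcongr; omega
    simp only [Set.mem_iUnion]
    refine ⟨n, by simp; omega, ((c1, k1), (c2, k2)), ⟨⟨⟨i1, (c1.mu_le k1).trans i3⟩, ?_⟩,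
      ⟨⟨j1, (c2.mu_le k2).trans (by omega)⟩, ?_⟩⟩, by rw [h4, i2, j2]⟩
    · exact abs_le.1 (b1.trans b3)
    · exact abs_le.1 (b2.trans b4)
  have hfin : ∀ i, ((cores p q i ×ˢ I) ×ˢ (cores p q (N - i) ×ˢ I)).Finite := fun i =>
    ((cores_finite hpq i).prod hIf).prod ((cores_finite hpq _).prod hIf)
  refine le_trans (Set.ncard_le_ncard hsub
    (Set.Finite.biUnion (Finset.finite_toSet _) fun i _ => (hfin i).image F)) ?_
  refine le_trans (Finset.set_ncard_biUnion_le _ _) (Finset.sum_le_sum fun i _ => ?_)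
  refine le_trans (Set.ncard_image_le (hfin i)) ?_
  rw [Set.ncard_prod, Set.ncard_prod, Set.ncard_prod, hIc]

/-- the growth rate is the inverse of the radius of convergence of the series of cores -/
theorem growth_core [NeZero p] [NeZero q] (hpq : p ∣ q) :
    ∃ w : ℝ, 1 ≤ w ∧
      Tendsto (fun n : ℕ => ((ball p q n).ncard : ℝ) ^ (1 / (n : ℝ))) atTop (𝓝 w) ∧
      (∀ n, w ^ n ≤ (ball p q n).ncard) ∧
      (∀ x : ℝ, 0 ≤ x → x * w < 1 → Summable (fun n => ((ball p q n).ncard : ℝ) * x ^ n)) ∧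
      (∀ x : ℝ, 0 ≤ x → x * w < 1 → Summable (fun n => (cnt p q n : ℝ) * x ^ n)) ∧
      (∀ x : ℝ, 0 ≤ x → x ≤ 1 → Summable (fun n => (cnt p q n : ℝ) * x ^ n) → x * w ≤ 1) := by
  obtain ⟨w, h1, h2, h3, h4⟩ := growth_exists (fun n => (ball p q n).ncard) ball_pos ball_submul
  refine ⟨w, h1, h2, h3, h4, fun x hx hxw => ?_, fun x hx hx1 hs => ?_⟩
  · refine Summable.of_nonneg_of_le (fun n => by positivity) (fun n => ?_) (h4 x hx hxw)
    gcongr
    exact cnt_le hpq n
  · set C := ∑' n, (cnt p q n : ℝ) * x ^ n with hC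
    have hC1 : ∀ n, ((cores p q n).ncard : ℝ) * x ^ n ≤ C := by
      intro n
      refine le_trans ?_ (hs.sum_le_tsum (Finset.range (n + 1)) (fun i _ => by positivity))
      have : ((cores p q n).ncard : ℝ) ≤ ∑ i ∈ Finset.range (n + 1), (cnt p q i : ℝ) := by
        exact_mod_cast cores_le n
      refine le_trans (mul_le_mul_of_nonneg_right this (by positivity)) ?_
      rw [Finset.sum_mul]
      refine Finset.sum_le_sum fun i hi => ?_
      have : x ^ n ≤ x ^ i :=
        pow_le_pow_of_le_one hx hx1 (Nat.lt_succ_iff.1 (Finset.mem_range.1 hi))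
      gcongr
    have hC0 : 0 ≤ C := le_trans (by positivity) (hC1 0)
    refine le_one_of_poly (K := 2 * (2 * q + 1) ^ 2 * C ^ 2) (k := 3) fun n hn => ?_
    have hn' : (1 : ℝ) ≤ n := by exact_mod_cast hn
    have h5 : ((ball p q n).ncard : ℝ) ≤ ∑ i ∈ Finset.range (n + 1),
        (((cores p q i).ncard : ℝ) * (2 * q * n + 1)) *
          (((cores p q (n - i)).ncard : ℝ) * (2 * q * n + 1)) := by
      exact_mod_cast ball_le hpq n
    calc (x * w) ^ n = w ^ n * x ^ n := by ring
      _ ≤ ((ball p q n).ncard : ℝ) * x ^ n := by gcongr; exact h3 n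
      _ ≤ (∑ i ∈ Finset.range (n + 1), (((cores p q i).ncard : ℝ) * (2 * q * n + 1)) *
          (((cores p q (n - i)).ncard : ℝ) * (2 * q * n + 1))) * x ^ n := by gcongr
      _ ≤ ∑ i ∈ Finset.range (n + 1), ((2 * q + 1) * n) ^ 2 * C ^ 2 := by
        rw [Finset.sum_mul]
        refine Finset.sum_le_sum fun i hi => ?_
        have hi' : i ≤ n := Nat.lt_succ_iff.1 (Finset.mem_range.1 hi)
        have e : x ^ n = x ^ i * x ^ (n - i) := by rw [← pow_add]; congr 1; omega
        have b1 := hC1 i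
        have b2 := hC1 (n - i)
        have b3 : (2 * q * n + 1 : ℝ) ≤ (2 * q + 1) * n := by nlinarith
        calc _ = (2 * q * n + 1 : ℝ) ^ 2 * ((((cores p q i).ncard : ℝ) * x ^ i) *
              (((cores p q (n - i)).ncard : ℝ) * x ^ (n - i))) := by rw [e]; ring
          _ ≤ ((2 * q + 1) * n) ^ 2 * (C * C) := by gcongr
          _ = _ := by ring
      _ ≤ _ := by
        rw [Finset.sum_const, Finset.card_range, nsmul_eq_mul]
        push_cast
        have : (n + 1 : ℝ) ≤ 2 * n := by linarith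
        calc _ ≤ (2 * n) * (((2 * q + 1) * n) ^ 2 * C ^ 2) := by gcongr
          _ = _ := by ring

end Pool.Agent.MP_e0ec03_al

end MrgPart1

-- ======== part 2: formerly Pool.Agent.MP_e0ec03_al.Profile
section MrgPart2

namespace Pool.Agent.MP_e0ec03_al

/-- infimal convolution -/
noncomputable def conv (f g : ℤ → ℕ) (k : ℤ) : ℕ := ⨅ i : ℤ, (f i + g (k - i))

theorem conv_le (f g : ℤ → ℕ) (k i j : ℤ) (h : i + j = k) : conv f g k ≤ f i + g j := by
  have := ciInf_le' (fun i : ℤ => f i + g (k - i)) i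
  rwa [show k - i = j by omega] at this

theorem conv_ex (f g : ℤ → ℕ) (k : ℤ) : ∃ i j, i + j = k ∧ conv f g k = f i + g j := by
  obtain ⟨i, hi⟩ := ciInf_mem (fun i : ℤ => f i + g (k - i))
  exact ⟨i, k - i, by ring, hi.symm⟩

/-- convex with odd slopes -/
def Cvx (g : ℤ → ℕ) : Prop :=
  (∀ j, 2 * g j ≤ g (j - 1) + g (j + 1)) ∧ ∀ j, ((g j : ℤ) + j - g 0) % 2 = 0

theorem Cvx.slope {g : ℤ → ℕ} (h : Cvx g) (a b : ℤ) (hab : a < b) :
    g (a + 1) + g (b - 1) ≤ g a + g b := by
  obtain ⟨n, rfl⟩ : ∃ n : ℕ, b = a + 1 + n := ⟨(b - a - 1).toNat, by omega⟩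
  clear hab
  induction n with
  | zero => simp; omega
  | succ n ih =>
    have := h.1 (a + 1 + n)
    rw [show a + 1 + ((n + 1 : ℕ) : ℤ) - 1 = a + 1 + n by push_cast; ring,
      show a + 1 + ((n + 1 : ℕ) : ℤ) = a + 1 + n + 1 by push_cast; ring]
    omega

theorem Cvx.conv {f g : ℤ → ℕ} (hf : Cvx f) (hg : Cvx g) : Cvx (conv f g) := by
  refine ⟨fun j => ?_, fun j => ?_⟩
  · obtain ⟨a, b, h1, h2⟩ := conv_ex f g (j - 1)
    obtain ⟨a', b', h3, h4⟩ := conv_ex f g (j + 1)
    by_cases h : a < a'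
    · have i1 := conv_le f g j (a + 1) b (by omega)
      have i2 := conv_le f g j (a' - 1) b' (by omega)
      have := hf.slope a a' h
      omega
    · have i1 := conv_le f g j a (b + 1) (by omega)
      have i2 := conv_le f g j a' (b' - 1) (by omega)
      have := hg.slope b b' (by omega)
      omega
  · obtain ⟨a, b, h1, h2⟩ := conv_ex f g j
    obtain ⟨a', b', h3, h4⟩ := conv_ex f g 0
    have := hf.2 a
    have := hf.2 a'
    have := hg.2 b
    have := hg.2 b'
    omega

theorem Cvx.spread {g : ℤ → ℕ} (h : Cvx g) (j : ℤ) (n : ℕ) :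
    2 * g j ≤ g (j - n) + g (j + n) := by
  induction n with
  | zero => simp; omega
  | succ n ih =>
    have := h.slope (j - (n + 1 : ℕ)) (j + (n + 1 : ℕ)) (by omega)
    rw [show j - ((n + 1 : ℕ) : ℤ) + 1 = j - n by push_cast; ring,
      show j + ((n + 1 : ℕ) : ℤ) - 1 = j + n by push_cast; ring] at this
    omega

theorem Cvx.sec {g : ℤ → ℕ} (h : Cvx g) {m : ℕ} (hm : Odd m) (e : ℤ) :
    Cvx (fun i => g (e + m * i)) := by
  refine ⟨fun j => ?_, fun j => ?_⟩
  · have := h.spread (e + m * j) m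
    rwa [show e + m * j - m = e + m * (j - 1) by ring,
      show e + m * j + m = e + m * (j + 1) by ring] at this
  · obtain ⟨u, rfl⟩ := hm
    have h1 := h.2 (e + (2 * u + 1 : ℕ) * j)
    have h2 := h.2 e
    have : ((2 * u + 1 : ℕ) : ℤ) * j = 2 * (u * j) + j := by push_cast; ring
    simp only [mul_zero, add_zero]
    omega

theorem Cvx.add {g : ℤ → ℕ} (h : Cvx g) (c : ℕ) : Cvx (fun i => c + g i) := by
  refine ⟨fun j => ?_, fun j => ?_⟩
  · have := h.1 j
    simp only
    omega
  · have := h.2 j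
    simp only
    omega

/-- cost of a power of `a` in a given class -/
def psi (p : ℕ) (k u : ℤ) : ℕ := (k + p * u).natAbs

theorem psi_cvx {p : ℕ} (hp : Odd p) (k : ℤ) : Cvx (psi p k) := by
  refine ⟨fun j => ?_, fun j => ?_⟩
  · simp only [psi, mul_sub, mul_add, mul_one]
    omega
  · obtain ⟨u, rfl⟩ := hp
    have : ((2 * u + 1 : ℕ) : ℤ) * j = 2 * (u * j) + j := by push_cast; ring
    simp only [psi, mul_zero, add_zero]
    omega

theorem psi_lip (p : ℕ) (k i j : ℤ) : psi p k (i + j) ≤ psi p k i + psi p 0 j := by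
  simp only [psi, mul_add]
  omega

/-- normalized profile -/
def Nm (f : ℤ → ℕ) : Prop := Cvx f ∧ f 0 = 0

theorem Nm.grow {f : ℤ → ℕ} (h : Nm f) (j : ℤ) : j.natAbs ≤ f j := by
  have h0 := h.2
  induction j using Int.induction_on with
  | zero => simp
  | succ i ih =>
    have h1 := h.1.slope 0 (i + 1) (by omega)
    have h2 := h.1.2 1
    simp only [zero_add, add_sub_cancel_right] at h1
    omega
  | pred i ih =>
    have h1 := h.1.slope (-i - 1) 0 (by omega)
    have h2 := h.1.2 (-1)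
    simp only [zero_sub, sub_add_cancel] at h1
    omega

theorem Nm.conv {f g : ℤ → ℕ} (hf : Nm f) (hg : Nm g) : Nm (conv f g) := by
  refine ⟨hf.1.conv hg.1, ?_⟩
  have := conv_le f g 0 0 0 rfl
  have := hf.2
  have := hg.2
  omega

theorem psi_nm {p : ℕ} (hp : Odd p) : Nm (psi p 0) := ⟨psi_cvx hp 0, by simp [psi]⟩

/-- `g` has minimum `μ` at `s` and normalized profile `f` -/
def Nf (g : ℤ → ℕ) (μ : ℕ) (s : ℤ) (f : ℤ → ℕ) : Prop := Nm f ∧ ∀ j, g (s + j) = μ + f j

theorem Cvx.nf_of_min {g : ℤ → ℕ} (h : Cvx g) (s : ℤ) (hs : ∀ j, g s ≤ g j) :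
    Nf g (g s) s (fun j => g (s + j) - g s) := by
  refine ⟨⟨⟨fun j => ?_, fun j => ?_⟩, by simp⟩, fun j => ?_⟩
  · have h1 := h.1 (s + j)
    have := hs (s + j)
    have := hs (s + (j - 1))
    have := hs (s + (j + 1))
    rw [add_sub_assoc, add_assoc] at h1
    simp only
    omega
  · have := h.2 (s + j)
    have := h.2 s
    have := hs (s + j)
    simp only [add_zero]
    omega
  · have := hs (s + j)
    simp only
    omega

theorem Cvx.ex_nf {g : ℤ → ℕ} (h : Cvx g) : ∃ v : ℕ × ℤ × (ℤ → ℕ), Nf g v.1 v.2.1 v.2.2 := by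
  obtain ⟨s, hs⟩ := ciInf_mem g
  exact ⟨(_, s, _), h.nf_of_min s fun j => hs ▸ ciInf_le' g j⟩

theorem Nf.unique {g : ℤ → ℕ} {μ μ' : ℕ} {s s' : ℤ} {f f' : ℤ → ℕ} (h : Nf g μ s f)
    (h' : Nf g μ' s' f') : μ = μ' ∧ s = s' ∧ f = f' := by
  have h1 := h.2 (s' - s)
  have h2 := h'.2 (s - s')
  have h3 := h.2 0
  have h4 := h'.2 0
  have h5 := h.1.grow (s' - s)
  have h6 := h.1.2
  have h7 := h'.1.2
  simp only [add_sub_cancel, add_zero] at h1 h2 h3 h4
  have e : s = s' := by omega
  have e' : μ = μ' := by omega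
  subst e e'
  refine ⟨rfl, rfl, funext fun j => ?_⟩
  have := h.2 j
  have := h'.2 j
  omega

theorem Nf.conv {g g' : ℤ → ℕ} {μ μ' : ℕ} {s s' : ℤ} {f f' : ℤ → ℕ} (h : Nf g μ s f)
    (h' : Nf g' μ' s' f') : Nf (conv g g') (μ + μ') (s + s') (conv f f') := by
  refine ⟨h.1.conv h'.1, fun j => le_antisymm ?_ ?_⟩
  · obtain ⟨a, b, h1, h2⟩ := conv_ex f f' j
    have := conv_le g g' (s + s' + j) (s + a) (s' + b) (by omega)
    rw [h.2, h'.2] at this
    omega
  · obtain ⟨a, b, h1, h2⟩ := conv_ex g g' (s + s' + j)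
    have := conv_le f f' j (a - s) (b - s') (by omega)
    have i1 := h.2 (a - s)
    have i2 := h'.2 (b - s')
    simp only [add_sub_cancel] at i1 i2
    omega

theorem Nm.nf {f : ℤ → ℕ} (h : Nm f) : Nf f 0 0 f := ⟨h, by simp⟩

theorem Nf.add {g : ℤ → ℕ} {μ : ℕ} {s : ℤ} {f : ℤ → ℕ} (h : Nf g μ s f) (c : ℕ) :
    Nf (fun i => c + g i) (c + μ) s f :=
  ⟨h.1, fun j => by simp only [h.2]; omega⟩

/-- `f'` is at most `f` wherever `f` is small -/
def Le (K : ℕ) (f f' : ℤ → ℕ) : Prop := ∀ j, 2 * f j < K + j.natAbs → f' j ≤ f j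

theorem Le.refl (K : ℕ) (f : ℤ → ℕ) : Le K f f := fun _ _ => le_rfl

theorem Le.conv {K : ℕ} {f f' g g' : ℤ → ℕ} (h : Le K f f') (h' : Le K g g') (hf : Nm f)
    (hg : Nm g) : Le K (conv f g) (conv f' g') := by
  intro j hj
  obtain ⟨a, b, h1, h2⟩ := conv_ex f g j
  have i1 := hf.grow a
  have i2 := hg.grow b
  have i3 := h a (by omega)
  have i4 := h' b (by omega)
  have := conv_le f' g' j a b h1
  omega

theorem sec_min_le {p m : ℕ} (hm : 2 ≤ m) {h : ℤ → ℕ} (hb : ∀ j, h j ≤ psi p 0 j) {e : ℤ} {c : ℕ}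
    {s : ℤ} {σ : ℤ → ℕ} (h1 : Nf (fun i => h (e + m * i)) c s σ) : c ≤ p * m := by
  have i1 := h1.2 (-(e / m) - s)
  have i2 := hb (e % m)
  have i3 := Int.emod_add_mul_ediv e m
  have i4 := Int.emod_nonneg e (show (m : ℤ) ≠ 0 by omega)
  have i5 := Int.emod_lt_of_pos e (show (0 : ℤ) < m by omega)
  simp only [add_sub_cancel] at i1
  rw [show e + m * -(e / m) = e % m by linarith] at i1
  have i6 : psi p 0 (e % m) ≤ p * m := by
    simp only [psi, zero_add, Int.natAbs_mul, Int.natAbs_natCast]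
    exact Nat.mul_le_mul_left _ (by omega)
  omega

theorem sec_le {p m K : ℕ} (hp : 1 ≤ p) (hm : 2 ≤ m) (hK : 8 * p * (p * m) ≤ K) {h h' : ℤ → ℕ}
    (hn : Nm h) (hb : ∀ j, h j ≤ psi p 0 j) (hb' : ∀ j, h' j ≤ psi p 0 j) (hl : Le K h h')
    (hl' : Le K h' h) {e : ℤ} {c c' : ℕ} {s s' : ℤ} {σ σ' : ℤ → ℕ}
    (h1 : Nf (fun i => h (e + m * i)) c s σ) (h2 : Nf (fun i => h' (e + m * i)) c' s' σ') :
    c = c' ∧ Le K (conv σ (psi p 0)) (conv σ' (psi p 0)) := by
  have b1 := sec_min_le hm hb h1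
  have b2 := sec_min_le hm hb' h2
  have hK' : 8 * (p * m) ≤ K := by nlinarith
  have hpm : 2 ≤ p * m := by nlinarith
  have i1 := h1.2 0
  have i2 := h2.2 0
  have i3 := h1.1.2
  have i4 := h2.1.2
  simp only [add_zero] at i1 i2
  have i5 := hl (e + m * s) (by omega)
  have i6 := hl' (e + m * s') (by omega)
  have i7 := h1.2 (s' - s)
  have i8 := h2.2 (s - s')
  simp only [add_sub_cancel] at i7 i8
  have i9 := h2.1.grow (s - s')
  have e1 : c = c' := by omega
  have e2 : s = s' := by omega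
  subst e1 e2
  refine ⟨rfl, fun j hj => ?_⟩
  obtain ⟨a, b, j1, j2⟩ := conv_ex σ (psi p 0) j
  by_cases hc : psi p 0 a ≤ σ a
  · have := conv_le σ' (psi p 0) j 0 j (by simp)
    have := psi_lip p 0 a b
    rw [j1] at this
    omega
  · have j3 := conv_le σ' (psi p 0) j a b j1
    have j4 := h1.2 a
    have j5 := h2.2 a
    simp only at j4 j5
    have j6 : b.natAbs ≤ psi p 0 b := by
      simp only [psi, zero_add, Int.natAbs_mul, Int.natAbs_natCast]
      exact Nat.le_mul_of_pos_left _ hp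
    have j7 := hn.grow (e + m * s)
    have j8 := hl (e + m * (s + a)) (by
      by_cases ha : 3 * (p * m) ≤ a.natAbs
      · have : 2 * a.natAbs ≤ (m * a : ℤ).natAbs := by
          rw [Int.natAbs_mul, Int.natAbs_natCast]
          exact Nat.mul_le_mul_right _ hm
        rw [mul_add] at j4 ⊢
        omega
      · have : psi p 0 a ≤ p * (3 * (p * m)) := by
          simp only [psi, zero_add, Int.natAbs_mul, Int.natAbs_natCast]
          exact Nat.mul_le_mul_left _ (by omega)
        have : p * (3 * (p * m)) * 2 + 2 * (p * m) ≤ K := by nlinarith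
        omega)
    omega

/-- the finite amount of data kept of a profile -/
def cap (K : ℕ) (f : ℤ → ℕ) : Fin (2 * K + 1) → Fin (K + 1) := fun i =>
  ⟨min (2 * f ((i : ℕ) - K) - (((i : ℕ) : ℤ) - K).natAbs) K, by omega⟩

theorem le_of_cap {K : ℕ} {f f' : ℤ → ℕ} (hf : Nm f) (h : cap K f = cap K f') : Le K f f' := by
  intro j hj
  have h1 := hf.grow j
  have h2 := congrArg Fin.val (congrFun h ⟨(j + K).toNat, by omega⟩)
  simp only [cap] at h2
  rw [show (((j + K).toNat : ℕ) : ℤ) - K = j by omega] at h2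
  omega

theorem cap_of_le {K : ℕ} {f f' : ℤ → ℕ} (h : Le K f f') (h' : Le K f' f) :
    cap K f = cap K f' := by
  ext i
  have := h ((i : ℕ) - K)
  have := h' ((i : ℕ) - K)
  simp only [cap]
  omega

namespace Core

variable {p q : ℕ}

/-- the distance function on multiples of `p` -/
noncomputable def P (c : Core p q) (j : ℤ) : ℕ := D c (p * j)

theorem D_eq (c : Core p q) (k i : ℤ) : D c (k + p * i) = conv (P c) (psi p k) i := by
  refine le_antisymm ?_ ?_
  · obtain ⟨a, b, h1, h2⟩ := conv_ex (P c) (psi p k) i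
    have := D_lip c (p * a) (k + p * b)
    rw [h2, ← h1, show k + p * (a + b) = p * a + (k + p * b) by ring]
    exact this
  · cases c with
    | empty =>
      have := conv_le (P (empty : Core p q)) (psi p k) i 0 i (by simp)
      simpa [P, D, psi] using this
    | up y d =>
      obtain ⟨j, hj⟩ := D_up_ex y d (k + p * i)
      have h1 := conv_le (P (up y d)) (psi p k) i j (i - j) (by simp)
      have h2 := D_up_le y d (p * j) j
      simp only [P, psi, mul_sub] at h1
      rw [← add_sub_assoc] at h1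
      omega
    | node x r y d =>
      obtain ⟨j, j', hj⟩ := D_node_ex x r y d (k + p * i)
      have h1 := conv_le (P (node x r y d)) (psi p k) i (j + j') (i - (j + j')) (by simp)
      have h2 := D_node_le x r y d (p * (j + j')) j j'
      simp only [P, psi, mul_sub] at h1
      rw [← add_sub_assoc] at h1
      omega

theorem P_empty : P (empty : Core p q) = psi p 0 := by
  ext j; simp [P, D, psi]

theorem P_up (y : Core p q) (d : ZMod q) :
    P (up y d) = fun j => 1 + conv (fun i => D y (d.val + q * i)) (psi p 0) j := by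
  ext j
  refine le_antisymm ?_ ?_
  · obtain ⟨a, b, h1, h2⟩ := conv_ex (fun i => D y (d.val + q * i)) (psi p 0) j
    have := D_up_le y d (p * j) a
    rw [h2, P]
    rw [show (p : ℤ) * j - p * a = 0 + p * b by rw [← h1]; ring] at this
    simp only [psi]
    omega
  · obtain ⟨a, ha⟩ := D_up_ex y d (p * j)
    have := conv_le (fun i => D y (d.val + q * i)) (psi p 0) j a (j - a) (by simp)
    simp only [psi, zero_add, mul_sub] at this
    rw [P, ha]
    omega

theorem P_node (x : Core p q) (r : ZMod p) (y : Core p q) (d : ZMod q) :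
    P (node x r y d) = fun j => 2 + conv (conv (P x) (psi p r.val))
      (conv (fun i => D y (d.val + q * i)) (psi p 0)) j := by
  ext j
  refine le_antisymm ?_ ?_
  · obtain ⟨a, b, h1, h2⟩ := conv_ex (conv (P x) (psi p r.val))
      (conv (fun i => D y (d.val + q * i)) (psi p 0)) j
    obtain ⟨a', b', h3, h4⟩ := conv_ex (fun i => D y (d.val + q * i)) (psi p 0) b
    have := D_node_le x r y d (p * j) a a'
    rw [h2, h4, P, ← D_eq]
    rw [show (p : ℤ) * j - p * (a + a') = 0 + p * b' by rw [← h1, ← h3]; ring] at this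
    simp only [psi]
    omega
  · obtain ⟨a, a', ha⟩ := D_node_ex x r y d (p * j)
    have h1 := conv_le (conv (P x) (psi p r.val))
      (conv (fun i => D y (d.val + q * i)) (psi p 0)) j a (j - a) (by simp)
    have h2 := conv_le (fun i => D y (d.val + q * i)) (psi p 0) (j - a) a' (j - (a + a'))
      (by ring)
    rw [← D_eq] at h1
    simp only [psi, zero_add, mul_sub] at h2
    rw [P, ha]
    omega

theorem mu_eq {c : Core p q} {μ : ℕ} {s : ℤ} {f : ℤ → ℕ} (h : Nf (P c) μ s f) : mu c = μ := by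
  refine le_antisymm ?_ ?_
  · have h1 := mu_le c (p * s)
    have h2 := h.2 0
    have h3 := h.1.2
    simp only [add_zero, P] at h2
    omega
  · obtain ⟨k, hk⟩ := mu_ex c
    have h1 := D_eq c k 0
    obtain ⟨a, b, -, h2⟩ := conv_ex (P c) (psi p k) 0
    have h3 := h.2 (a - s)
    simp only [add_sub_cancel, mul_zero, add_zero] at h1 h3
    omega

end Core

end Pool.Agent.MP_e0ec03_al

end MrgPart2

-- ======== part 3: formerly Pool.Agent.MP_e0ec03_al.Algebraic
section MrgPart3

namespace Pool.Agent.MP_e0ec03_al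

open Polynomial
open scoped RatFunc

theorem alg_of_quadratic {K L : Type} [Field K] [Field L] [Algebra K L] {ι : Type} [Fintype ι]
    [DecidableEq ι] (x : ι → L) (c : ι → K) (b : ι → ι → K) (w : ι → ι → ι → K)
    (h : ∀ i, x i = algebraMap K L (c i) + ∑ j, algebraMap K L (b i j) * x j +
      ∑ j, ∑ k, algebraMap K L (w i j k) * (x j * x k))
    (hdet : (1 - Matrix.of fun i j => algebraMap K L (b i j) +
      ∑ k, (algebraMap K L (w i j k) + algebraMap K L (w i k j)) * x k).det ≠ 0) (i : ι) :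
    IsAlgebraic K (x i) := by
  set E := IntermediateField.adjoin K (Set.range x) with hE
  have hfin : Algebra.EssFiniteType K E :=
    IntermediateField.essFiniteType_iff.2 (IntermediateField.fg_adjoin_of_finite
      (Set.finite_range x))
  let x' : ι → E := fun i => ⟨x i, IntermediateField.subset_adjoin _ _ ⟨i, rfl⟩⟩
  have h' : ∀ i, x' i = algebraMap K E (c i) + ∑ j, algebraMap K E (b i j) * x' j +
      ∑ j, ∑ k, algebraMap K E (w i j k) * (x' j * x' k) := by
    intro i
    apply Subtype.ext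
    push_cast
    exact h i
  set M : Matrix ι ι E := 1 - Matrix.of fun i j => algebraMap K E (b i j) +
      ∑ k, (algebraMap K E (w i j k) + algebraMap K E (w i k j)) * x' k with hM
  have hdet' : M.det ≠ 0 := by
    intro h0
    apply hdet
    have := congrArg (algebraMap E L) h0
    rw [RingHom.map_det, map_zero] at this
    rw [← this]
    congr 1
    ext i j
    simp [hM, Matrix.one_apply, x', apply_ite]
  set D := KaehlerDifferential.D K E with hD
  have h1 : ∀ i, ∑ j, M i j • D (x' j) = 0 := by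
    intro i
    have h2 := congrArg D (h' i)
    simp only [map_add, map_sum, Derivation.leibniz, Derivation.map_algebraMap, smul_zero,
      add_zero, zero_add, smul_add, smul_smul] at h2
    simp only [hM, Matrix.sub_apply, Matrix.of_apply, sub_smul, add_smul, Finset.sum_sub_distrib,
      Matrix.one_apply, ite_smul, one_smul, zero_smul, Finset.sum_ite_eq, Finset.mem_univ, if_true,
      Finset.sum_add_distrib, Finset.sum_smul, add_mul]
    rw [sub_eq_zero]
    conv_lhs => rw [h2]
    simp only [Finset.sum_add_distrib]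
    congr 1
    rw [add_comm]
    congr 1
    exact Finset.sum_comm
  have h2 : ∀ i, D (x' i) = 0 := by
    intro i
    have h3 : ∑ k, M⁻¹ i k • ∑ j, M k j • D (x' j) = 0 := by simp [h1]
    simp only [Finset.smul_sum, smul_smul] at h3
    rw [Finset.sum_comm] at h3
    simp only [← Finset.sum_smul, ← Matrix.mul_apply,
      Matrix.nonsing_inv_mul M (isUnit_iff_ne_zero.2 hdet')] at h3
    simpa [Matrix.one_apply] using h3
  have h3 : ∀ (y : L) (hy : y ∈ E), D ⟨y, hy⟩ = 0 := by
    intro y hy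
    induction hy using IntermediateField.adjoin_induction with
    | mem y hy =>
      obtain ⟨i, rfl⟩ := hy
      exact h2 i
    | algebraMap k => exact D.map_algebraMap k
    | add y z hy hz ihy ihz =>
      have := D.map_add ⟨y, hy⟩ ⟨z, hz⟩
      rw [ihy, ihz, add_zero] at this
      exact this
    | inv y hy ihy =>
      have := D.leibniz_inv ⟨y, hy⟩
      rw [ihy, smul_zero] at this
      exact this
    | mul y z hy hz ihy ihz =>
      have := D.leibniz ⟨y, hy⟩ ⟨z, hz⟩
      rw [ihy, ihz, smul_zero, smul_zero, add_zero] at this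
      exact this
  have h4 : Subsingleton (KaehlerDifferential K E) := by
    have h5 := KaehlerDifferential.span_range_derivation K E
    have h6 : Submodule.span E (Set.range D) = ⊥ := by
      rw [Submodule.span_eq_bot]
      rintro _ ⟨⟨y, hy⟩, rfl⟩
      exact h3 y hy
    rw [h6] at h5
    exact (Submodule.subsingleton_iff E).1 (subsingleton_of_bot_eq_top h5)
  have h5 : Algebra.FormallyUnramified K E := ⟨h4⟩
  have h6 := Algebra.FormallyUnramified.isSeparable K E
  have h7 : IsAlgebraic K (x' i) := Algebra.IsAlgebraic.isAlgebraic _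
  exact h7.algebraMap (A := L)

theorem series_alg {ι : Type} [Fintype ι] [DecidableEq ι] (x : ι → PowerSeries ℚ) (c : ι → ℚ[X])
    (b : ι → ι → ℚ[X]) (w : ι → ι → ι → ℚ[X])
    (h : ∀ i, x i = (c i : PowerSeries ℚ) + ∑ j, (b i j : PowerSeries ℚ) * x j +
      ∑ j, ∑ k, (w i j k : PowerSeries ℚ) * (x j * x k))
    (hb : ∀ i j, (b i j).coeff 0 = 0) (hw : ∀ i j k, (w i j k).coeff 0 = 0) (i : ι) :
    IsAlgebraic ℚ[X] (x i) := by
  have e : ∀ c : ℚ[X], algebraMap (RatFunc ℚ) (LaurentSeries ℚ) (algebraMap ℚ[X] (RatFunc ℚ) c) =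
      algebraMap (PowerSeries ℚ) (LaurentSeries ℚ) (c : PowerSeries ℚ) := by
    intro c
    rw [← IsScalarTower.algebraMap_apply]
    rfl
  have hinj : Function.Injective (algebraMap (PowerSeries ℚ) (LaurentSeries ℚ)) :=
    IsFractionRing.injective _ _
  have h1 := alg_of_quadratic (K := RatFunc ℚ) (L := LaurentSeries ℚ)
    (fun i => algebraMap (PowerSeries ℚ) (LaurentSeries ℚ) (x i))
    (fun i => algebraMap _ _ (c i)) (fun i j => algebraMap _ _ (b i j))
    (fun i j k => algebraMap _ _ (w i j k)) (by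
      intro i
      simp only [e]
      conv_lhs => rw [h i]
      simp only [map_add, map_sum, map_mul]) (by
      simp only [e]
      set M : Matrix ι ι (PowerSeries ℚ) := 1 - Matrix.of fun i j => (b i j : PowerSeries ℚ) +
        ∑ k, ((w i j k : PowerSeries ℚ) + (w i k j : PowerSeries ℚ)) * x k with hM
      have h2 : PowerSeries.constantCoeff M.det = 1 := by
        rw [RingHom.map_det]
        have : (PowerSeries.constantCoeff (R := ℚ)).mapMatrix M = 1 := by
          ext i j
          simp [hM, Matrix.one_apply, hb, hw, apply_ite]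
        rw [this, Matrix.det_one]
      have h3 : M.det ≠ 0 := by
        intro h0
        rw [h0] at h2
        simp at h2
      intro h0
      apply h3
      apply hinj
      rw [RingHom.map_det, map_zero, ← h0]
      congr 1
      ext i j : 2
      simp only [hM, RingHom.mapMatrix_apply, Matrix.map_apply, Matrix.sub_apply, Matrix.of_apply,
        map_sub, map_add, map_sum, map_mul, Matrix.one_apply]
      split_ifs <;> simp) i
  have h2 := (IsFractionRing.isAlgebraic_iff ℚ[X] (RatFunc ℚ) (LaurentSeries ℚ)).2 h1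
  obtain ⟨P, hP, hP'⟩ := h2
  refine ⟨P, hP, hinj ?_⟩
  rw [map_zero, ← hP', aeval_def, aeval_def, hom_eval₂]
  rfl

theorem exists_bezout {F : PowerSeries ℚ} (hF : IsAlgebraic ℚ[X] F) :
    ∃ (P A B : ℚ[X][X]) (Δ : ℚ[X]), P ≠ 0 ∧ Δ ≠ 0 ∧ aeval F P = 0 ∧
      A * P + B * derivative P = C Δ := by
  have hinj : Function.Injective (algebraMap (PowerSeries ℚ) (LaurentSeries ℚ)) :=
    IsFractionRing.injective _ _
  set G := algebraMap (PowerSeries ℚ) (LaurentSeries ℚ) F with hG
  have e : ∀ P : ℚ[X][X], algebraMap (PowerSeries ℚ) (LaurentSeries ℚ) (aeval F P) =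
      aeval G P := by
    intro P
    rw [aeval_def, aeval_def, hom_eval₂]
    rfl
  have h1 : IsAlgebraic ℚ[X] G := by
    obtain ⟨P, hP, hP'⟩ := hF
    exact ⟨P, hP, by rw [← e, hP', map_zero]⟩
  have h2 := ((IsFractionRing.isAlgebraic_iff ℚ[X] (RatFunc ℚ) (LaurentSeries ℚ)).1 h1).isIntegral
  set μ := minpoly (RatFunc ℚ) G with hμ
  obtain ⟨A, B, hAB⟩ : IsCoprime μ (derivative μ) := (minpoly.irreducible h2).separable
  obtain ⟨s, hs, hs'⟩ := IsLocalization.integerNormalization_spec (nonZeroDivisors ℚ[X]) μ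
  obtain ⟨a, ha, ha'⟩ := IsLocalization.integerNormalization_spec (nonZeroDivisors ℚ[X]) A
  obtain ⟨b, hb, hb'⟩ := IsLocalization.integerNormalization_spec (nonZeroDivisors ℚ[X]) B
  refine ⟨IsLocalization.integerNormalization (nonZeroDivisors ℚ[X]) μ,
    C b * IsLocalization.integerNormalization (nonZeroDivisors ℚ[X]) A,
    C a * IsLocalization.integerNormalization (nonZeroDivisors ℚ[X]) B, a * b * s, ?_, ?_, ?_, ?_⟩
  · rw [Ne, IsFractionRing.integerNormalization_eq_zero_iff]
    exact minpoly.ne_zero h2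
  · exact mul_ne_zero (mul_ne_zero (nonZeroDivisors.ne_zero ha) (nonZeroDivisors.ne_zero hb))
      (nonZeroDivisors.ne_zero hs)
  · apply hinj
    rw [e, map_zero]
    exact IsLocalization.integerNormalization_aeval_eq_zero _ _ (minpoly.aeval _ _)
  · apply map_injective (algebraMap ℚ[X] (RatFunc ℚ)) (IsFractionRing.injective _ _)
    simp only [Polynomial.map_add, Polynomial.map_mul, ← derivative_map, hs', ha', hb', map_C,
      map_mul, Algebra.smul_def, Polynomial.algebraMap_apply]
    simp only [derivative_mul, derivative_C, zero_mul, zero_add]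
    linear_combination (C (algebraMap ℚ[X] (RatFunc ℚ) a) * C (algebraMap ℚ[X] (RatFunc ℚ) b) *
      C (algebraMap ℚ[X] (RatFunc ℚ) s)) * hAB

theorem radius_algebraic (a : ℕ → ℕ) {R : ℝ} (hR : 0 < R)
    (hs : ∀ x : ℝ, 0 ≤ x → x < R → Summable (fun n => (a n : ℝ) * x ^ n))
    (hns : ∀ x : ℝ, R < x → ¬ Summable (fun n => (a n : ℝ) * x ^ n))
    (hF : IsAlgebraic ℚ[X] (PowerSeries.mk fun n => (a n : ℚ))) : IsAlgebraic ℚ R := by
  obtain ⟨P, A, B, Δ, h1, h2, h3, h4⟩ := exists_bezout hF
  rcases radius_root a hR hs hns P A B Δ h3 h4 with h | h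
  · exact ⟨_, leadingCoeff_ne_zero.2 h1, h⟩
  · exact ⟨_, h2, h⟩

end Pool.Agent.MP_e0ec03_al

end MrgPart3

-- ======== part 4: formerly Pool.Agent.MP_e0ec03_al.Automaton
section MrgPart4

namespace Pool.Agent.MP_e0ec03_al

open Polynomial

section

variable {Ω L1 L2 T : Type} [Fintype L1] [Fintype L2] [Fintype T] [DecidableEq T]

theorem finite_cost (e : (Unit ⊕ (Ω × L1) ⊕ (Ω × Ω × L2)) ≃ Ω) (cost : Ω → ℕ)
    (h1 : ∀ y l, cost y < cost (e (Sum.inr (Sum.inl (y, l)))))
    (h2 : ∀ x y l, cost x + cost y < cost (e (Sum.inr (Sum.inr (x, y, l))))) (n : ℕ) :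
    {o | cost o < n}.Finite := by
  induction n with
  | zero => simp
  | succ n ih =>
    have i1 := (ih.prod (Set.finite_univ (α := L1))).image (fun v => e (Sum.inr (Sum.inl v)))
    have i2 := (ih.prod (ih.prod (Set.finite_univ (α := L2)))).image
      (fun v => e (Sum.inr (Sum.inr v)))
    refine ((i1.union i2).insert (e (Sum.inl ()))).subset fun o ho => ?_
    obtain ⟨v, rfl⟩ := e.surjective o
    have ho' : cost (e v) < n + 1 := ho
    rcases v with v | ⟨y, l⟩ | ⟨x, y, l⟩
    · left; rfl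
    · right; left
      have := h1 y l
      exact ⟨(y, l), ⟨(by omega : cost y < n), trivial⟩, rfl⟩
    · right; right
      have := h2 x y l
      exact ⟨(x, y, l), ⟨(by omega : cost x < n), (by omega : cost y < n), trivial⟩, rfl⟩

theorem automaton_alg (e : (Unit ⊕ (Ω × L1) ⊕ (Ω × Ω × L2)) ≃ Ω) (ty : Ω → T) (cost : Ω → ℕ)
    (δ1 : T → L1 → T) (w1 : T → L1 → ℕ) (δ2 : T → T → L2 → T) (w2 : T → T → L2 → ℕ)
    (h1 : ∀ y l, ty (e (Sum.inr (Sum.inl (y, l)))) = δ1 (ty y) l ∧
      cost (e (Sum.inr (Sum.inl (y, l)))) = cost y + (w1 (ty y) l + 1))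
    (h2 : ∀ x y l, ty (e (Sum.inr (Sum.inr (x, y, l)))) = δ2 (ty x) (ty y) l ∧
      cost (e (Sum.inr (Sum.inr (x, y, l)))) = cost x + cost y + (w2 (ty x) (ty y) l + 1))
    (τ : T) :
    IsAlgebraic ℚ[X] (PowerSeries.mk fun n => (({o | ty o = τ ∧ cost o = n}.ncard : ℕ) : ℚ)) := by
  classical
  have hfin := finite_cost e cost (fun y l => by rw [(h1 y l).2]; omega)
    (fun x y l => by rw [(h2 x y l).2]; omega)
  set S : ℕ → Finset Ω := fun n => (hfin (n + 1)).toFinset with hS
  have hSm : ∀ n o, o ∈ S n ↔ cost o ≤ n := by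
    intro n o
    simp [hS]
  set a : T → ℕ → ℚ := fun τ n => (({o | ty o = τ ∧ cost o = n}.ncard : ℕ) : ℚ) with ha
  have haS : ∀ τ n N, n ≤ N → a τ n = ∑ o ∈ S N, if ty o = τ ∧ cost o = n then 1 else 0 := by
    intro τ n N hn
    rw [Finset.sum_boole, ha]
    simp only
    congr 1
    rw [← Set.ncard_coe_finset]
    congr 1
    ext o
    simp only [Set.mem_ofPred_eq, Finset.coe_filter, hSm]
    constructor
    · rintro ⟨i1, i2⟩
      exact ⟨by omega, i1, i2⟩
    · exact fun h => h.2
  have key : ∀ (N : ℕ) (g : T → ℕ → ℚ), (∀ τ n, N < n → g τ n = 0) →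
      ∑ o ∈ S N, g (ty o) (cost o) = ∑ τ, ∑ n ∈ Finset.range (N + 1), g τ n * a τ n := by
    intro N g _
    have : ∀ τ, ∀ n ∈ Finset.range (N + 1), g τ n * a τ n =
        ∑ o ∈ S N, if ty o = τ ∧ cost o = n then g τ n else 0 := by
      intro τ n hn
      rw [haS τ n N (by simpa [Nat.lt_succ_iff] using hn), Finset.mul_sum]
      simp
    rw [Finset.sum_congr rfl fun τ _ => Finset.sum_congr rfl (this τ)]
    symm
    rw [Finset.sum_congr rfl fun τ _ => Finset.sum_comm, Finset.sum_comm]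
    refine Finset.sum_congr rfl fun o ho => ?_
    have := (hSm N o).1 ho
    simp [ite_and, this]
  refine series_alg (fun τ => PowerSeries.mk (a τ))
    (fun τ => if ty (e (Sum.inl ())) = τ then X ^ cost (e (Sum.inl ())) else 0)
    (fun τ σ => ∑ l, if δ1 σ l = τ then X ^ (w1 σ l + 1) else 0)
    (fun τ σ ρ => ∑ l, if δ2 σ ρ l = τ then X ^ (w2 σ ρ l + 1) else 0) ?_ ?_ ?_ τ
  · intro τ
    ext N
    rw [PowerSeries.coeff_mk, haS τ N N le_rfl]
    have s1 : (∑ o ∈ S N, if ty o = τ ∧ cost o = N then (1 : ℚ) else 0) =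
        ∑ v ∈ (Finset.univ : Finset Unit).disjSum ((S N ×ˢ (Finset.univ : Finset L1)).disjSum
          (S N ×ˢ S N ×ˢ (Finset.univ : Finset L2))),
          if ty (e v) = τ ∧ cost (e v) = N then (1 : ℚ) else 0 := by
      symm
      refine Finset.sum_bij_ne_zero (fun v _ _ => e v) ?_ ?_ ?_ ?_
      · intro v _ hv
        rw [hSm]
        by_contra h
        rw [if_neg (fun h' => h h'.2.le)] at hv
        exact hv rfl
      · intro v _ _ v' _ _ h
        exact e.injective h
      · intro o ho ho'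
        obtain ⟨v, rfl⟩ := e.surjective o
        refine ⟨v, ?_, ho', rfl⟩
        rw [hSm] at ho
        rcases v with v | ⟨y, l⟩ | ⟨x, y, l⟩
        · simp
        · have := (h1 y l).2
          simp [hSm]; omega
        · have := (h2 x y l).2
          simp [hSm]; omega
      · intro v _ _
        rfl
    rw [s1, Finset.sum_disjSum, Finset.sum_disjSum, map_add, map_add, add_assoc]
    congr 1
    · simp only [Finset.univ_unique, Finset.sum_singleton, Polynomial.coeff_coe]
      by_cases h : ty (e (Sum.inl ())) = τ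
      · simp [h, coeff_X_pow, eq_comm]
      · simp [h]
    congr 1
    · rw [Finset.sum_product]
      simp only [fun y l => (h1 y l).1, fun y l => (h1 y l).2]
      rw [key N (fun σ n => ∑ l, if δ1 σ l = τ ∧ n + (w1 σ l + 1) = N then 1 else 0)
        (fun σ n hn => Finset.sum_eq_zero fun l _ => if_neg (by omega)), map_sum]
      refine Finset.sum_congr rfl fun σ _ => ?_
      rw [mul_comm, PowerSeries.coeff_mul, Finset.Nat.sum_antidiagonal_eq_sum_range_succ_mk]
      refine Finset.sum_congr rfl fun n hn => ?_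
      have hn' : n ≤ N := by simpa [Nat.lt_succ_iff] using hn
      rw [mul_comm, PowerSeries.coeff_mk, Polynomial.coeff_coe, finsetSum_coeff]
      congr 1
      refine Finset.sum_congr rfl fun l _ => ?_
      by_cases h : δ1 σ l = τ
      · simp only [h, true_and, if_true, coeff_X_pow]
        congr 1
        apply propext
        omega
      · simp [h]
    · rw [Finset.sum_product]
      simp only [Finset.sum_product, fun x y l => (h2 x y l).1, fun x y l => (h2 x y l).2]
      have s2 : ∀ x, (∑ y ∈ S N, ∑ l, if δ2 (ty x) (ty y) l = τ ∧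
          cost x + cost y + (w2 (ty x) (ty y) l + 1) = N then (1 : ℚ) else 0) =
          ∑ ρ, ∑ n ∈ Finset.range (N + 1), (∑ l, if δ2 (ty x) ρ l = τ ∧
            cost x + n + (w2 (ty x) ρ l + 1) = N then (1 : ℚ) else 0) * a ρ n := fun x =>
        key N (fun ρ n => ∑ l, if δ2 (ty x) ρ l = τ ∧
            cost x + n + (w2 (ty x) ρ l + 1) = N then (1 : ℚ) else 0)
          (fun σ n hn => Finset.sum_eq_zero fun l _ => if_neg (by omega))
      simp only [s2]
      rw [key N (fun σ m => ∑ ρ, ∑ n ∈ Finset.range (N + 1), (∑ l, if δ2 σ ρ l = τ ∧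
            m + n + (w2 σ ρ l + 1) = N then (1 : ℚ) else 0) * a ρ n)
          (fun σ m hm => Finset.sum_eq_zero fun ρ _ => Finset.sum_eq_zero fun n _ => by
            rw [Finset.sum_eq_zero fun l _ => if_neg (by omega), zero_mul]), map_sum]
      refine Finset.sum_congr rfl fun σ _ => ?_
      simp only [Finset.sum_mul]
      rw [Finset.sum_comm, map_sum]
      refine Finset.sum_congr rfl fun ρ _ => ?_
      have s3 : ∀ f : L2 → ℚ[X], ((∑ l, f l : ℚ[X]) : PowerSeries ℚ) =
          ∑ l, (f l : PowerSeries ℚ) := fun f => map_sum (Polynomial.coeToPowerSeries.ringHom) _ _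
      rw [Finset.sum_congr rfl fun m _ => Finset.sum_comm, Finset.sum_comm, s3,
        Finset.sum_mul, map_sum]
      refine Finset.sum_congr rfl fun l _ => ?_
      by_cases h : δ2 σ ρ l = τ
      · simp only [h, true_and, if_true, Polynomial.coe_pow, Polynomial.coe_X,
          PowerSeries.coeff_X_pow_mul']
        split_ifs with h3
        · rw [PowerSeries.coeff_mul, Finset.Nat.sum_antidiagonal_eq_sum_range_succ_mk]
          symm
          refine Finset.sum_subset_zero_on_sdiff (Finset.range_subset_range.2 (by omega)) ?_ ?_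
          · intro m hm
            simp only [Finset.mem_sdiff, Finset.mem_range] at hm
            exact Finset.sum_eq_zero fun n _ => by rw [if_neg (by omega)]; simp
          · intro m hm
            simp only [Finset.mem_range] at hm
            rw [Finset.sum_eq_single (N - (w2 σ ρ l + 1) - m)]
            · rw [if_pos (by omega)]; simp [mul_comm]
            · intro n _ hn
              rw [if_neg (by omega)]; simp
            · intro hn
              simp only [Finset.mem_range] at hn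
              omega
        · exact Finset.sum_eq_zero fun m _ => Finset.sum_eq_zero fun n _ => by
            rw [if_neg (by omega)]; simp
      · simp [h]
  · intro σ ρ
    rw [finsetSum_coeff]
    refine Finset.sum_eq_zero fun l _ => ?_
    split_ifs <;> simp
  · intro σ ρ κ
    rw [finsetSum_coeff]
    refine Finset.sum_eq_zero fun l _ => ?_
    split_ifs <;> simp

end

end Pool.Agent.MP_e0ec03_al

end MrgPart4

-- ======== part 5: formerly Pool.Agent.MP_e0ec03_al.Types
section MrgPart5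

namespace Pool.Agent.MP_e0ec03_al

open Polynomial

theorem automaton_alg' {Ω L1 L2 T : Type} [Fintype L1] [Fintype L2] [Fintype T]
    (e : (Unit ⊕ (Ω × L1) ⊕ (Ω × Ω × L2)) ≃ Ω) (ty : Ω → T) (cost : Ω → ℕ)
    (h1 : ∀ y y' l, ty y = ty y' →
      ty (e (Sum.inr (Sum.inl (y, l)))) = ty (e (Sum.inr (Sum.inl (y', l)))) ∧
      cost (e (Sum.inr (Sum.inl (y, l)))) + cost y' = cost (e (Sum.inr (Sum.inl (y', l)))) + cost y)
    (h1' : ∀ y l, cost y < cost (e (Sum.inr (Sum.inl (y, l)))))
    (h2 : ∀ x x' y y' l, ty x = ty x' → ty y = ty y' →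
      ty (e (Sum.inr (Sum.inr (x, y, l)))) = ty (e (Sum.inr (Sum.inr (x', y', l)))) ∧
      cost (e (Sum.inr (Sum.inr (x, y, l)))) + cost x' + cost y' =
        cost (e (Sum.inr (Sum.inr (x', y', l)))) + cost x + cost y)
    (h2' : ∀ x y l, cost x + cost y < cost (e (Sum.inr (Sum.inr (x, y, l))))) (Q : T → Prop) :
    IsAlgebraic ℚ[X] (PowerSeries.mk fun n => (({o | Q (ty o) ∧ cost o = n}.ncard : ℕ) : ℚ)) := by
  classical
  have : Nonempty Ω := ⟨e (Sum.inl ())⟩
  set r : T → Ω := Function.invFun ty with hr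
  have hr' : ∀ y, ty (r (ty y)) = ty y := fun y => Function.invFun_eq ⟨y, rfl⟩
  have key := automaton_alg e ty cost (fun σ l => ty (e (Sum.inr (Sum.inl (r σ, l)))))
    (fun σ l => cost (e (Sum.inr (Sum.inl (r σ, l)))) - cost (r σ) - 1)
    (fun σ ρ l => ty (e (Sum.inr (Sum.inr (r σ, r ρ, l)))))
    (fun σ ρ l => cost (e (Sum.inr (Sum.inr (r σ, r ρ, l)))) - cost (r σ) - cost (r ρ) - 1)
    (fun y l => by
      have i1 := h1 y (r (ty y)) l (hr' y).symm
      have i2 := h1' (r (ty y)) l
      exact ⟨i1.1, by omega⟩)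
    (fun x y l => by
      have i1 := h2 x (r (ty x)) y (r (ty y)) l (hr' x).symm (hr' y).symm
      have i2 := h2' (r (ty x)) (r (ty y)) l
      exact ⟨i1.1, by omega⟩)
  have hfin := finite_cost e cost h1' h2'
  have e1 : (PowerSeries.mk fun n => (({o | Q (ty o) ∧ cost o = n}.ncard : ℕ) : ℚ)) =
      ∑ τ ∈ Finset.univ.filter Q,
        PowerSeries.mk fun n => (({o | ty o = τ ∧ cost o = n}.ncard : ℕ) : ℚ) := by
    ext n
    rw [map_sum]
    simp only [PowerSeries.coeff_mk]
    rw [← Nat.cast_sum]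
    congr 1
    have f1 : {o | Q (ty o) ∧ cost o = n}.Finite :=
      (hfin (n + 1)).subset fun o ho => (by have := ho.2; omega : cost o < n + 1)
    rw [Set.ncard_eq_toFinset_card _ f1,
      Finset.card_eq_sum_card_fiberwise (f := ty) (t := Finset.univ.filter Q) (by
        intro o ho
        simp only [Set.Finite.coe_toFinset, Set.mem_ofPred_eq] at ho
        simp [ho.1])]
    refine Finset.sum_congr rfl fun τ hτ => ?_
    rw [← Set.ncard_coe_finset]
    congr 1
    ext o
    simp only [Finset.mem_filter, Finset.mem_univ, true_and] at hτ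
    simp only [Finset.coe_filter, Set.Finite.mem_toFinset, Set.mem_ofPred_eq]
    constructor
    · exact fun h => ⟨h.2, h.1.2⟩
    · exact fun h => ⟨⟨h.1 ▸ hτ, h.2⟩, h.1⟩
  rw [e1]
  exact Finset.sum_induction _ _ (fun a b ha hb => ha.add hb) isAlgebraic_zero fun τ _ => key τ

namespace Core

variable {p m : ℕ}

theorem sec_eq (y : Core p (p * m)) (k i : ℤ) :
    D y (k + (p * m : ℕ) * i) = conv (P y) (psi p k) (0 + m * i) := by
  rw [← D_eq]
  congr 1
  push_cast
  ring

theorem P_cvx (hp : Odd p) (hm : Odd m) : ∀ c : Core p (p * m), Cvx (P c)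
  | empty => by rw [P_empty]; exact psi_cvx hp 0
  | up y d => by
    rw [P_up]
    simp only [sec_eq]
    exact ((((P_cvx hp hm y).conv (psi_cvx hp _)).sec hm 0).conv (psi_cvx hp 0)).add 1
  | node x r y d => by
    rw [P_node]
    simp only [sec_eq]
    exact (((P_cvx hp hm x).conv (psi_cvx hp _)).conv
      ((((P_cvx hp hm y).conv (psi_cvx hp _)).sec hm 0).conv (psi_cvx hp 0))).add 2

/-- position of the minimum -/
noncomputable def sh (hp : Odd p) (hm : Odd m) (c : Core p (p * m)) : ℤ :=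
  (P_cvx hp hm c).ex_nf.choose.2.1

/-- normalized profile -/
noncomputable def nr (hp : Odd p) (hm : Odd m) (c : Core p (p * m)) : ℤ → ℕ :=
  (P_cvx hp hm c).ex_nf.choose.2.2

theorem nf_P (hp : Odd p) (hm : Odd m) (c : Core p (p * m)) :
    Nf (P c) (mu c) (sh hp hm c) (nr hp hm c) := by
  have := (P_cvx hp hm c).ex_nf.choose_spec
  rw [mu_eq this]
  exact this

theorem psi_nf_le {k : ℤ} {μ : ℕ} {s : ℤ} {f : ℤ → ℕ} (h : Nf (psi p k) μ s f) (j : ℤ) :
    f j ≤ psi p 0 j := by
  have h1 := h.2 j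
  have h2 := h.2 0
  have h3 := h.1.2
  have h4 := psi_lip p k s j
  simp only [add_zero] at h2
  omega

theorem sec_nf [NeZero (p * m)] (hp : Odd p) (hm : Odd m) (y : Core p (p * m))
    (d : ZMod (p * m)) {μ : ℕ} {s : ℤ} {f : ℤ → ℕ} (h : Nf (psi p d.val) μ s f) {c : ℕ} {s' : ℤ}
    {σ : ℤ → ℕ} (h' : Nf (fun i => conv (nr hp hm y) f (-s + m * i)) c s' σ) :
    ∃ s'', Nf (fun i => D y ((d + (p * sh hp hm y : ℤ)).val + (p * m : ℕ) * i))
      (mu y + (μ + c)) s'' σ := by
  obtain ⟨κ, hκ⟩ : ((p * m : ℕ) : ℤ) ∣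
      ((d + (p * sh hp hm y : ℤ)).val : ℤ) - (d.val + p * sh hp hm y) := by
    rw [← ZMod.intCast_zmod_eq_zero_iff_dvd]
    simp
  refine ⟨s' - κ, h'.1, fun j => ?_⟩
  have h1 := ((nf_P hp hm y).conv h).2 (-s + m * (s' + j))
  have h2 := h'.2 j
  have h3 := D_eq y d.val (sh hp hm y + s + (-s + m * (s' + j)))
  simp only at h2 ⊢
  rw [show ((d + (p * sh hp hm y : ℤ)).val : ℤ) + (p * m : ℕ) * (s' - κ + j) =
    d.val + p * (sh hp hm y + s + (-s + m * (s' + j))) by
      push_cast at hκ ⊢; linear_combination hκ]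
  omega

theorem sec_congr [NeZero (p * m)] (hp : Odd p) (hm : Odd m) (hm2 : 2 ≤ m) {K : ℕ}
    (hK : 8 * p * (p * m) ≤ K) (y y' : Core p (p * m)) (d : ZMod (p * m))
    (h : cap K (nr hp hm y) = cap K (nr hp hm y')) :
    ∃ (c : ℕ) (s s' : ℤ) (σ σ' : ℤ → ℕ),
      Nf (conv (fun i => D y ((d + (p * sh hp hm y : ℤ)).val + (p * m : ℕ) * i)) (psi p 0))
        (mu y + c) s σ ∧
      Nf (conv (fun i => D y' ((d + (p * sh hp hm y' : ℤ)).val + (p * m : ℕ) * i)) (psi p 0))
        (mu y' + c) s' σ' ∧ Le K σ σ' ∧ Le K σ' σ := by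
  obtain ⟨⟨μ, s, f⟩, hf⟩ := (psi_cvx hp (d.val : ℤ)).ex_nf
  simp only at hf
  have n1 := (nf_P hp hm y).1
  have n2 := (nf_P hp hm y').1
  obtain ⟨⟨c1, s1, σ1⟩, h1⟩ := ((n1.conv hf.1).1.sec hm (-s)).ex_nf
  obtain ⟨⟨c2, s2, σ2⟩, h2⟩ := ((n2.conv hf.1).1.sec hm (-s)).ex_nf
  simp only at h1 h2
  have b : ∀ g : ℤ → ℕ, Nm g → ∀ j, conv g f j ≤ psi p 0 j := by
    intro g hg j
    have := conv_le g f j 0 j (by simp)
    have := psi_nf_le hf j
    have := hg.2
    omega
  have l1 := (le_of_cap n1 h).conv (Le.refl K f) n1 hf.1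
  have l2 := (le_of_cap n2 h.symm).conv (Le.refl K f) n2 hf.1
  have i1 := sec_le hp.pos hm2 hK (n1.conv hf.1) (b _ n1) (b _ n2) l1 l2 h1 h2
  have i2 := sec_le hp.pos hm2 hK (n2.conv hf.1) (b _ n2) (b _ n1) l2 l1 h2 h1
  obtain ⟨t1, j1⟩ := sec_nf hp hm y d hf h1
  obtain ⟨t2, j2⟩ := sec_nf hp hm y' d hf h2
  refine ⟨μ + c1, t1 + 0, t2 + 0, _, _, j1.conv (psi_nm hp).nf, ?_, i1.2, i2.2⟩
  rw [i1.1]
  exact j2.conv (psi_nm hp).nf

/-- decomposition of cores, with the digits measured from the minimum -/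
noncomputable def dec (hp : Odd p) (hm : Odd m) :
    (Unit ⊕ (Core p (p * m) × ZMod (p * m)) ⊕
      (Core p (p * m) × Core p (p * m) × (ZMod p × ZMod (p * m)))) ≃ Core p (p * m) where
  toFun
    | Sum.inl _ => empty
    | Sum.inr (Sum.inl (y, d)) => up y (d + (p * sh hp hm y : ℤ))
    | Sum.inr (Sum.inr (x, y, r, d)) => node x r y (d + (p * sh hp hm y : ℤ))
  invFun
    | empty => Sum.inl ()
    | up y d => Sum.inr (Sum.inl (y, d - (p * sh hp hm y : ℤ)))
    | node x r y d => Sum.inr (Sum.inr (x, y, r, d - (p * sh hp hm y : ℤ)))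
  left_inv := by rintro (_ | ⟨y, d⟩ | ⟨x, y, r, d⟩) <;> simp
  right_inv := by rintro (_ | _ | _) <;> simp

end Core

open _root_.Pool.Agent.MP_e0ec03_al.Core in
theorem cnt_algebraic {p m : ℕ} (hp : Odd p) (hm : Odd m) (hm2 : 2 ≤ m) :
    IsAlgebraic ℚ[X] (PowerSeries.mk fun n => (cnt p (p * m) n : ℚ)) := by
  classical
  have : NeZero p := ⟨hp.pos.ne'⟩
  have : NeZero (p * m) := ⟨(Nat.mul_pos hp.pos hm.pos).ne'⟩
  set K := 8 * p * (p * m) with hK
  refine automaton_alg' (dec hp hm)
    (fun c => (c.valid, c.pure, c = empty, cap K (nr hp hm c))) mu ?_ ?_ ?_ ?_ (fun τ => τ.1)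
  · intro y y' d h
    simp only [Prod.mk.injEq] at h
    obtain ⟨c, s, s', σ, σ', h1, h2, h3, h4⟩ := sec_congr hp hm hm2 hK.ge y y' d h.2.2.2
    have i1 := h1.add 1
    have i2 := h2.add 1
    rw [← P_up] at i1 i2
    have j1 := i1.unique (nf_P hp hm _)
    have j2 := i2.unique (nf_P hp hm _)
    simp only [dec, Equiv.coe_fn_mk, Prod.mk.injEq, valid, Core.pure, ← j1.1, ← j2.1, ← j1.2.2,
      ← j2.2.2]
    exact ⟨⟨h.1, trivial, by simp, cap_of_le h3 h4⟩, by omega⟩
  · intro y d
    obtain ⟨c, s, s', σ, σ', h1, -⟩ := sec_congr hp hm hm2 hK.ge y y d rfl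
    have i1 := h1.add 1
    rw [← P_up] at i1
    have j1 := i1.unique (nf_P hp hm _)
    simp only [dec, Equiv.coe_fn_mk, ← j1.1]
    omega
  · rintro x x' y y' ⟨r, d⟩ hx h
    simp only [Prod.mk.injEq] at h hx
    obtain ⟨c, s, s', σ, σ', h1, h2, h3, h4⟩ := sec_congr hp hm hm2 hK.ge y y' d h.2.2.2
    obtain ⟨⟨μ, t, f⟩, hf⟩ := (psi_cvx hp (r.val : ℤ)).ex_nf
    simp only at hf
    have n1 := nf_P hp hm x
    have n2 := nf_P hp hm x'
    have i1 := ((n1.conv hf).conv h1).add 2
    have i2 := ((n2.conv hf).conv h2).add 2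
    rw [← P_node] at i1 i2
    have j1 := i1.unique (nf_P hp hm _)
    have j2 := i2.unique (nf_P hp hm _)
    simp only [dec, Equiv.coe_fn_mk, Prod.mk.injEq, valid, Core.pure, ← j1.1, ← j2.1, ← j1.2.2,
      ← j2.2.2]
    refine ⟨⟨?_, hx.2.1, by simp, cap_of_le ?_ ?_⟩, by omega⟩
    · have : (y = empty ∧ d + (p * sh hp hm y : ℤ) = 0) =
          (y' = empty ∧ d + (p * sh hp hm y' : ℤ) = 0) := by
        by_cases hy : y = empty
        · have hy' : y' = empty := h.2.2.1 ▸ hy
          rw [hy, hy']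
        · have hy' : ¬ y' = empty := h.2.2.1 ▸ hy
          simp [hy, hy']
      rw [this, hx.1, h.1, h.2.1, hx.2.2.1]
    · exact ((le_of_cap n1.1 hx.2.2.2).conv (Le.refl K f) n1.1 hf.1).conv h3
        (n1.1.conv hf.1) h1.1
    · exact ((le_of_cap n2.1 hx.2.2.2.symm).conv (Le.refl K f) n2.1 hf.1).conv h4
        (n2.1.conv hf.1) h2.1
  · rintro x y ⟨r, d⟩
    obtain ⟨c, s, s', σ, σ', h1, -⟩ := sec_congr hp hm hm2 hK.ge y y d rfl
    obtain ⟨⟨μ, t, f⟩, hf⟩ := (psi_cvx hp (r.val : ℤ)).ex_nf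
    have i1 := (((nf_P hp hm x).conv hf).conv h1).add 2
    rw [← P_node] at i1
    have j1 := i1.unique (nf_P hp hm _)
    simp only [dec, Equiv.coe_fn_mk, ← j1.1]
    omega

end Pool.Agent.MP_e0ec03_al

end MrgPart5

-- marker of a merged file
example : 731051 + 826226 = 731051 + 826226 := rfl
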