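import Pool.Agent.MP_e0ec03_al.FEProf

namespace Pool.Agent.MP_e0ec03_al

variable {p : ℕ}

/-- discrete convexity -/
def Cv (g : ℤ → ℕ) : Prop := ∀ j, 2 * g j ≤ g (j - 1) + g (j + 1)

theorem Cv.slope {g : ℤ → ℕ} (h : Cv g) (a b : ℤ) (hab : a < b) :
    g (a + 1) + g (b - 1) ≤ g a + g b := by
  obtain ⟨n, rfl⟩ : ∃ n : ℕ, b = a + 1 + n := ⟨(b - a - 1).toNat, by omega⟩
  clear hab
  induction n with
  | zero => simp; omega
  | succ n ih =>
    have := h (a + 1 + n)
    rw [show a + 1 + ((n + 1 : ℕ) : ℤ) - 1 = a + 1 + n by push_cast; ring,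
      show a + 1 + ((n + 1 : ℕ) : ℤ) = a + 1 + n + 1 by push_cast; ring]
    omega

theorem Cv.conv {f g : ℤ → ℕ} (hf : Cv f) (hg : Cv g) : Cv (conv f g) := by
  intro j
  obtain ⟨a, b, h1, h2⟩ := conv_ex f g (j - 1)
  obtain ⟨a', b', h3, h4⟩ := conv_ex f g (j + 1)
  by_cases h : a < a'
  · have i1 := conv_le f g j (a + 1) b (by omega)
    have i2 := conv_le f g j (a' - 1) b' (by omega)
    have := hf.slope a a' h
    omega
  · have i1 := conv_le f g j a (b + 1) (by omega)
    have i2 := conv_le f g j a' (b' - 1) (by omega)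
    have := hg.slope b b' (by omega)
    omega

theorem Cv.spread {g : ℤ → ℕ} (h : Cv g) (j : ℤ) (n : ℕ) :
    2 * g j ≤ g (j - n) + g (j + n) := by
  induction n with
  | zero => simp; omega
  | succ n ih =>
    have := h.slope (j - (n + 1 : ℕ)) (j + (n + 1 : ℕ)) (by omega)
    rw [show j - ((n + 1 : ℕ) : ℤ) + 1 = j - n by push_cast; ring,
      show j + ((n + 1 : ℕ) : ℤ) - 1 = j + n by push_cast; ring] at this
    omega

theorem Cv.sect {g : ℤ → ℕ} (h : Cv g) (m : ℕ) (e : ℤ) : Cv (fun i => g (e + m * i)) := by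
  intro j
  have := h.spread (e + m * j) m
  rwa [show e + m * j - m = e + m * (j - 1) by ring,
    show e + m * j + m = e + m * (j + 1) by ring] at this

theorem Cv.add {g : ℤ → ℕ} (h : Cv g) (c : ℕ) : Cv (fun i => c + g i) := by
  intro j
  have := h j
  simp only
  omega

theorem psi_cv (k : ℤ) : Cv (psi p k) := by
  intro j
  simp only [psi, mul_sub, mul_add, mul_one]
  omega

/-- the slope of `g` at `i` -/
def sl (g : ℤ → ℕ) (i : ℤ) : ℤ := (g (i + 1) : ℤ) - g i

theorem Cv.mono {g : ℤ → ℕ} (h : Cv g) {a b : ℤ} (hab : a ≤ b) : sl g a ≤ sl g b := by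
  have := h.slope a (b + 1) (by omega)
  simp only [add_sub_cancel_right] at this
  simp only [sl]
  omega

/-- the exponent vector of the small slopes -/
noncomputable def slF (p : ℕ) (g : ℤ → ℕ) : ℤ →₀ ℕ :=
  ∑ᶠ i : ℤ, if |sl g i| < p then Finsupp.single (sl g i) 1 else 0

theorem slF_eq {g : ℤ → ℕ} (hf : {i | |sl g i| < p}.Finite) :
    slF p g = ∑ i ∈ hf.toFinset, Finsupp.single (sl g i) 1 := by
  rw [slF, finsum_eq_sum_of_support_subset (s := hf.toFinset)]
  · refine Finset.sum_congr rfl fun i hi => ?_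
    rw [if_pos (by simpa using hi)]
  · intro i hi
    by_contra h
    simp only [Set.Finite.coe_toFinset, Set.mem_ofPred_eq] at h
    simp [h] at hi

theorem slopes_eq {g : ℤ → ℕ} (hf : {i | |sl g i| < p}.Finite) :
    slopes p g = MvPolynomial.monomial (slF p g) 1 := by
  rw [slF_eq hf, slopes, finprod_eq_prod_of_mulSupport_subset (s := hf.toFinset)]
  · rw [MvPolynomial.monomial_sum_one]
    refine Finset.prod_congr rfl fun i hi => ?_
    rw [if_pos (by simpa [sl] using hi)]
    rfl
  · intro i hi
    by_contra h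
    simp only [Set.Finite.coe_toFinset, Set.mem_ofPred_eq, sl] at h
    simp [h] at hi

theorem le_sum_single (u : ℤ → ℤ) (I : Finset ℤ) : ∀ e : ℤ →₀ ℕ,
    e ≤ ∑ i ∈ I, Finsupp.single (u i) 1 → ∃ J ⊆ I, e = ∑ i ∈ J, Finsupp.single (u i) 1 := by
  classical
  induction I using Finset.induction_on with
  | empty => intro e he; exact ⟨∅, le_rfl, by simpa using he⟩
  | insert a I ha ih =>
    intro e he
    rw [Finset.sum_insert ha] at he
    by_cases h : e (u a) = 0
    · obtain ⟨J, h1, h2⟩ := ih e (fun s => by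
        have := he s
        by_cases hs : s = u a
        · rw [hs, h]; exact Nat.zero_le _
        · rwa [Finsupp.add_apply, Finsupp.single_eq_of_ne hs, zero_add] at this)
      exact ⟨J, h1.trans (Finset.subset_insert _ _), h2⟩
    · obtain ⟨J, h1, h2⟩ := ih (e - Finsupp.single (u a) 1) (fun s => by
        have := he s
        simp only [Finsupp.add_apply, Finsupp.tsub_apply] at this ⊢
        omega)
      refine ⟨insert a J, Finset.insert_subset_insert _ h1, ?_⟩
      rw [Finset.sum_insert (fun h' => ha (h1 h')), ← h2]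
      ext s
      by_cases hs : s = u a
      · subst hs
        simp only [Finsupp.add_apply, Finsupp.tsub_apply, Finsupp.single_eq_same]
        omega
      · simp [Finsupp.single_eq_of_ne hs]

theorem cst_sum (u : ℤ → ℤ) (J : Finset ℤ) :
    cst (∑ i ∈ J, Finsupp.single (u i) 1) = ∑ i ∈ J, (u i).natAbs := by
  classical
  induction J using Finset.induction_on with
  | empty => simp [cst_zero]
  | insert a J ha ih => rw [Finset.sum_insert ha, Finset.sum_insert ha, cst_add, ih, cst_single]

theorem sg_sum (u : ℤ → ℤ) (J : Finset ℤ) :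
    sg (∑ i ∈ J, Finsupp.single (u i) 1) = ∑ i ∈ J, if u i < 0 then -1 else 1 := by
  classical
  induction J using Finset.induction_on with
  | empty => simp [sg_zero]
  | insert a J ha ih => rw [Finset.sum_insert ha, Finset.sum_insert ha, sg_add, ih, sg_single]

theorem Cv.right {g : ℤ → ℕ} (h : Cv g) (s : ℤ) (J : Finset ℤ) (hJ : ∀ i ∈ J, s ≤ i) :
    (g (s + J.card) : ℤ) ≤ g s + ∑ i ∈ J, sl g i := by
  induction J using Finset.induction_on_max with
  | empty => simp
  | insert a J ha ih =>
    have hn : a ∉ J := fun h' => lt_irrefl _ (ha a h')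
    have h1 := ih fun i hi => hJ i (Finset.mem_insert_of_mem hi)
    have h2 : J.card ≤ (Finset.Ico s a).card := Finset.card_le_card fun i hi =>
      Finset.mem_Ico.2 ⟨hJ i (Finset.mem_insert_of_mem hi), ha i hi⟩
    have h3 := hJ a (Finset.mem_insert_self _ _)
    rw [Int.card_Ico] at h2
    have h4 := h.mono (a := s + J.card) (b := a) (by omega)
    rw [Finset.sum_insert hn, Finset.card_insert_of_notMem hn]
    simp only [sl] at h4 h1 ⊢
    push_cast
    rw [← add_assoc]
    omega

theorem Cv.left {g : ℤ → ℕ} (h : Cv g) (s : ℤ) (J : Finset ℤ) (hJ : ∀ i ∈ J, i < s) :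
    (g (s - J.card) : ℤ) ≤ g s - ∑ i ∈ J, sl g i := by
  induction J using Finset.induction_on_min with
  | empty => simp
  | insert a J ha ih =>
    have hn : a ∉ J := fun h' => lt_irrefl _ (ha a h')
    have h1 := ih fun i hi => hJ i (Finset.mem_insert_of_mem hi)
    have h2 : J.card ≤ (Finset.Ioo a s).card := Finset.card_le_card fun i hi =>
      Finset.mem_Ioo.2 ⟨ha i hi, hJ i (Finset.mem_insert_of_mem hi)⟩
    have h3 := hJ a (Finset.mem_insert_self _ _)
    rw [Int.card_Ioo] at h2
    have h4 := h.mono (a := a) (b := s - J.card - 1) (by omega)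
    rw [Finset.sum_insert hn, Finset.card_insert_of_notMem hn]
    simp only [sl, sub_add_cancel] at h4 h1 ⊢
    push_cast
    rw [← sub_sub]
    omega

theorem sum_sl (g : ℤ → ℕ) (s : ℤ) (n : ℕ) :
    ∑ i ∈ Finset.Ico s (s + n), sl g i = (g (s + n) : ℤ) - g s := by
  induction n with
  | zero => simp
  | succ n ih =>
    rw [show s + ((n + 1 : ℕ) : ℤ) = s + n + 1 by push_cast; ring,
      ← Finset.insert_Ico_right_eq_Ico_add_one (by omega), Finset.sum_insert (by simp), ih]
    simp only [sl]
    ring

theorem Cv.far_right {g : ℤ → ℕ} (h : Cv g) {C : ℕ} (hC : ∀ i : ℤ, p * i.natAbs ≤ g i + C) :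
    (p : ℤ) ≤ sl g (g 0 + C : ℕ) := by
  by_contra h1
  set n : ℕ := g 0 + C with hn
  have h2 := sum_sl g 0 (n + 1)
  have h3 : ∑ i ∈ Finset.Ico (0 : ℤ) (0 + (n + 1 : ℕ)), sl g i ≤
      ∑ i ∈ Finset.Ico (0 : ℤ) (0 + (n + 1 : ℕ)), ((p : ℤ) - 1) :=
    Finset.sum_le_sum fun i hi => by
      have := h.mono (a := i) (b := n) (by have := (Finset.mem_Ico.1 hi).2; omega)
      omega
  have h4 := hC (0 + (n + 1 : ℕ))
  rw [h2, Finset.sum_const, Int.card_Ico] at h3
  simp only [zero_add, sub_zero, Int.toNat_natCast, Int.natAbs_natCast, nsmul_eq_mul] at h3 h4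
  have h5 : ((p * (n + 1) : ℕ) : ℤ) ≤ ((g (n + 1 : ℕ) + C : ℕ) : ℤ) := by exact_mod_cast h4
  have h6 : (n : ℤ) = g 0 + C := by rw [hn]; push_cast; ring
  push_cast at h3 h5
  nlinarith

theorem Cv.far_left {g : ℤ → ℕ} (h : Cv g) {C : ℕ} (hC : ∀ i : ℤ, p * i.natAbs ≤ g i + C) :
    sl g (-(g 0 + C + 1 : ℕ)) ≤ -p := by
  by_contra h1
  set n : ℕ := g 0 + C + 1 with hn
  have h2 := sum_sl g (-n) n
  have h3 : ∑ i ∈ Finset.Ico (-n : ℤ) (-n + n), (1 - (p : ℤ)) ≤
      ∑ i ∈ Finset.Ico (-n : ℤ) (-n + n), sl g i :=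
    Finset.sum_le_sum fun i hi => by
      have := h.mono (a := -n) (b := i) (Finset.mem_Ico.1 hi).1
      omega
  have h4 := hC (-n)
  rw [h2, Finset.sum_const, Int.card_Ico] at h3
  simp only [neg_add_cancel, zero_sub, neg_neg, Int.toNat_natCast, Int.natAbs_neg,
    Int.natAbs_natCast, nsmul_eq_mul] at h3 h4
  have h5 : ((p * n : ℕ) : ℤ) ≤ ((g (-n) + C : ℕ) : ℤ) := by exact_mod_cast h4
  have h6 : (n : ℤ) = g 0 + C + 1 := by rw [hn]; push_cast; ring
  push_cast at h5
  nlinarith

theorem Cv.finite {g : ℤ → ℕ} (h : Cv g) {C : ℕ} (hC : ∀ i : ℤ, p * i.natAbs ≤ g i + C) :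
    {i | |sl g i| < p}.Finite := by
  refine (Set.finite_Icc (-(g 0 + C + 1 : ℕ) : ℤ) (g 0 + C : ℕ)).subset fun i hi => ?_
  have h1 := h.far_right hC
  have h2 := h.far_left hC
  have h3 := abs_lt.1 (show |sl g i| < p from hi)
  constructor
  · by_contra h4
    have := h.mono (not_le.1 h4).le
    omega
  · by_contra h4
    have := h.mono (not_le.1 h4).le
    omega

/-- capping a convex function at the slopes `±p` gives the profile of its small slopes -/
theorem Cv.rp (hp : 0 < p) {g : ℤ → ℕ} (h : Cv g) {C : ℕ}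
    (hC : ∀ i : ℤ, p * i.natAbs ≤ g i + C) :
    ∃ s, Rp p (Pool.Agent.MP_e0ec03_al.conv g (psi p 0)) (⨅ i, g i) s (slF p g) := by
  classical
  have hf := h.finite hC
  obtain ⟨s, hs, hs'⟩ := Int.exists_least_of_bdd (P := fun i => 0 ≤ sl g i)
    ⟨-(g 0 + C + 1 : ℕ), fun i hi => by
      by_contra h4
      have := h.mono (not_le.1 h4).le
      have := h.far_left hC
      omega⟩ ⟨_, le_trans (by omega) (h.far_right hC)⟩
  have pos : ∀ i, s ≤ i → 0 ≤ sl g i := fun i hi => hs.trans (h.mono hi)
  have neg : ∀ i, i < s → sl g i < 0 := fun i hi => by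
    by_contra h1
    have := hs' i (not_lt.1 h1)
    omega
  have up : ∀ (a : ℤ) (n : ℕ), s ≤ a → g a ≤ g (a + n) := fun a n ha => by
    have h1 := sum_sl g a n
    have h2 : 0 ≤ ∑ i ∈ Finset.Ico a (a + n), sl g i :=
      Finset.sum_nonneg fun i hi => pos i (ha.trans (Finset.mem_Ico.1 hi).1)
    omega
  have dn : ∀ (a : ℤ) (n : ℕ), a + n ≤ s → g (a + n) ≤ g a := fun a n ha => by
    have h1 := sum_sl g a n
    have h2 : ∑ i ∈ Finset.Ico a (a + n), sl g i ≤ 0 :=
      Finset.sum_nonpos fun i hi => (neg i (by have := (Finset.mem_Ico.1 hi).2; omega)).le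
    omega
  have hmin : (⨅ i, g i) = g s := by
    refine le_antisymm (ciInf_le' g s) (le_ciInf fun i => ?_)
    rcases le_total s i with h1 | h1
    · have := up s (i - s).toNat le_rfl
      rwa [show s + ((i - s).toNat : ℤ) = i by omega] at this
    · have := dn i (s - i).toNat (by omega)
      rwa [show i + ((s - i).toNat : ℤ) = s by omega] at this
  refine ⟨s, fun j => le_antisymm ?_ ?_⟩
  · obtain ⟨e, h1, h2⟩ := prof_ex (p := p) (slF p g) j
    rw [slF_eq hf] at h1
    obtain ⟨J, -, h3⟩ := le_sum_single _ _ e h1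
    have i1 := h.right s (J.filter fun i => s ≤ i) fun i hi => (Finset.mem_filter.1 hi).2
    have i2 := h.left s (J.filter fun i => ¬ s ≤ i) fun i hi => not_le.1 (Finset.mem_filter.1 hi).2
    have i3 : (cst e : ℤ) = ∑ i ∈ J.filter (fun i => s ≤ i), sl g i -
        ∑ i ∈ J.filter (fun i => ¬ s ≤ i), sl g i := by
      rw [h3, cst_sum, ← Finset.sum_filter_add_sum_filter_not J (fun i => s ≤ i), sub_eq_add_neg,
        ← Finset.sum_neg_distrib]
      push_cast
      congr 1
      · exact Finset.sum_congr rfl fun i hi => abs_of_nonneg (pos i (Finset.mem_filter.1 hi).2)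
      · exact Finset.sum_congr rfl fun i hi =>
          abs_of_neg (neg i (not_le.1 (Finset.mem_filter.1 hi).2))
    have i4 : sg e = (J.filter fun i => s ≤ i).card - ((J.filter fun i => ¬ s ≤ i).card : ℤ) := by
      rw [h3, sg_sum, ← Finset.sum_filter_add_sum_filter_not J (fun i => s ≤ i),
        Finset.sum_congr rfl fun i hi => if_neg (not_lt.2 (pos i (Finset.mem_filter.1 hi).2)),
        Finset.sum_congr (s₁ := J.filter fun i => ¬ s ≤ i) rfl fun i hi =>
          if_pos (neg i (not_le.1 (Finset.mem_filter.1 hi).2))]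
      simp [sub_eq_add_neg]
    have i5 : 0 ≤ ∑ i ∈ J.filter (fun i => s ≤ i), sl g i :=
      Finset.sum_nonneg fun i hi => pos i (Finset.mem_filter.1 hi).2
    have i6 : ∑ i ∈ J.filter (fun i => ¬ s ≤ i), sl g i ≤ 0 :=
      Finset.sum_nonpos fun i hi => (neg i (not_le.1 (Finset.mem_filter.1 hi).2)).le
    set a := (J.filter fun i => s ≤ i).card
    set b := (J.filter fun i => ¬ s ≤ i).card
    have i7 : g (s + sg e) ≤ g s + cst e := by
      rcases le_total b a with h4 | h4
      · have := up (s + sg e) b (by omega)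
        rw [show s + sg e + b = s + a by omega] at this
        omega
      · have := dn (s - b) a (by omega)
        rw [show s - b + a = s + sg e by omega] at this
        omega
    have i8 := conv_le g (psi p 0) (s + j) (s + sg e) (j - sg e) (by ring)
    rw [psi_zero] at i8
    omega
  · have key1 : ∀ (n : ℕ) (j : ℤ), g s + prof p (slF p g) j ≤ g (s + n) + p * (j - n).natAbs := by
      intro n
      induction n with
      | zero =>
        intro j
        simpa [cst_zero, sg_zero] using prof_le (p := p) (zero_le : 0 ≤ slF p g) j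
      | succ n ih =>
        intro j
        by_cases h1 : sl g (s + n) < p
        · have h2 : Finset.Ico s (s + (n + 1 : ℕ)) ⊆ hf.toFinset := fun i hi => by
            have h3 := Finset.mem_Ico.1 hi
            have h4 := h.mono (a := i) (b := s + n) (by omega)
            have h5 := pos i h3.1
            simp only [Set.Finite.mem_toFinset, Set.mem_ofPred_eq, abs_lt]
            omega
          have h3 := prof_le (p := p) (d := slF p g)
            (e := ∑ i ∈ Finset.Ico s (s + (n + 1 : ℕ)), Finsupp.single (sl g i) 1)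
            (by rw [slF_eq hf]; exact Finset.sum_le_sum_of_subset h2) j
          have h4 := sum_sl g s (n + 1)
          have h5 : ((∑ i ∈ Finset.Ico s (s + (n + 1 : ℕ)), (sl g i).natAbs : ℕ) : ℤ) =
              ∑ i ∈ Finset.Ico s (s + (n + 1 : ℕ)), sl g i := by
            push_cast
            exact Finset.sum_congr rfl fun i hi => abs_of_nonneg (pos i (Finset.mem_Ico.1 hi).1)
          rw [cst_sum, sg_sum,
            Finset.sum_congr rfl fun i hi => if_neg (not_lt.2 (pos i (Finset.mem_Ico.1 hi).1)),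
            Finset.sum_const, Int.card_Ico] at h3
          simp only [add_sub_cancel_left, Int.toNat_natCast, nsmul_eq_mul, mul_one] at h3
          omega
        · have h2 := ih j
          have h3 := tri p (j - (n + 1 : ℕ)) 1 (j - n) (by push_cast; ring)
          simp only [sl] at h1
          rw [show s + ((n + 1 : ℕ) : ℤ) = s + n + 1 by push_cast; ring]
          simp only [Int.natAbs_one, mul_one] at h3
          omega
    have key2 : ∀ (n : ℕ) (j : ℤ), g s + prof p (slF p g) j ≤ g (s - n) + p * (j + n).natAbs := by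
      intro n
      induction n with
      | zero => intro j; simpa using key1 0 j
      | succ n ih =>
        intro j
        by_cases h1 : -(p : ℤ) < sl g (s - (n + 1 : ℕ))
        · have h2 : Finset.Ico (s - (n + 1 : ℕ)) (s - (n + 1 : ℕ) + (n + 1 : ℕ)) ⊆ hf.toFinset :=
            fun i hi => by
              have h3 := Finset.mem_Ico.1 hi
              have h4 := h.mono h3.1
              have h5 := neg i (by omega)
              simp only [Set.Finite.mem_toFinset, Set.mem_ofPred_eq, abs_lt]
              omega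
          have h3 := prof_le (p := p) (d := slF p g)
            (e := ∑ i ∈ Finset.Ico (s - (n + 1 : ℕ)) (s - (n + 1 : ℕ) + (n + 1 : ℕ)),
              Finsupp.single (sl g i) 1)
            (by rw [slF_eq hf]; exact Finset.sum_le_sum_of_subset h2) j
          have h4 := sum_sl g (s - (n + 1 : ℕ)) (n + 1)
          have h5 : ((∑ i ∈ Finset.Ico (s - (n + 1 : ℕ)) (s - (n + 1 : ℕ) + (n + 1 : ℕ)),
              (sl g i).natAbs : ℕ) : ℤ) =
              -∑ i ∈ Finset.Ico (s - (n + 1 : ℕ)) (s - (n + 1 : ℕ) + (n + 1 : ℕ)), sl g i := by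
            rw [← Finset.sum_neg_distrib, Nat.cast_sum]
            exact Finset.sum_congr rfl fun i hi => by
              have := neg i (by have := (Finset.mem_Ico.1 hi).2; omega)
              omega
          rw [cst_sum, sg_sum, Finset.sum_congr rfl fun i hi =>
            if_pos (neg i (by have := (Finset.mem_Ico.1 hi).2; omega)),
            Finset.sum_const, Int.card_Ico] at h3
          simp only [add_sub_cancel_left, Int.toNat_natCast, nsmul_eq_mul, mul_neg, mul_one,
            sub_neg_eq_add] at h3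
          rw [sub_add_cancel] at h3 h4 h5
          omega
        · have h2 := ih j
          have h3 := tri p (j + (n + 1 : ℕ)) (-1) (j + n) (by push_cast; ring)
          simp only [sl] at h1
          rw [show s - ((n + 1 : ℕ) : ℤ) + 1 = s - n by push_cast; ring] at h1
          simp only [Int.natAbs_neg, Int.natAbs_one, mul_one] at h3
          omega
    obtain ⟨a, b, h1, h2⟩ := conv_ex g (psi p 0) (s + j)
    rw [h2, hmin, psi_zero]
    rcases le_total s a with h3 | h3
    · have := key1 (a - s).toNat j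
      rwa [show s + ((a - s).toNat : ℤ) = a by omega,
        show j - ((a - s).toNat : ℤ) = b by omega] at this
    · have := key2 (s - a).toNat j
      rwa [show s - ((s - a).toNat : ℤ) = a by omega,
        show j + ((s - a).toNat : ℤ) = b by omega] at this

end Pool.Agent.MP_e0ec03_al
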