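import Mathlib.RingTheory.MvPolynomial.Basic
import Pool.Agent.MP_e0ec03_al.FESec

namespace Pool.Agent.MP_e0ec03_al

open PowerSeries

section operator

variable (p m : ℕ)

/-- the section operator on polynomials -/
noncomputable def secL : MvPolynomial ℤ ℤ →ₗ[ℤ] PowerSeries (MvPolynomial ℤ ℤ) :=
  (MvPolynomial.basisMonomials ℤ ℤ).constr ℤ (secMon p m)

theorem secL_monomial (d : ℤ →₀ ℕ) : secL p m (MvPolynomial.monomial d 1) = secMon p m d := by
  have := (MvPolynomial.basisMonomials ℤ ℤ).constr_basis ℤ (secMon p m) d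
  rwa [MvPolynomial.coe_basisMonomials] at this

theorem coeff_sec (F : PowerSeries (MvPolynomial ℤ ℤ)) (n : ℕ) :
    coeff n (sec p m F) = ∑ ij ∈ Finset.HasAntidiagonal.antidiagonal n,
      coeff ij.2 (secL p m (coeff ij.1 F)) := by
  rw [sec, coeff_mk]
  refine Finset.sum_congr rfl fun ij _ => ?_
  conv_rhs => rw [(coeff ij.1 F).as_sum]
  rw [map_sum, map_sum]
  refine Finset.sum_congr rfl fun d _ => ?_
  rw [← secL_monomial, ← map_zsmul, ← map_zsmul, MvPolynomial.smul_monomial, smul_eq_mul, mul_one]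

theorem sec_add (F G : PowerSeries (MvPolynomial ℤ ℤ)) :
    sec p m (F + G) = sec p m F + sec p m G := by
  ext1 n
  simp only [map_add, coeff_sec, Finset.sum_add_distrib]

theorem sec_zero : sec p m 0 = 0 := by
  ext1 n
  simp [coeff_sec]

theorem sec_sum {ι : Type} (s : Finset ι) (F : ι → PowerSeries (MvPolynomial ℤ ℤ)) :
    sec p m (∑ i ∈ s, F i) = ∑ i ∈ s, sec p m (F i) := by
  classical
  induction s using Finset.induction_on with
  | empty => simp [sec_zero]
  | insert a s ha ih => rw [Finset.sum_insert ha, Finset.sum_insert ha, sec_add, ih]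

theorem sec_mon (k : ℕ) (d : ℤ →₀ ℕ) :
    sec p m (X ^ k * C (MvPolynomial.monomial d 1)) = X ^ k * secMon p m d := by
  ext1 n
  rw [coeff_sec, coeff_X_pow_mul']
  have h : ∀ i, coeff i (X ^ k * C (MvPolynomial.monomial d (1 : ℤ))) =
      if i = k then MvPolynomial.monomial d 1 else 0 := fun i => by
    rw [mul_comm, coeff_C_mul, coeff_X_pow]
    split_ifs <;> simp
  simp only [h]
  split_ifs with hk
  · rw [Finset.sum_eq_single (k, n - k)]
    · simp [secL_monomial]
    · rintro ⟨i, j⟩ hij hne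
      have := Finset.HasAntidiagonal.mem_antidiagonal.1 hij
      rw [if_neg]
      · simp
      · intro hi
        apply hne
        simp only at hi this
        ext <;> simp <;> omega
    · intro hn
      exact (hn (Finset.HasAntidiagonal.mem_antidiagonal.2 (by simp; omega))).elim
  · refine Finset.sum_eq_zero fun ij hij => ?_
    have := Finset.HasAntidiagonal.mem_antidiagonal.1 hij
    rw [if_neg (by omega)]
    simp

theorem sec_dvd {N : ℕ} {F G : PowerSeries (MvPolynomial ℤ ℤ)} (h : X ^ N ∣ F - G) :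
    X ^ N ∣ sec p m F - sec p m G := by
  rw [X_pow_dvd_iff] at h ⊢
  intro n hn
  rw [map_sub, coeff_sec, coeff_sec, sub_eq_zero]
  refine Finset.sum_congr rfl fun ij hij => ?_
  have h1 := Finset.HasAntidiagonal.mem_antidiagonal.1 hij
  have h2 := h ij.1 (by omega)
  rw [map_sub, sub_eq_zero] at h2
  rw [h2]

theorem eq_of_dvd {F G : PowerSeries (MvPolynomial ℤ ℤ)} (h : ∀ N, X ^ N ∣ F - G) : F = G := by
  ext1 n
  have := X_pow_dvd_iff.1 (h (n + 1)) n (by omega)
  rwa [map_sub, sub_eq_zero] at this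

theorem system_unique {A B K A' B' K' : PowerSeries (MvPolynomial ℤ ℤ)}
    (h : System p m A B K) (h' : System p m A' B' K') : A = A' ∧ B = B' ∧ K = K' := by
  obtain ⟨h1, h2, h3⟩ := h
  obtain ⟨h4, h5, h6⟩ := h'
  have hB : ∀ N, X ^ N ∣ A - A' → X ^ (N + 1) ∣ B - B' := fun N hN => by
    have := sec_dvd p m (N := N) (F := (1 + digs p) * A) (G := (1 + digs p) * A')
      (by rw [← mul_sub]; exact hN.mul_left _)
    obtain ⟨c, hc⟩ := this
    exact ⟨X * c, by rw [h2, h5]; linear_combination X ^ 2 * hc⟩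
  have hB' : X ∣ B' := by rw [h5, sq, mul_assoc]; exact dvd_mul_right _ _
  have hA : ∀ N, X ^ N ∣ A - A' := fun N => by
    induction N with
    | zero => simp
    | succ N ih =>
      obtain ⟨c, hc⟩ := hB N ih
      obtain ⟨a, ha⟩ := ih
      obtain ⟨b, hb⟩ := hB'
      refine ⟨c + digs p * (c * A + b * a), ?_⟩
      linear_combination h1 - h4 + (1 + digs p * A) * hc + digs p * B' * ha + digs p * X ^ N * a * hb
  have e1 := eq_of_dvd hA
  have e2 : B = B' := by rw [h2, h5, e1]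
  refine ⟨e1, e2, eq_of_dvd fun N => ?_⟩
  induction N with
  | zero => simp
  | succ N ih =>
    obtain ⟨c, hc⟩ := sec_dvd p m (N := N) (F := (1 + digs p) * K) (G := (1 + digs p) * K')
      (by rw [← mul_sub]; exact ih.mul_left _)
    obtain ⟨a, ha⟩ := ih
    obtain ⟨b, hb⟩ := hB'
    refine ⟨c + digs p * (b * a), ?_⟩
    rw [e2] at h3
    linear_combination h3 - h6 + X * hc + digs p * B' * ha + digs p * X ^ N * a * hb

end operator

theorem iInf_shift (f : ℤ → ℕ) (c : ℕ) (κ : ℤ) : (⨅ i, (c + f (κ + i))) = c + ⨅ i, f i := by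
  refine le_antisymm ?_ (le_ciInf fun i => Nat.add_le_add_left (ciInf_le' f _) _)
  obtain ⟨i, hi⟩ := ciInf_mem f
  have := ciInf_le' (fun i => c + f (κ + i)) (i - κ)
  simp only [add_sub_cancel] at this
  rw [hi] at this
  exact this

theorem slF_shift (p : ℕ) (f : ℤ → ℕ) (c : ℕ) (κ : ℤ) :
    slF p (fun i => c + f (κ + i)) = slF p f := by
  have h : ∀ i, sl (fun i => c + f (κ + i)) i = sl f (κ + i) := fun i => by
    simp only [sl, add_assoc]
    push_cast
    ring
  simp only [slF, h]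
  exact finsum_comp_equiv (Equiv.addLeft κ)
    (f := fun i => if |sl f i| < p then Finsupp.single (sl f i) 1 else 0)

namespace Core

variable {p m : ℕ}

theorem P_cv : ∀ c : Core p (p * m), Cv (P c)
  | empty => by rw [P_empty]; exact psi_cv 0
  | up y d => by
    rw [P_up]
    simp only [sec_eq]
    exact ((((P_cv y).conv (psi_cv _)).sect m 0).conv (psi_cv 0)).add 1
  | node x r y d => by
    rw [P_node]
    simp only [sec_eq]
    exact (((P_cv x).conv (psi_cv _)).conv
      ((((P_cv y).conv (psi_cv _)).sect m 0).conv (psi_cv 0))).add 2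

/-- the section of the distance function along a class modulo `q` -/
noncomputable def hs {q : ℕ} (y : Core p q) (d : ZMod q) (i : ℤ) : ℕ := D y (d.val + q * i)

theorem hs_cv (y : Core p (p * m)) (d : ZMod (p * m)) : Cv (hs y d) := by
  unfold hs
  simp only [sec_eq]
  exact ((P_cv y).conv (psi_cv _)).sect m 0

/-- the slopes of the profile of a core -/
noncomputable def ty {q : ℕ} : Core p q → (ℤ →₀ ℕ)
  | empty => 0
  | up y d => slF p (hs y d)
  | node x r y d => ty x + dig p r.val + slF p (hs y d)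

theorem mu_rp {q : ℕ} {c : Core p q} {μ : ℕ} {s : ℤ} {d : ℤ →₀ ℕ} (h : Rp p (P c) μ s d) :
    mu c = μ := by
  refine le_antisymm ?_ ?_
  · have h1 := mu_le c (p * s)
    have h2 := h 0
    simp only [add_zero, P, prof_at_zero] at h2
    omega
  · obtain ⟨k, hk⟩ := mu_ex c
    have h1 := D_eq c k 0
    obtain ⟨a, b, -, h2⟩ := conv_ex (P c) (psi p k) 0
    have h3 := h (a - s)
    simp only [add_sub_cancel, mul_zero, add_zero] at h1 h3
    omega

theorem D_sec {y : Core p (p * m)} {μ : ℕ} {s : ℤ} {t : ℤ →₀ ℕ} (h : Rp p (P y) μ s t) {r : ℕ}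
    (hr : r < p) (e i : ℤ) :
    D y (r + p * (s + dsh p r + e) + (p * m : ℕ) * i) =
      μ + min r (p - r) + prof p (t + dig p r) (e + m * i) := by
  rw [← (h.conv (rp_dig hr)) (e + m * i), ← D_eq]
  congr 1
  push_cast
  ring

theorem hs_lb (hp : 0 < p) (hm : 0 < m) {y : Core p (p * m)} {μ : ℕ} {s : ℤ} {t : ℤ →₀ ℕ}
    (h : Rp p (P y) μ s t) (d : ZMod (p * m)) : ∃ C : ℕ, ∀ i : ℤ, p * i.natAbs ≤ hs y d i + C := by
  have hr := Nat.mod_lt d.val hp
  have h0 := Nat.mod_add_div d.val p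
  set r := d.val % p
  set e : ℤ := (d.val / p : ℕ) - s - dsh p r with he
  refine ⟨p * dg (t + dig p r) + p * e.natAbs, fun i => ?_⟩
  have h1 := D_sec h hr e i
  have h2 := prof_lb (p := p) (t + dig p r) (e + m * i)
  have h3 := tri p (e + m * i) (-e) (m * i) (by ring)
  have h4 : p * i.natAbs ≤ p * ((m : ℤ) * i).natAbs := by
    rw [Int.natAbs_mul, Int.natAbs_natCast]
    exact Nat.mul_le_mul_left _ (Nat.le_mul_of_pos_left _ hm)
  have h5 : ((r : ℕ) : ℤ) + p * (s + dsh p r + e) = d.val := by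
    rw [he, show s + dsh p r + (((d.val / p : ℕ) : ℤ) - s - dsh p r) = (d.val / p : ℕ) by ring]
    exact_mod_cast h0
  rw [h5] at h1
  rw [Int.natAbs_neg] at h3
  simp only [hs]
  omega

theorem ex_rp (hp : 0 < p) (hm : 0 < m) : ∀ c : Core p (p * m), ∃ μ s, Rp p (P c) μ s (ty c)
  | empty => ⟨0, 0, by rw [P_empty]; exact rp_zero⟩
  | up y d => by
    obtain ⟨μ, s, h⟩ := ex_rp hp hm y
    obtain ⟨C, hC⟩ := hs_lb hp hm h d
    obtain ⟨s', h'⟩ := (hs_cv y d).rp hp hC
    exact ⟨_, s', by rw [P_up]; exact h'.add 1⟩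
  | node x r y d => by
    have : NeZero p := ⟨hp.ne'⟩
    obtain ⟨μ, s, h⟩ := ex_rp hp hm y
    obtain ⟨μ1, s1, h1⟩ := ex_rp hp hm x
    obtain ⟨C, hC⟩ := hs_lb hp hm h d
    obtain ⟨s', h'⟩ := (hs_cv y d).rp hp hC
    exact ⟨_, _, by rw [P_node]; exact ((h1.conv (rp_dig (ZMod.val_lt r))).conv h').add 2⟩

theorem mu_empty {q : ℕ} : mu (empty : Core p q) = 0 :=
  mu_rp (by rw [P_empty]; exact rp_zero)

theorem mu_up (hp : 0 < p) (hm : 0 < m) (y : Core p (p * m)) (d : ZMod (p * m)) :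
    mu (up y d) = 1 + ⨅ i, hs y d i := by
  obtain ⟨μ, s, h⟩ := ex_rp hp hm y
  obtain ⟨C, hC⟩ := hs_lb hp hm h d
  obtain ⟨s', h'⟩ := (hs_cv y d).rp hp hC
  exact mu_rp (by rw [P_up]; exact h'.add 1)

theorem mu_node (hp : 0 < p) (hm : 0 < m) (x : Core p (p * m)) (r : ZMod p) (y : Core p (p * m))
    (d : ZMod (p * m)) :
    mu (node x r y d) = 2 + (mu x + min r.val (p - r.val) + ⨅ i, hs y d i) := by
  have : NeZero p := ⟨hp.ne'⟩
  obtain ⟨μ, s, h⟩ := ex_rp hp hm y
  obtain ⟨μ1, s1, h1⟩ := ex_rp hp hm x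
  obtain ⟨C, hC⟩ := hs_lb hp hm h d
  obtain ⟨s', h'⟩ := (hs_cv y d).rp hp hC
  rw [mu_rp h1]
  exact mu_rp (by rw [P_node]; exact ((h1.conv (rp_dig (ZMod.val_lt r))).conv h').add 2)

theorem mu_le_hs {q : ℕ} (y : Core p q) (d : ZMod q) : mu y ≤ ⨅ i, hs y d i :=
  le_ciInf fun _ => mu_le y _

/-- the weight of a core -/
noncomputable def wt {q : ℕ} (c : Core p q) : PowerSeries (MvPolynomial ℤ ℤ) :=
  X ^ mu c * C (MvPolynomial.monomial (ty c) 1)

/-- the weight of a section -/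
noncomputable def ws {q : ℕ} (y : Core p q) (d : ZMod q) : PowerSeries (MvPolynomial ℤ ℤ) :=
  X ^ (⨅ i, hs y d i) * C (MvPolynomial.monomial (slF p (hs y d)) 1)

/-- the weight of a digit -/
noncomputable def wd (p r : ℕ) : PowerSeries (MvPolynomial ℤ ℤ) :=
  X ^ min r (p - r) * C (MvPolynomial.monomial (dig p r) 1)

theorem wt_empty {q : ℕ} : wt (empty : Core p q) = 1 := by
  simp [wt, mu_empty, ty]

theorem wt_up (hp : 0 < p) (hm : 0 < m) (y : Core p (p * m)) (d : ZMod (p * m)) :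
    wt (up y d) = X * ws y d := by
  rw [wt, mu_up hp hm, ty, ws]
  ring

theorem mon_add (a b : ℤ →₀ ℕ) : (C (MvPolynomial.monomial (a + b) (1 : ℤ)) :
    PowerSeries (MvPolynomial ℤ ℤ)) =
      C (MvPolynomial.monomial a 1) * C (MvPolynomial.monomial b 1) := by
  rw [← map_mul, MvPolynomial.monomial_mul, one_mul]

theorem wt_node (hp : 0 < p) (hm : 0 < m) (x : Core p (p * m)) (r : ZMod p) (y : Core p (p * m))
    (d : ZMod (p * m)) : wt (node x r y d) = wt x * wd p r.val * (X ^ 2 * ws y d) := by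
  rw [wt, mu_node hp hm, ty, ws, wt, wd, mon_add, mon_add]
  ring

theorem wd_zero : wd p 0 = 1 := by simp [wd, dig]

theorem sum_wd (hp : 0 < p) : ∑ r ∈ Finset.range p, wd p r = 1 + digs p := by
  rw [Finset.range_eq_Ico, ← Finset.Ioo_insert_left hp, Finset.sum_insert (by simp), wd_zero,
    digs]
  congr 1
  refine Finset.sum_congr rfl fun r hr => ?_
  rw [wd, dig, if_neg (Finset.mem_Ioo.1 hr).1.ne']
  rfl

theorem ws_empty (hm : 0 < m) : ws (empty : Core p (p * m)) 0 = 1 := by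
  have h : ∀ i : ℤ, hs (empty : Core p (p * m)) 0 i = p * m * i.natAbs := fun i => by
    simp [hs, D, Int.natAbs_mul]
  have h1 : (⨅ i, hs (empty : Core p (p * m)) 0 i) = 0 :=
    Nat.le_zero.1 ((ciInf_le' _ 0).trans (by simp [h]))
  have h2 : slF p (hs (empty : Core p (p * m)) 0) = 0 := by
    refine finsum_eq_zero_of_forall_eq_zero fun i => if_neg ?_
    have h3 : p ≤ p * m := Nat.le_mul_of_pos_right _ hm
    simp only [sl, h]
    rcases le_or_gt 0 i with h4 | h4
    · rw [show (i + 1).natAbs = i.natAbs + 1 by omega, mul_add, mul_one, abs_lt]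
      omega
    · rw [show i.natAbs = (i + 1).natAbs + 1 by omega, mul_add, mul_one, abs_lt]
      omega
  simp [ws, h1, h2]

theorem sum_ws (hp : 0 < p) (hm : 0 < m) [NeZero (p * m)] (y : Core p (p * m)) :
    ∑ d, ws y d = sec p m ((1 + digs p) * wt y) := by
  obtain ⟨μ, s, h⟩ := ex_rp hp hm y
  set φ : Fin p × Fin m → ZMod (p * m) := fun v =>
    (((v.1 : ℕ) + p * (s + dsh p v.1 + (v.2 : ℕ)) : ℤ) : ZMod (p * m)) with hφ
  have hb : Function.Bijective φ := by
    rw [Fintype.bijective_iff_injective_and_card]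
    refine ⟨?_, by simp⟩
    rintro ⟨r, e⟩ ⟨r', e'⟩ hv
    simp only [hφ] at hv
    obtain ⟨k, hk⟩ := (ZMod.intCast_eq_intCast_iff_dvd_sub _ _ _).1 hv
    have h1 : (p : ℤ) ∣ (r' : ℕ) - (r : ℕ) :=
      ⟨m * k - (s + dsh p r' + (e' : ℕ)) + (s + dsh p r + (e : ℕ)), by
        push_cast at hk; linear_combination hk⟩
    have h2 : r = r' := by
      have := Int.eq_zero_of_abs_lt_dvd h1 (by rw [abs_lt]; omega)
      ext; omega
    subst h2
    have h3 : (m : ℤ) ∣ (e' : ℕ) - (e : ℕ) := ⟨k, by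
      have hp' : (p : ℤ) ≠ 0 := by omega
      apply mul_left_cancel₀ hp'
      push_cast at hk
      linear_combination hk⟩
    have := Int.eq_zero_of_abs_lt_dvd h3 (by rw [abs_lt]; omega)
    ext <;> simp
    omega
  rw [← hb.sum_comp, Fintype.sum_prod_type, ← sum_wd hp, Finset.sum_mul, sec_sum,
    ← Fin.sum_univ_eq_sum_range (fun r => sec p m (wd p r * wt y))]
  refine Finset.sum_congr rfl fun r _ => ?_
  have e1 : wd p r * wt y =
      X ^ (μ + min (r : ℕ) (p - r)) * C (MvPolynomial.monomial (ty y + dig p r) 1) := by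
    rw [wd, wt, mu_rp h, mon_add]
    ring
  rw [e1, sec_mon, secMon, Finset.mul_sum, ← Fin.sum_univ_eq_sum_range (fun e =>
    X ^ (μ + min (r : ℕ) (p - r)) * (X ^ (⨅ i : ℤ, prof p (ty y + dig p r) ((e : ℕ) + m * i)) *
      C (slopes p fun i => prof p (ty y + dig p r) ((e : ℕ) + m * i))))]
  refine Finset.sum_congr rfl fun e _ => ?_
  obtain ⟨κ, hκ⟩ : ((p * m : ℕ) : ℤ) ∣
      ((φ (r, e)).val : ℤ) - ((r : ℕ) + p * (s + dsh p r + (e : ℕ))) := by
    rw [← ZMod.intCast_zmod_eq_zero_iff_dvd]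
    simp [hφ]
  have e2 : hs y (φ (r, e)) = fun i => (μ + min (r : ℕ) (p - r)) +
      (fun i => prof p (ty y + dig p r) ((e : ℕ) + m * i)) (κ + i) := by
    ext i
    rw [hs, ← D_sec h r.2]
    congr 1
    linear_combination hκ
  obtain ⟨C, hC⟩ := hs_lb hp hm h (φ (r, e))
  have hf := (hs_cv y (φ (r, e))).finite hC
  have hf' : {i | |sl (fun i => prof p (ty y + dig p r) ((e : ℕ) + m * i)) i| < p}.Finite := by
    refine (hf.image (fun i => κ + i)).subset fun i hi => ⟨i - κ, ?_, by simp⟩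
    simp only [Set.mem_ofPred_eq, e2, sl] at hi ⊢
    rw [show κ + (i - κ + 1) = i + 1 by ring, show κ + (i - κ) = i by ring]
    push_cast
    rwa [add_sub_add_left_eq_sub]
  have e3 := slF_shift p (fun i => prof p (ty y + dig p r) ((e : ℕ) + m * i))
    (μ + min (r : ℕ) (p - r)) κ
  have e4 := iInf_shift (fun i => prof p (ty y + dig p r) ((e : ℕ) + m * i))
    (μ + min (r : ℕ) (p - r)) κ
  rw [ws, slopes_eq hf', e2, e3, e4]
  ring

end Core

end Pool.Agent.MP_e0ec03_al
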