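import Mathlib.RingTheory.PowerSeries.Basic
import Mathlib.Algebra.MvPolynomial.Eval
import Mathlib.Algebra.BigOperators.Finprod
import Mathlib.Order.Lattice.Nat

namespace Pool.Agent.MP_e0ec03_al

open PowerSeries

/-- The convex profile of the monomial `x^d`: minimum `0` at `0`, the slope `s` occurring `d s`
times, all further slopes equal to `-p` on the left and `p` on the right. -/
noncomputable def prof (p : ℕ) (d : ℤ →₀ ℕ) (j : ℤ) : ℕ :=
  ⨅ e : {e : ℤ →₀ ℕ // e ≤ d}, ((e.1.sum fun s n => n * s.natAbs) +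
    p * (j - e.1.sum fun s n => if s < 0 then -(n : ℤ) else n).natAbs)

/-- The product of the variables `x_s` over the slopes `s = g (i+1) - g i` with `|s| < p`. -/
noncomputable def slopes (p : ℕ) (g : ℤ → ℕ) : MvPolynomial ℤ ℤ :=
  ∏ᶠ i : ℤ, if |(g (i + 1) : ℤ) - g i| < p then MvPolynomial.X ((g (i + 1) : ℤ) - g i) else 1

/-- The section operator on the monomial `x^d`. -/
noncomputable def secMon (p m : ℕ) (d : ℤ →₀ ℕ) : PowerSeries (MvPolynomial ℤ ℤ) :=
  ∑ e ∈ Finset.range m, X ^ (⨅ i : ℤ, prof p d (e + m * i)) *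
    C (slopes p fun i => prof p d (e + m * i))

/-- The section operator on power series in `z` with coefficients in `ℤ[x_s : s ∈ ℤ]`. -/
noncomputable def sec (p m : ℕ) (F : PowerSeries (MvPolynomial ℤ ℤ)) :
    PowerSeries (MvPolynomial ℤ ℤ) :=
  mk fun n => ∑ ij ∈ Finset.HasAntidiagonal.antidiagonal n, ∑ d ∈ (coeff ij.1 F).support,
    (coeff ij.1 F).coeff d • coeff ij.2 (secMon p m d)

/-- The series of the nonzero digits modulo `p`. -/
noncomputable def digs (p : ℕ) : PowerSeries (MvPolynomial ℤ ℤ) :=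
  ∑ r ∈ Finset.Ioo 0 p, X ^ min r (p - r) * C (MvPolynomial.X (2 * (r : ℤ) - p))

/-- The system of functional equations. -/
def System (p m : ℕ) (A B K : PowerSeries (MvPolynomial ℤ ℤ)) : Prop :=
  A = 1 + B + digs p * B * A ∧ B = X ^ 2 * (sec p m ((1 + digs p) * A) - 1) ∧
    K = 1 + B + X * sec p m ((1 + digs p) * K) + digs p * B * K

end Pool.Agent.MP_e0ec03_al
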