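import Pool.Agent.MP_e0ec03_al.FECore

namespace Pool.Agent.MP_e0ec03_al

open PowerSeries Classical

namespace Core

variable {p m : ℕ}

/-- decomposition of cores -/
def dec0 (p q : ℕ) :
    (Unit ⊕ (Core p q × ZMod q) ⊕ (Core p q × Core p q × (ZMod p × ZMod q))) ≃ Core p q where
  toFun
    | Sum.inl _ => empty
    | Sum.inr (Sum.inl (y, d)) => up y d
    | Sum.inr (Sum.inr (x, y, r, d)) => node x r y d
  invFun
    | empty => Sum.inl ()
    | up y d => Sum.inr (Sum.inl (y, d))
    | node x r y d => Sum.inr (Sum.inr (x, y, r, d))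
  left_inv := by rintro (_ | ⟨y, d⟩ | ⟨x, y, r, d⟩) <;> simp
  right_inv := by rintro (_ | _ | _) <;> simp

theorem mu_lt_up (hp : 0 < p) (hm : 0 < m) (y : Core p (p * m)) (d : ZMod (p * m)) :
    mu y < mu (up y d) := by
  have := mu_le_hs y d
  rw [mu_up hp hm]
  omega

theorem mu_lt_node (hp : 0 < p) (hm : 0 < m) (x : Core p (p * m)) (r : ZMod p)
    (y : Core p (p * m)) (d : ZMod (p * m)) : mu x + mu y < mu (node x r y d) := by
  have := mu_le_hs y d
  rw [mu_node hp hm]
  omega

variable [NeZero p] [NeZero m]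

theorem fin_mu (N : ℕ) : {c : Core p (p * m) | mu c < N}.Finite :=
  finite_cost (dec0 p (p * m)) mu (fun y d => mu_lt_up (NeZero.pos p) (NeZero.pos m) y d)
    (fun x y l => mu_lt_node (NeZero.pos p) (NeZero.pos m) x l.1 y l.2) N

variable (p m) in
/-- the cores at distance less than `N` -/
noncomputable def TT (N : ℕ) : Finset (Core p (p * m)) := (fin_mu N).toFinset

theorem mem_TT {N : ℕ} {c : Core p (p * m)} : c ∈ TT p m N ↔ mu c < N := by simp [TT]

theorem dvd_sum_sub {f : Core p (p * m) → PowerSeries (MvPolynomial ℤ ℤ)}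
    (hf : ∀ c, X ^ mu c ∣ f c) {N : ℕ} {S : Finset (Core p (p * m))} (hS : TT p m N ⊆ S) :
    X ^ N ∣ ∑ c ∈ S, f c - ∑ c ∈ TT p m N, f c := by
  rw [← Finset.sum_sdiff hS, add_sub_cancel_right]
  refine Finset.dvd_sum fun c hc => (pow_dvd_pow _ ?_).trans (hf c)
  have := (Finset.mem_sdiff.1 hc).2
  rwa [mem_TT, not_lt] at this

theorem sum_dec {f : Core p (p * m) → PowerSeries (MvPolynomial ℤ ℤ)}
    (hf : ∀ c, X ^ mu c ∣ f c) (N : ℕ) :
    X ^ N ∣ (f empty + (∑ y ∈ TT p m N, ∑ d, f (up y d) +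
      ∑ x ∈ TT p m N, ∑ y ∈ TT p m N, ∑ r, ∑ d, f (node x r y d))) - ∑ c ∈ TT p m N, f c := by
  have h := dvd_sum_sub hf (N := N) (S := ((Finset.univ : Finset Unit).disjSum
    ((TT p m N ×ˢ (Finset.univ : Finset (ZMod (p * m)))).disjSum (TT p m N ×ˢ TT p m N ×ˢ
      (Finset.univ : Finset (ZMod p × ZMod (p * m)))))).map (dec0 p (p * m)).toEmbedding) (by
    intro c hc
    rw [mem_TT] at hc
    rw [Finset.mem_map_equiv]
    cases c with
    | empty => simp [dec0]
    | up y d =>
      have := mu_lt_up (NeZero.pos p) (NeZero.pos m) y d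
      simp only [dec0, Equiv.coe_fn_symm_mk, Finset.inr_mem_disjSum, Finset.inl_mem_disjSum,
        Finset.mem_product, Finset.mem_univ, and_true, mem_TT]
      omega
    | node x r y d =>
      have := mu_lt_node (NeZero.pos p) (NeZero.pos m) x r y d
      simp only [dec0, Equiv.coe_fn_symm_mk, Finset.inr_mem_disjSum,
        Finset.mem_product, Finset.mem_univ, and_true, mem_TT]
      omega)
  rw [Finset.sum_map, Finset.sum_disjSum, Finset.sum_disjSum] at h
  simpa [dec0, Finset.sum_product, Fintype.sum_prod_type] using h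

/-- the sum of a graded family -/
noncomputable def lim (f : Core p (p * m) → PowerSeries (MvPolynomial ℤ ℤ)) :
    PowerSeries (MvPolynomial ℤ ℤ) := mk fun n => coeff n (∑ c ∈ TT p m (n + 1), f c)

theorem lim_dvd {f : Core p (p * m) → PowerSeries (MvPolynomial ℤ ℤ)}
    (hf : ∀ c, X ^ mu c ∣ f c) (N : ℕ) : X ^ N ∣ lim f - ∑ c ∈ TT p m N, f c := by
  rw [X_pow_dvd_iff]
  intro n hn
  have h := dvd_sum_sub hf (N := n + 1) (S := TT p m N) fun c hc => by
    rw [mem_TT] at hc ⊢
    omega
  have h1 := X_pow_dvd_iff.1 h n (by omega)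
  rw [map_sub, sub_eq_zero] at h1
  rw [map_sub, lim, coeff_mk, h1, sub_self]

/-- the weight of a valid core, pure if `b` -/
noncomputable def wv (b : Prop) (c : Core p (p * m)) : PowerSeries (MvPolynomial ℤ ℤ) :=
  if valid c ∧ (b → pure c) then wt c else 0

omit [NeZero p] [NeZero m] in
theorem wv_dvd (b : Prop) (c : Core p (p * m)) : X ^ mu c ∣ wv b c := by
  rw [wv]
  split_ifs
  · exact dvd_mul_right _ _
  · exact dvd_zero _

omit [NeZero p] [NeZero m] in
theorem wv_empty (b : Prop) : wv b (empty : Core p (p * m)) = 1 := by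
  simp [wv, valid, Core.pure, wt_empty]

theorem sum_ws_wv (b : Prop) (y : Core p (p * m)) :
    ∑ d, (if valid y ∧ (b → pure y) then ws y d else 0) = sec p m ((1 + digs p) * wv b y) := by
  rw [wv]
  split_ifs
  · exact sum_ws (NeZero.pos p) (NeZero.pos m) y
  · simp [sec_zero]

theorem sum_up_false (N : ℕ) : ∑ y ∈ TT p m N, ∑ d, wv False (up y d) =
    X * sec p m ((1 + digs p) * ∑ y ∈ TT p m N, wv False y) := by
  rw [Finset.mul_sum, sec_sum, Finset.mul_sum]
  refine Finset.sum_congr rfl fun y _ => ?_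
  rw [← sum_ws_wv, Finset.mul_sum]
  refine Finset.sum_congr rfl fun d _ => ?_
  simp only [wv, valid, false_imp_iff, and_true, wt_up (NeZero.pos p) (NeZero.pos m)]
  split_ifs <;> simp

theorem sum_exc {N : ℕ} (hN : 0 < N) :
    ∑ y ∈ TT p m N, ∑ d, (if valid y ∧ pure y ∧ ¬ (y = empty ∧ d = 0) then ws y d else 0) =
      sec p m ((1 + digs p) * ∑ y ∈ TT p m N, wv True y) - 1 := by
  have h : ∀ (b : Prop) (_ : b) (y : Core p (p * m)) (d : ZMod (p * m)),
      (if valid y ∧ (b → pure y) then ws y d else 0) =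
        (if valid y ∧ pure y ∧ ¬ (y = empty ∧ d = 0) then ws y d else 0) +
          if y = empty then if d = 0 then 1 else 0 else 0 := by
    intro b hb y d
    by_cases h1 : y = empty
    · subst h1
      by_cases h2 : d = 0
      · subst h2
        simp [valid, Core.pure, ws_empty (NeZero.pos m)]
      · simp [h2, hb]
    · simp [h1, hb]
  rw [Finset.mul_sum, sec_sum, eq_sub_iff_add_eq,
    ← Finset.sum_congr rfl fun y _ => sum_ws_wv True y,
    Finset.sum_congr rfl fun y _ => Finset.sum_congr rfl fun d _ => h True trivial y d]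
  simp only [Finset.sum_add_distrib]
  congr 1
  rw [Finset.sum_eq_single empty]
  · simp
  · intro y _ hy
    simp [hy]
  · intro h0
    exact (h0 (mem_TT.2 (by rw [mu_empty]; exact hN))).elim

theorem sum_spine (b : Prop) {N : ℕ} (hN : 0 < N) :
    ∑ x ∈ TT p m N, ∑ r : ZMod p, (if (valid x ∧ (b → pure x)) ∧ (x = empty ∨ r ≠ 0) then
      wt x * wd p r.val else 0) = 1 + digs p * ∑ x ∈ TT p m N, wv b x := by
  have h0 : ∑ r : ZMod p, wd p r.val = 1 + digs p := by
    rw [← sum_wd (NeZero.pos p), ← Fin.sum_univ_eq_sum_range]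
    obtain ⟨p, rfl⟩ := Nat.exists_eq_succ_of_ne_zero (NeZero.ne p)
    rfl
  have h1 : ∑ r : ZMod p, (if r = 0 then 0 else wd p r.val) = digs p := by
    have : ∀ r : ZMod p, wd p r.val = (if r = 0 then 1 else 0) + if r = 0 then 0 else wd p r.val := by
      intro r
      split_ifs with h
      · simp [h, wd_zero]
      · simp
    rw [Finset.sum_congr rfl fun r _ => this r, Finset.sum_add_distrib] at h0
    simpa using h0
  have h : ∀ (x : Core p (p * m)) (r : ZMod p),
      (if (valid x ∧ (b → pure x)) ∧ (x = empty ∨ r ≠ 0) then wt x * wd p r.val else 0) =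
        (if x = empty then if r = 0 then 1 else 0 else 0) +
          (if r = 0 then 0 else wd p r.val) * wv b x := by
    intro x r
    by_cases h1 : x = empty
    · subst h1
      by_cases h2 : r = 0
      · simp [h2, valid, Core.pure, wt_empty, wd_zero]
      · simp [h2, valid, Core.pure, wt_empty, wv_empty]
    · by_cases h2 : r = 0
      · simp [h1, h2]
      · simp only [h1, h2, wv, false_or, ne_eq, not_false_eq_true, and_true, if_false, zero_add]
        split_ifs <;> ring
  simp only [h, Finset.sum_add_distrib, ← Finset.sum_mul, h1, ← Finset.mul_sum]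
  congr 1
  rw [Finset.sum_eq_single empty]
  · simp
  · intro y _ hy
    simp [hy]
  · intro h0
    exact (h0 (mem_TT.2 (by rw [mu_empty]; exact hN))).elim

theorem sum_node (b : Prop) {N : ℕ} (hN : 0 < N) :
    ∑ x ∈ TT p m N, ∑ y ∈ TT p m N, ∑ r, ∑ d, wv b (node x r y d) =
      (1 + digs p * ∑ x ∈ TT p m N, wv b x) *
        (X ^ 2 * (sec p m ((1 + digs p) * ∑ y ∈ TT p m N, wv True y) - 1)) := by
  rw [← sum_spine b hN, ← sum_exc hN, Finset.mul_sum, Finset.sum_mul_sum]
  refine Finset.sum_congr rfl fun x _ => Finset.sum_congr rfl fun y _ => ?_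
  rw [Finset.mul_sum, Finset.sum_mul_sum]
  refine Finset.sum_congr rfl fun r _ => Finset.sum_congr rfl fun d _ => ?_
  simp only [wv, valid, Core.pure, wt_node (NeZero.pos p) (NeZero.pos m)]
  by_cases h1 : (valid x ∧ (b → pure x)) ∧ (x = empty ∨ r ≠ 0)
  · by_cases h2 : valid y ∧ pure y ∧ ¬ (y = empty ∧ d = 0)
    · rw [if_pos h1, if_pos h2, if_pos (by tauto)]
    · rw [if_neg h2, if_neg (by tauto)]
      simp
  · rw [if_neg h1, if_neg (by tauto)]
    simp

theorem system_lim : System p m (lim (wv (p := p) (m := m) True))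
    (X ^ 2 * (sec p m ((1 + digs p) * lim (wv (p := p) (m := m) True)) - 1))
    (lim (wv (p := p) (m := m) False)) := by
  refine ⟨eq_of_dvd fun N => ?_, rfl, eq_of_dvd fun N => ?_⟩
  · rcases Nat.eq_zero_or_pos N with rfl | hN
    · simp
    have h1 := sum_dec (wv_dvd (p := p) (m := m) True) N
    rw [sum_node True hN, wv_empty, Finset.sum_eq_zero (fun y _ => Finset.sum_eq_zero
      fun d _ => by simp [wv, Core.pure])] at h1
    have h2 := lim_dvd (wv_dvd (p := p) (m := m) True) N
    have h3 := sec_dvd p m (N := N) (F := (1 + digs p) * lim (wv (p := p) (m := m) True))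
      (G := (1 + digs p) * ∑ y ∈ TT p m N, wv True y) (by rw [← mul_sub]; exact h2.mul_left _)
    obtain ⟨a, ha⟩ := h1
    obtain ⟨b, hb⟩ := h2
    obtain ⟨c, hc⟩ := h3
    set A := lim (wv (p := p) (m := m) True)
    set A' := ∑ y ∈ TT p m N, wv (p := p) (m := m) True y
    set S := sec p m ((1 + digs p) * A)
    set S' := sec p m ((1 + digs p) * A')
    exact ⟨b - a - (1 + digs p * A') * X ^ 2 * c - digs p * X ^ 2 * (S - 1) * b, by
      linear_combination hb - ha - (1 + digs p * A') * X ^ 2 * hc - digs p * X ^ 2 * (S - 1) * hb⟩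
  · rcases Nat.eq_zero_or_pos N with rfl | hN
    · simp
    have h1 := sum_dec (wv_dvd (p := p) (m := m) False) N
    rw [sum_node False hN, wv_empty, sum_up_false] at h1
    have h2 := lim_dvd (wv_dvd (p := p) (m := m) True) N
    have h3 := sec_dvd p m (N := N) (F := (1 + digs p) * lim (wv (p := p) (m := m) True))
      (G := (1 + digs p) * ∑ y ∈ TT p m N, wv True y) (by rw [← mul_sub]; exact h2.mul_left _)
    have h4 := lim_dvd (wv_dvd (p := p) (m := m) False) N
    have h5 := sec_dvd p m (N := N) (F := (1 + digs p) * lim (wv (p := p) (m := m) False))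
      (G := (1 + digs p) * ∑ y ∈ TT p m N, wv False y) (by rw [← mul_sub]; exact h4.mul_left _)
    obtain ⟨a, ha⟩ := h1
    obtain ⟨b, hb⟩ := h4
    obtain ⟨c, hc⟩ := h3
    obtain ⟨e, he⟩ := h5
    set A := lim (wv (p := p) (m := m) True)
    set A' := ∑ y ∈ TT p m N, wv (p := p) (m := m) True y
    set K := lim (wv (p := p) (m := m) False)
    set K' := ∑ y ∈ TT p m N, wv (p := p) (m := m) False y
    set S := sec p m ((1 + digs p) * A)
    set S' := sec p m ((1 + digs p) * A')
    exact ⟨b - a - (1 + digs p * K') * X ^ 2 * c - digs p * X ^ 2 * (S - 1) * b - X * e, by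
      linear_combination hb - ha - (1 + digs p * K') * X ^ 2 * hc - digs p * X ^ 2 * (S - 1) * hb
        - X * he⟩

theorem eval_lim (n : ℕ) :
    MvPolynomial.eval (fun _ => 1) (coeff n (lim (wv (p := p) (m := m) False))) =
      (cnt p (p * m) n : ℤ) := by
  have h : ∀ c : Core p (p * m), MvPolynomial.eval (fun _ => (1 : ℤ)) (coeff n (wv False c)) =
      if valid c ∧ mu c = n then 1 else 0 := by
    intro c
    by_cases h1 : valid c
    · rw [wv, if_pos ⟨h1, False.elim⟩, wt, mul_comm, coeff_C_mul, coeff_X_pow]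
      by_cases h2 : mu c = n
      · simp [h1, h2, MvPolynomial.eval_monomial]
      · simp [h2, Ne.symm h2]
    · simp [wv, h1]
  rw [lim, coeff_mk, map_sum, map_sum]
  simp only [h]
  rw [Finset.sum_boole, cnt, ← Set.ncard_coe_finset]
  congr 2
  ext c
  simp only [Finset.coe_filter, mem_TT, Set.mem_ofPred_eq]
  constructor
  · exact fun h => h.2
  · exact fun h => ⟨by omega, h⟩

theorem cnt_pos (n : ℕ) : 0 < cnt p (p * m) n := by
  have h : ∃ c : Core p (p * m), valid c ∧ mu c = n ∧ D c 0 = n := by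
    induction n with
    | zero => exact ⟨empty, trivial, mu_empty, by simp [D]⟩
    | succ n ih =>
      obtain ⟨c, h1, h2, h3⟩ := ih
      have h4 := mu_lt_up (NeZero.pos p) (NeZero.pos m) c 0
      have h5 := D_up_le c 0 0 0
      have h6 := mu_le (up c 0) 0
      simp only [ZMod.val_zero, Nat.cast_zero, mul_zero, add_zero, sub_self, Int.natAbs_zero] at h5
      exact ⟨up c 0, h1, by omega, by omega⟩
  obtain ⟨c, h1, h2, -⟩ := h
  refine (Set.ncard_pos ((fin_mu (n + 1)).subset fun c hc => ?_)).2 ⟨c, h1, h2⟩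
  have := hc.2
  simp only [Set.mem_ofPred_eq]
  omega

end Core

end Pool.Agent.MP_e0ec03_al
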