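import Pool.Agent.MP_e0ec03_al.Types

namespace Pool.Agent.MP_e0ec03_al

open Classical Filter Topology

section words

variable {G : Type} [Group G] {a t : G}

theorem Dy.len {g : G} {n : ℕ} (h : Dy a t g n) : Len a t g n := by
  induction h with
  | one => exact Len.one
  | ma _ ih => exact ih.mul Len.ga
  | mai _ ih => exact ih.mul Len.gai
  | conj _ _ ih ih' => exact (((ih.mul Len.gti).mul ih').mul Len.gt).mono (by omega)

theorem As.len {g : G} {n : ℕ} (h : As a t g n) : Len a t g n := by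
  induction h with
  | dy h => exact h.len
  | up _ h ih => exact ((ih.mul Len.gt).mul h.len).mono (by omega)

theorem Dy.zpow (k : ℤ) : Dy a t (a ^ k) k.natAbs := by
  induction k using Int.induction_on with
  | zero => simpa using Dy.one
  | succ i ih => exact ih.ma.cast (by group) (by omega)
  | pred i ih => exact ih.mai.cast (by group) (by omega)

theorem As.join {g h e : G} {n n' k : ℕ} (hg : As a t g n) (he : Dy a t e k) (hh : As a t h n') :
    As a t (g * t * e * h) (n + k + n' + 1) := by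
  induction hh with
  | dy h1 => exact (As.up hg (he.mul h1)).cast (by group) (by omega)
  | up _ h2 ih => exact (As.up ih h2).cast (by group) (by omega)

end words

variable {p q : ℕ} [NeZero p] [NeZero q]

/-- the right action on normal forms -/
noncomputable def act (g : PresentedGroup (rels p q)) (s : List (ZMod p ⊕ ZMod q) × ℤ) :
    List (ZMod p ⊕ ZMod q) × ℤ := (rho p q g)⁻¹ s

theorem act_mul (g h : PresentedGroup (rels p q)) (s : List (ZMod p ⊕ ZMod q) × ℤ) :
    act (g * h) s = act h (act g s) := by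
  simp [act]

theorem act_one (s : List (ZMod p ⊕ ZMod q) × ℤ) : act 1 s = s := by simp [act]

theorem act_A (k : ℤ) (s : List (ZMod p ⊕ ZMod q) × ℤ) :
    act (gA p q ^ k) s = (s.1, s.2 + k) := by
  have hA : rho p q (gA p q) = permA p q := by simp [rho, gA]
  rw [act, map_zpow, hA, permA_zpow_inv]

theorem act_T (s : List (ZMod p ⊕ ZMod q) × ℤ) : act (gT p q) s = tau s := by
  have hT : rho p q (gT p q) = permT p q := by simp [rho, gT]
  rw [act, hT]
  rfl

theorem act_T' (s : List (ZMod p ⊕ ZMod q) × ℤ) : act (gT p q)⁻¹ s = tau' s := by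
  have hT : rho p q (gT p q) = permT p q := by simp [rho, gT]
  rw [act, map_inv, hT, inv_inv]
  rfl

/-- the element of a list of letters -/
def evL : List (ZMod p ⊕ ZMod q) → PresentedGroup (rels p q)
  | [] => 1
  | Sum.inl r :: l => evL l * gA p q ^ (r.val : ℤ) * (gT p q)⁻¹
  | Sum.inr d :: l => evL l * gA p q ^ (d.val : ℤ) * gT p q

/-- reduced lists -/
def Red : List (ZMod p ⊕ ZMod q) → Prop
  | [] => True
  | Sum.inl r :: l => Red l ∧ ¬ (r = 0 ∧ (pp l).2)
  | Sum.inr d :: l => Red l ∧ ¬ (d = 0 ∧ (pp l).1)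

/-- the rational height of a list -/
def vl : List (ZMod p ⊕ ZMod q) → ℚ
  | [] => 0
  | Sum.inl r :: l => (vl l + r.val) * q / p
  | Sum.inr d :: l => (vl l + d.val) * p / q

theorem tau_spec (l : List (ZMod p ⊕ ZMod q)) (k : ℤ) :
    evL (tau (l, k)).1 * gA p q ^ (tau (l, k)).2 = evL l * gA p q ^ k * gT p q ∧
    (Red l → Red (tau (l, k)).1) ∧ (tau (l, k)).1.length ≤ l.length + 1 ∧
    vl (tau (l, k)).1 + (tau (l, k)).2 = (vl l + k) * p / q := by
  have hp : (p : ℚ) ≠ 0 := by exact_mod_cast NeZero.ne p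
  have hq : (q : ℤ) ≠ 0 := by exact_mod_cast NeZero.ne q
  have hq' : (q : ℚ) ≠ 0 := by exact_mod_cast NeZero.ne q
  by_cases h : (pp l).1 ∧ (q : ℤ) ∣ k
  · obtain ⟨h1, j, rfl⟩ := h
    have e : tau (l, (q : ℤ) * j) = (l.tail, hv l + p * j) := by
      simp [tau, h1, Int.mul_ediv_cancel_left _ hq]
    rw [e]
    match l, h1 with
    | Sum.inl r :: l', h1 =>
      refine ⟨?_, fun h => h.1, by simp; omega, ?_⟩
      · simp only [List.tail_cons, hv, evL, mul_assoc, Core.rel_zpow g_rel j]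
        group
      · simp only [List.tail_cons, hv, vl]
        push_cast
        field_simp
        ring
  · have e : tau (l, k) = (Sum.inr (k : ZMod q) :: l, p * (k / q)) := by
      simp only [tau, if_neg h]
    rw [e]
    have e2 := Core.int_digit q k
    refine ⟨?_, fun h' => ⟨h', ?_⟩, by simp, ?_⟩
    · simp only [evL, mul_assoc, ← Core.rel_zpow g_rel (k / q)]
      conv_rhs => rw [e2]
      group
    · rw [ZMod.intCast_zmod_eq_zero_iff_dvd]
      tauto
    · have e3 : (k : ℚ) = (((k : ZMod q).val : ℤ) : ℚ) + q * ((k / q : ℤ) : ℚ) := by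
        exact_mod_cast e2
      simp only [vl]
      conv_rhs => rw [e3]
      simp only [Int.cast_mul, Int.cast_natCast]
      field_simp
      ring

theorem tau'_spec (l : List (ZMod p ⊕ ZMod q)) (k : ℤ) :
    evL (tau' (l, k)).1 * gA p q ^ (tau' (l, k)).2 = evL l * gA p q ^ k * (gT p q)⁻¹ ∧
    (Red l → Red (tau' (l, k)).1) ∧ (tau' (l, k)).1.length ≤ l.length + 1 ∧
    vl (tau' (l, k)).1 + (tau' (l, k)).2 = (vl l + k) * q / p := by
  have hp : (p : ℤ) ≠ 0 := by exact_mod_cast NeZero.ne p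
  have hp' : (p : ℚ) ≠ 0 := by exact_mod_cast NeZero.ne p
  have hq' : (q : ℚ) ≠ 0 := by exact_mod_cast NeZero.ne q
  by_cases h : (pp l).2 ∧ (p : ℤ) ∣ k
  · obtain ⟨h1, j, rfl⟩ := h
    have e : tau' (l, (p : ℤ) * j) = (l.tail, hv l + q * j) := by
      simp [tau', h1, Int.mul_ediv_cancel_left _ hp]
    rw [e]
    match l, h1 with
    | Sum.inr r :: l', h1 =>
      refine ⟨?_, fun h => h.1, by simp; omega, ?_⟩
      · simp only [List.tail_cons, hv, evL, mul_assoc, Core.rel_zpow' g_rel j]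
        group
      · simp only [List.tail_cons, hv, vl]
        push_cast
        field_simp
        ring
  · have e : tau' (l, k) = (Sum.inl (k : ZMod p) :: l, q * (k / p)) := by
      simp only [tau', if_neg h]
    rw [e]
    have e2 := Core.int_digit p k
    refine ⟨?_, fun h' => ⟨h', ?_⟩, by simp, ?_⟩
    · simp only [evL, mul_assoc, ← Core.rel_zpow' g_rel (k / p)]
      conv_rhs => rw [e2]
      group
    · rw [ZMod.intCast_zmod_eq_zero_iff_dvd]
      tauto
    · have e3 : (k : ℚ) = (((k : ZMod p).val : ℤ) : ℚ) + p * ((k / p : ℤ) : ℚ) := by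
        exact_mod_cast e2
      simp only [vl]
      conv_rhs => rw [e3]
      simp only [Int.cast_mul, Int.cast_natCast]
      field_simp
      ring

/-- the normal form of an element -/
noncomputable def st (g : PresentedGroup (rels p q)) : List (ZMod p ⊕ ZMod q) × ℤ := act g ([], 0)

theorem st_mul (g h : PresentedGroup (rels p q)) : st (g * h) = act h (st g) := act_mul _ _ _

theorem st_spec {g : PresentedGroup (rels p q)} {n : ℕ} (h : Len (gA p q) (gT p q) g n) :
    evL (st g).1 * gA p q ^ (st g).2 = g ∧ Red (st g).1 ∧ (st g).1.length ≤ n := by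
  obtain ⟨w, h1, rfl⟩ := h
  induction w using List.reverseRecOn generalizing n with
  | nil => simp [st, act_one, evL, Red]
  | append_singleton w x ih =>
    obtain ⟨i1, i2, i3⟩ := ih le_rfl
    rw [List.length_append, List.length_singleton] at h1
    rw [List.map_append, List.prod_append, List.map_singleton, List.prod_singleton, st_mul]
    set g := (w.map (letter (gA p q) (gT p q))).prod
    rcases x with ⟨_ | _, _ | _⟩
    · rw [show letter (gA p q) (gT p q) (false, false) = gA p q ^ (-1 : ℤ) by simp [letter], act_A]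
      exact ⟨by rw [zpow_add, ← mul_assoc, i1], i2, by simp only; omega⟩
    · rw [show letter (gA p q) (gT p q) (false, true) = gA p q ^ (1 : ℤ) by simp [letter], act_A]
      exact ⟨by rw [zpow_add, ← mul_assoc, i1], i2, by simp only; omega⟩
    · rw [show letter (gA p q) (gT p q) (true, false) = (gT p q)⁻¹ by simp [letter], act_T']
      obtain ⟨j1, j2, j3, -⟩ := tau'_spec (st g).1 (st g).2
      exact ⟨by rw [j1, i1], j2 i2, j3.trans (by omega)⟩
    · rw [show letter (gA p q) (gT p q) (true, true) = gT p q by simp [letter], act_T]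
      obtain ⟨j1, j2, j3, -⟩ := tau_spec (st g).1 (st g).2
      exact ⟨by rw [j1, i1], j2 i2, j3.trans (by omega)⟩

theorem dy_vl (hpq : p ≤ q) {g : PresentedGroup (rels p q)} {n : ℕ}
    (h : Dy (gA p q) (gT p q) g n) : ∀ s : List (ZMod p ⊕ ZMod q) × ℤ,
      |vl (act g s).1 + (act g s).2 - (vl s.1 + s.2)| ≤ n := by
  have hp : (0 : ℚ) < p := by exact_mod_cast NeZero.pos p
  have hq : (0 : ℚ) < q := by exact_mod_cast NeZero.pos q
  have hpq' : (p : ℚ) ≤ q := by exact_mod_cast hpq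
  induction h with
  | one => intro s; simp [act_one]
  | ma _ ih =>
    intro s
    have := abs_le.1 (ih s)
    rw [act_mul, ← zpow_one (gA p q), act_A, abs_le]
    push_cast
    constructor <;> linarith [this.1, this.2]
  | mai _ ih =>
    intro s
    have := abs_le.1 (ih s)
    rw [act_mul, ← zpow_neg_one (gA p q), act_A, abs_le]
    push_cast
    constructor <;> linarith [this.1, this.2]
  | @conj g h n n' _ _ ih ih' =>
    intro s
    have h1 := abs_le.1 (ih s)
    have h2 := abs_le.1 (ih' (tau' (act g s)))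
    have h3 := (tau'_spec (act g s).1 (act g s).2).2.2.2
    have h4 := (tau_spec (act h (tau' (act g s))).1 (act h (tau' (act g s))).2).2.2.2
    rw [act_mul, act_mul, act_mul, act_T, act_T', h4]
    simp only [Prod.mk.eta] at h3
    rw [h3] at h2
    set x := vl (act h (tau' (act g s))).1 + (act h (tau' (act g s))).2
    set y := vl (act g s).1 + (act g s).2
    have h5 : x * p / q = y + (x - y * q / p) * (p / q) := by field_simp; ring
    have h6 : (0 : ℚ) ≤ p / q := by positivity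
    have h7 : (p : ℚ) / q ≤ 1 := (div_le_one hq).2 hpq'
    have h8 : (0 : ℚ) ≤ n' := by positivity
    rw [h5, abs_le]
    push_cast
    constructor <;> nlinarith [h1.1, h1.2, h2.1, h2.2]

theorem as_vl (hpq : p ≤ q) {g : PresentedGroup (rels p q)} {n : ℕ}
    (h : As (gA p q) (gT p q) g n) : |vl (st g).1 + (st g).2| ≤ n := by
  have hq : (0 : ℚ) < q := by exact_mod_cast NeZero.pos q
  have hpq' : (p : ℚ) ≤ q := by exact_mod_cast hpq
  induction h with
  | dy h => simpa [vl, st] using dy_vl hpq h ([], 0)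
  | @up g h n n' _ h2 ih =>
    have h1 := abs_le.1 (dy_vl hpq h2 (tau (st g)))
    have h3 := (tau_spec (st g).1 (st g).2).2.2.2
    simp only [Prod.mk.eta] at h3
    rw [h3, mul_div_assoc] at h1
    have h4 := abs_le.1 ih
    have h6 : (0 : ℚ) ≤ p / q := by positivity
    have h7 : (p : ℚ) / q ≤ 1 := (div_le_one hq).2 hpq'
    have h8 : (0 : ℚ) ≤ n := by positivity
    rw [st_mul, st_mul, act_T, abs_le]
    push_cast
    constructor <;> nlinarith [h1.1, h1.2, h4.1, h4.2]

theorem push (L : List (ZMod p ⊕ ZMod q)) (x : ℤ) (hL : ¬ (pp L).1) :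
    ∀ l : List (ZMod p ⊕ ZMod q), Red l →
      (∀ r, l.getLast? = some (Sum.inl r) → ¬ (p : ℤ) ∣ x + r.val) →
      ∃ l' : List (ZMod p ⊕ ZMod q), (act (evL l) (L, x)).1 = l' ++ L ∧ l'.length = l.length ∧
        (l = [] → (act (evL l) (L, x)).2 = x) ∧
        ((pp l).1 → ¬ (pp (l' ++ L)).2 ∧ (q : ℤ) ∣ (act (evL l) (L, x)).2) ∧
        (¬ (pp l).1 → ¬ (pp (l' ++ L)).1) ∧
        ((pp l).2 → (p : ℤ) ∣ (act (evL l) (L, x)).2) ∧ (l ≠ [] → (pp l).1 ∨ (pp l).2)
  | [], _, _ => ⟨[], by simp [evL, act_one], rfl, by simp [evL, act_one], by simp [pp],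
      fun _ => hL, by simp [pp], by simp⟩
  | Sum.inl r :: l, h, h' => by
    obtain ⟨l', i1, i2, i3, i4, i5, i6, i7⟩ := push L x hL l h.1 (fun r' hr => h' r' (by
      cases l with
      | nil => simp at hr
      | cons b l => rwa [List.getLast?_cons_cons]))
    set s := act (evL l) (L, x)
    have e1 : ¬ ((pp s.1).2 ∧ (p : ℤ) ∣ s.2 + r.val) := by
      rintro ⟨j1, j2⟩
      by_cases hl : l = []
      · rw [i3 hl] at j2
        exact h' r (by simp [hl]) j2
      · rcases i7 hl with j3 | j3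
        · exact (i4 j3).1 (i1 ▸ j1)
        · obtain ⟨u, hu⟩ := i6 j3
          rw [hu, add_comm, val_dvd] at j2
          exact h.2 ⟨j2, j3⟩
    have e : act (evL (Sum.inl r :: l)) (L, x) =
        (Sum.inl ((s.2 + r.val : ℤ) : ZMod p) :: s.1, q * ((s.2 + r.val) / p)) := by
      rw [evL, act_mul, act_mul, act_A, act_T', tau', if_neg e1]
    rw [e]
    refine ⟨Sum.inl ((s.2 + r.val : ℤ) : ZMod p) :: l', by simp [i1], by simp [i2], by simp,
      fun _ => ⟨by simp [pp], dvd_mul_right _ _⟩, fun j => (j h.2).elim, by simp [pp],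
      fun _ => Or.inl h.2⟩
  | Sum.inr d :: l, h, h' => by
    obtain ⟨l', i1, i2, i3, i4, i5, i6, i7⟩ := push L x hL l h.1 (fun r' hr => h' r' (by
      cases l with
      | nil => simp at hr
      | cons b l => rwa [List.getLast?_cons_cons]))
    set s := act (evL l) (L, x)
    have e1 : ¬ ((pp s.1).1 ∧ (q : ℤ) ∣ s.2 + d.val) := by
      rintro ⟨j1, j2⟩
      by_cases j3 : (pp l).1
      · obtain ⟨u, hu⟩ := (i4 j3).2
        rw [hu, add_comm, val_dvd] at j2
        exact h.2 ⟨j2, j3⟩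
      · exact i5 j3 (i1 ▸ j1)
    have e : act (evL (Sum.inr d :: l)) (L, x) =
        (Sum.inr ((s.2 + d.val : ℤ) : ZMod q) :: s.1, p * ((s.2 + d.val) / q)) := by
      rw [evL, act_mul, act_mul, act_A, act_T, tau, if_neg e1]
    rw [e]
    refine ⟨Sum.inr ((s.2 + d.val : ℤ) : ZMod q) :: l', by simp [i1], by simp [i2], by simp,
      by simp [pp], fun _ => by simp [pp], fun _ => dvd_mul_right _ _, fun _ => Or.inr h.2⟩

variable (p q) in
/-- vertices of the Bass-Serre tree reached by ascending words of length at most `n` -/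
def Gam (n : ℕ) : Set (List (ZMod p ⊕ ZMod q)) :=
  {l | ∃ g, ∃ n' ≤ n, As (gA p q) (gT p q) g n' ∧ (st g).1 = l}

theorem gam_inj (n : ℕ) : ∃ f : List (ZMod p ⊕ ZMod q) → PresentedGroup (rels p q),
    ∀ l ∈ Gam p q n, (∃ n' ≤ n, As (gA p q) (gT p q) (f l) n') ∧ (st (f l)).1 = l := by
  have : ∀ l : List (ZMod p ⊕ ZMod q), ∃ g : PresentedGroup (rels p q), l ∈ Gam p q n →
      (∃ n' ≤ n, As (gA p q) (gT p q) g n') ∧ (st g).1 = l := fun l => by
    by_cases h : l ∈ Gam p q n
    · obtain ⟨g, n', h1, h2, h3⟩ := h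
      exact ⟨g, fun _ => ⟨⟨n', h1, h2⟩, h3⟩⟩
    · exact ⟨1, fun h' => (h h').elim⟩
  choose f hf using this
  exact ⟨f, hf⟩

theorem gam_sub (n : ℕ) : Gam p q n ⊆ (fun g => (st g).1) '' ball p q n := by
  rintro l ⟨g, n', h1, h2, h3⟩
  exact ⟨g, mem_ball.2 (h2.len.mono h1), h3⟩

theorem gam_finite (n : ℕ) : (Gam p q n).Finite := ((ball_finite n).image _).subset (gam_sub n)

theorem gam_le (n : ℕ) : (Gam p q n).ncard ≤ (ball p q n).ncard :=
  (Set.ncard_le_ncard (gam_sub n) ((ball_finite n).image _)).trans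
    (Set.ncard_image_le (ball_finite n))

theorem gam_pos (n : ℕ) : 1 ≤ (Gam p q n).ncard :=
  (Set.ncard_pos (gam_finite n)).2 ⟨_, 1, 0, Nat.zero_le _, As.dy Dy.one, rfl⟩

theorem gam_mono {n n' : ℕ} (h : n ≤ n') : (Gam p q n).ncard ≤ (Gam p q n').ncard :=
  Set.ncard_le_ncard (fun _ ⟨g, k, h1, h2⟩ => ⟨g, k, h1.trans h, h2⟩) (gam_finite n')

theorem ball_le_gam (hpq : p ≤ q) (N : ℕ) :
    (ball p q N).ncard ≤ ∑ i ∈ Finset.range (N + 1),
      ((Gam p q i).ncard * (2 * N + 1)) * ((Gam p q (N - i)).ncard * (2 * N + 1)) := by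
  set I : Set ℤ := Set.Icc (-(N : ℤ)) N with hI
  have hIc : I.ncard = 2 * N + 1 := by
    rw [hI, ← Finset.coe_Icc, Set.ncard_coe_finset, Int.card_Icc]
    omega
  have hIf : I.Finite := Set.finite_Icc _ _
  set E : List (ZMod p ⊕ ZMod q) × ℤ → PresentedGroup (rels p q) := fun x =>
    evL x.1 * gA p q ^ (x.2 - ⌊vl x.1⌋) with hE
  have key : ∀ (g : PresentedGroup (rels p q)) (n i : ℕ), As (gA p q) (gT p q) g n → n ≤ i →
      n ≤ N → ∃ x ∈ Gam p q i ×ˢ I, E x = g := by
    intro g n i h hi hn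
    refine ⟨((st g).1, (st g).2 + ⌊vl (st g).1⌋), ⟨⟨g, n, hi, h, rfl⟩, ?_⟩, ?_⟩
    · have h1 := abs_le.1 (as_vl hpq h)
      have h2 : (n : ℚ) ≤ N := by exact_mod_cast hn
      rw [← Int.floor_intCast_add]
      refine ⟨Int.le_floor.2 ?_, Int.floor_le_iff.2 ?_⟩ <;> push_cast <;> linarith [h1.1, h1.2]
    · simpa [hE] using (st_spec h.len).1
  have hsub : ball p q N ⊆ ⋃ i ∈ Finset.range (N + 1),
      (fun x => E x.1 * (E x.2)⁻¹) '' ((Gam p q i ×ˢ I) ×ˢ (Gam p q (N - i) ×ˢ I)) := by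
    intro g hg
    obtain ⟨g1, g2, n, n', h1, h2, h3, h4⟩ := (mem_ball.1 hg).split
    obtain ⟨x, i1, i2⟩ := key g1 n n h1 le_rfl (by omega)
    obtain ⟨y, j1, j2⟩ := key g2 n' (N - n) h2 (by omega) (by omega)
    simp only [Set.mem_iUnion]
    exact ⟨n, by simp; omega, (x, y), ⟨i1, j1⟩, by rw [h4, ← i2, ← j2]⟩
  have hfin : ∀ i, ((Gam p q i ×ˢ I) ×ˢ (Gam p q (N - i) ×ˢ I)).Finite := fun i =>
    ((gam_finite i).prod hIf).prod ((gam_finite _).prod hIf)
  refine le_trans (Set.ncard_le_ncard hsub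
    (Set.Finite.biUnion (Finset.finite_toSet _) fun i _ => (hfin i).image _)) ?_
  refine le_trans (Finset.set_ncard_biUnion_le _ _) (Finset.sum_le_sum fun i _ => ?_)
  refine le_trans (Set.ncard_image_le (hfin i)) ?_
  rw [Set.ncard_prod, Set.ncard_prod, Set.ncard_prod, hIc]

theorem gam_supmul (hp : 1 < p) (hq : 1 < q) (n m : ℕ) :
    (Gam p q n).ncard * (Gam p q m).ncard ≤ (Gam p q (n + m + 3)).ncard * (2 * (m + 1)) := by
  obtain ⟨f, hf⟩ := gam_inj (p := p) (q := q) n
  obtain ⟨f', hf'⟩ := gam_inj (p := p) (q := q) m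
  set e1 : List (ZMod p ⊕ ZMod q) → ℤ := fun l => if (q : ℤ) ∣ (st (f l)).2 then 1 else 0
    with he1
  set e2 : List (ZMod p ⊕ ZMod q) → ℤ := fun l => if l.getLast? = some (Sum.inl 0) then 1 else 0
    with he2
  set g : List (ZMod p ⊕ ZMod q) × List (ZMod p ⊕ ZMod q) → PresentedGroup (rels p q) :=
    fun x => f x.1 * gA p q ^ e1 x.1 * gT p q * gA p q ^ e2 x.2 * f' x.2 with hg
  have b1 : ∀ l, (e1 l).natAbs ≤ 1 := fun l => by simp only [he1]; split_ifs <;> simp
  have b2 : ∀ l, e2 l = 0 ∨ e2 l = 1 := fun l => by simp only [he2]; split_ifs <;> simp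
  have hAs : ∀ x ∈ Gam p q n ×ˢ Gam p q m, ∃ k ≤ n + m + 3, As (gA p q) (gT p q) (g x) k := by
    rintro ⟨u, v⟩ ⟨hu, hv⟩
    obtain ⟨k, h1, h2⟩ := (hf u hu).1
    obtain ⟨k', h3, h4⟩ := (hf' v hv).1
    have := b1 u
    have := b2 v
    exact ⟨_, by omega, (h2.mul_dy (Dy.zpow (e1 u))).join (Dy.zpow (e2 v)) h4⟩
  have hst : ∀ x ∈ Gam p q n ×ˢ Gam p q m, ∃ l' d, (st (g x)).1 = l' ++ Sum.inr d :: x.1 ∧
      l'.length = x.2.length := by
    rintro ⟨u, v⟩ ⟨hu, hv⟩
    obtain ⟨k', -, h4⟩ := (hf' v hv).1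
    obtain ⟨h5, h6, -⟩ := st_spec h4.len
    rw [(hf' v hv).2] at h5 h6
    have h7 : ¬ (q : ℤ) ∣ (st (f u)).2 + e1 u := by
      simp only [he1]
      split_ifs with h
      · rw [Int.dvd_add_right h]
        intro h'
        have := Int.le_of_dvd one_pos h'
        omega
      · simpa using h
    have h8 : st (f u * gA p q ^ e1 u * gT p q * gA p q ^ e2 v) =
        (Sum.inr (((st (f u)).2 + e1 u : ℤ) : ZMod q) :: u,
          p * (((st (f u)).2 + e1 u) / q) + e2 v) := by
      rw [st_mul, st_mul, st_mul, act_A, act_A, act_T, tau, if_neg (fun h => h7 h.2),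
        (hf u hu).2]
    obtain ⟨l', i1, i2, -⟩ := push (Sum.inr (((st (f u)).2 + e1 u : ℤ) : ZMod q) :: u)
      (p * (((st (f u)).2 + e1 u) / q) + e2 v) (by simp [pp]) v h6 (by
        intro r hr
        rw [add_assoc, Int.dvd_add_right (dvd_mul_right _ _)]
        simp only [he2, hr, Option.some.injEq, Sum.inl.injEq]
        split_ifs with h
        · intro h'
          have := Int.le_of_dvd (by simp [h]) h'
          simp [h] at this
          omega
        · have := val_dvd p r 0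
          simp only [mul_zero, add_zero] at this
          rwa [zero_add, this])
    refine ⟨l', (((st (f u)).2 + e1 u : ℤ) : ZMod q), ?_, i2⟩
    simp only [hg]
    rw [← h5, st_mul, act_mul, act_A, h8, i1]
  rw [← Set.ncard_prod]
  have hc : (Set.Iic m ×ˢ ({0, 1} : Set ℤ)).ncard = 2 * (m + 1) := by
    rw [Set.ncard_prod, Set.ncard_pair (by simp), ← Finset.coe_Iic, Set.ncard_coe_finset,
      Nat.card_Iic, mul_comm]
  rw [← hc, ← Set.ncard_prod]
  refine Set.ncard_le_ncard_of_injOn (fun x => ((st (g x)).1, x.2.length, e2 x.2)) ?_ ?_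
    ((gam_finite _).prod ((Set.finite_Iic m).prod (by simp)))
  · rintro ⟨u, v⟩ hx
    obtain ⟨k, h1, h2⟩ := hAs _ hx
    obtain ⟨k', h3, h4⟩ := (hf' v hx.2).1
    have h5 := (st_spec h4.len).2.2
    rw [(hf' v hx.2).2] at h5
    exact ⟨⟨_, k, h1, h2, rfl⟩, h5.trans h3, b2 v⟩
  · rintro ⟨u, v⟩ hx ⟨u', v'⟩ hx' h
    simp only [Prod.mk.injEq] at h
    obtain ⟨l1, d1, i1, i2⟩ := hst _ hx
    obtain ⟨l2, d2, j1, j2⟩ := hst _ hx'
    have h1 := List.append_inj (i1.symm.trans (h.1.trans j1)) (by simp only at i2 j2; omega)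
    have h2 : u = u' := (List.cons.inj h1.2).2
    subst h2
    obtain ⟨k, -, h3⟩ := hAs _ hx
    obtain ⟨k', -, h4⟩ := hAs _ hx'
    have h5 := (st_spec h3.len).1
    have h6 := (st_spec h4.len).1
    rw [← h.1] at h6
    have h7 : g (u, v') = g (u, v) * gA p q ^ ((st (g (u, v'))).2 - (st (g (u, v))).2) := by
      generalize (st (g (u, v'))).2 = b, (st (g (u, v))).2 = c, evL (st (g (u, v))).1 = z at h5 h6
      rw [← h6, ← h5]
      group
    simp only [hg] at h7
    rw [← h.2.2, mul_assoc _ (f' v), mul_right_inj] at h7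
    have h8 := congrArg (fun x => (st x).1) h7
    simp only [st_mul, act_A, (hf' v hx.2).2, (hf' v' hx'.2).2] at h8
    rw [h8]

theorem gam_le_pow (hp : 1 < p) (hq : 1 < q) {w : ℝ}
    (h : Tendsto (fun n : ℕ => ((ball p q n).ncard : ℝ) ^ (1 / (n : ℝ))) atTop (𝓝 w)) (m : ℕ) :
    ((Gam p q m).ncard : ℝ) ≤ 2 * (m + 1) * w ^ (m + 3) := by
  set y : ℝ := (Gam p q m).ncard / (2 * (m + 1)) with hy
  have hy0 : 0 ≤ y := by positivity
  have h1 : ∀ k : ℕ, y ^ k ≤ (Gam p q (k * (m + 3))).ncard := by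
    intro k
    induction k with
    | zero => simpa using (by exact_mod_cast gam_pos 0 : (1 : ℝ) ≤ (Gam p q 0).ncard)
    | succ k ih =>
      have h2 : ((Gam p q (k * (m + 3))).ncard : ℝ) * (Gam p q m).ncard ≤
          (Gam p q (k * (m + 3) + m + 3)).ncard * (2 * (m + 1)) := by
        exact_mod_cast gam_supmul hp hq (k * (m + 3)) m
      rw [show (k + 1) * (m + 3) = k * (m + 3) + m + 3 by ring, pow_succ]
      calc y ^ k * y ≤ (Gam p q (k * (m + 3))).ncard * y := by gcongr
        _ ≤ _ := by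
          rw [hy, ← mul_div_assoc, div_le_iff₀ (by positivity)]
          exact h2
  have h2 : Tendsto (fun k : ℕ => k * (m + 3)) atTop atTop :=
    tendsto_id.atTop_mul_const' (by omega)
  have h3 : y ^ (1 / ((m + 3 : ℕ) : ℝ)) ≤ w := by
    refine ge_of_tendsto (h.comp h2) (eventually_atTop.2 ⟨1, fun k hk => ?_⟩)
    have h4 : (0 : ℝ) < k := by exact_mod_cast hk
    have h5 : ((Gam p q (k * (m + 3))).ncard : ℝ) ≤ (ball p q (k * (m + 3))).ncard := by
      exact_mod_cast gam_le _
    calc y ^ (1 / ((m + 3 : ℕ) : ℝ)) = (y ^ k) ^ (1 / ((k * (m + 3) : ℕ) : ℝ)) := by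
          rw [← Real.rpow_natCast, ← Real.rpow_mul hy0]
          congr 1
          push_cast
          field_simp
      _ ≤ _ := Real.rpow_le_rpow (by positivity) ((h1 k).trans h5) (by positivity)
  have h4 := pow_le_pow_left₀ (by positivity) h3 (m + 3)
  rw [one_div, Real.rpow_inv_natCast_pow hy0 (by omega), hy, div_le_iff₀ (by positivity)] at h4
  linarith

end Pool.Agent.MP_e0ec03_al
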