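import Mathlib.Analysis.SpecialFunctions.Pow.Asymptotics
import Mathlib.Analysis.SpecialFunctions.Pow.Continuity
import Pool.Agent.MP_e0ec03_al.Gen
import Pool.Agent.MP_e0ec03_al.FESys

namespace Pool.Agent.MP_e0ec03_al

open Filter Topology

variable {p q : ℕ} [NeZero p] [NeZero q]

theorem ball_le_gam' (hp : 1 < p) (hpq : p ≤ q) (N : ℕ) :
    (ball p q N).ncard ≤ 8 * (N + 1) ^ 4 * (Gam p q (N + 3)).ncard := by
  refine (ball_le_gam hpq N).trans ?_
  refine (Finset.sum_le_card_nsmul _ _ ((2 * N + 2) ^ 2 * ((Gam p q (N + 3)).ncard * (2 * (N + 1))))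
    fun i hi => ?_).trans (by rw [Finset.card_range, smul_eq_mul]; exact le_of_eq (by ring))
  have hi' : i ≤ N := Nat.lt_succ_iff.1 (Finset.mem_range.1 hi)
  have h := gam_supmul (p := p) (q := q) hp (by omega) i (N - i)
  rw [show i + (N - i) + 3 = N + 3 by omega] at h
  calc _ = (2 * N + 1) ^ 2 * ((Gam p q i).ncard * (Gam p q (N - i)).ncard) := by ring
    _ ≤ _ := Nat.mul_le_mul (Nat.pow_le_pow_left (by omega) 2)
      (h.trans (Nat.mul_le_mul_left _ (by omega)))

theorem ball_le_pow (hp : 1 < p) (hpq : p ≤ q) {w : ℝ} (hw : 0 ≤ w)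
    (h : Tendsto (fun n : ℕ => ((ball p q n).ncard : ℝ) ^ (1 / (n : ℝ))) atTop (𝓝 w)) (N : ℕ) :
    ((ball p q N).ncard : ℝ) ≤ 16 * (N + 1) ^ 5 * w ^ (N + 6) := by
  have h1 : ((ball p q N).ncard : ℝ) ≤ ∑ i ∈ Finset.range (N + 1),
      (((Gam p q i).ncard : ℝ) * (2 * N + 1)) * ((Gam p q (N - i)).ncard * (2 * N + 1)) := by
    exact_mod_cast ball_le_gam hpq N
  refine h1.trans ((Finset.sum_le_card_nsmul _ _ (16 * (N + 1 : ℝ) ^ 4 * w ^ (N + 6))
    fun i hi => ?_).trans (by rw [Finset.card_range, nsmul_eq_mul]; push_cast; exact le_of_eq (by ring)))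
  have hi' : i ≤ N := Nat.lt_succ_iff.1 (Finset.mem_range.1 hi)
  have h2 := gam_le_pow hp (by omega) h i
  have h3 := gam_le_pow hp (by omega) h (N - i)
  have h4 : (i : ℝ) ≤ N := by exact_mod_cast hi'
  have h5 : ((N - i : ℕ) : ℝ) ≤ N := by exact_mod_cast Nat.sub_le N i
  have e : w ^ (N + 6) = w ^ (i + 3) * w ^ (N - i + 3) := by rw [← pow_add]; congr 1; omega
  calc _ ≤ (2 * (N + 1) * w ^ (i + 3) * (2 * (N + 1))) *
        (2 * (N + 1) * w ^ (N - i + 3) * (2 * (N + 1))) := by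
        gcongr
        · exact h2.trans (by gcongr)
        · linarith
        · exact h3.trans (by gcongr)
        · linarith
    _ = _ := by rw [e]; ring

theorem gam_tendsto (hp : 1 < p) (hpq : p ≤ q) {w : ℝ} (hw : 1 ≤ w)
    (h : Tendsto (fun n : ℕ => ((ball p q n).ncard : ℝ) ^ (1 / (n : ℝ))) atTop (𝓝 w))
    (h' : ∀ n, w ^ n ≤ (ball p q n).ncard) :
    Tendsto (fun n : ℕ => ((Gam p q n).ncard : ℝ) ^ (1 / (n : ℝ))) atTop (𝓝 w) := by
  have h1 : Tendsto (fun n : ℕ => (8 * w ^ 3) ^ (1 / (n : ℝ))) atTop (𝓝 1) := by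
    simpa using (tendsto_const_nhds (x := 8 * w ^ 3)).rpow
      (tendsto_one_div_atTop_nhds_zero_nat (𝕜 := ℝ)) (Or.inl (by positivity))
  have h2 : Tendsto (fun n : ℕ => (n : ℝ) ^ (1 / (n : ℝ))) atTop (𝓝 1) :=
    tendsto_rpow_div.comp tendsto_natCast_atTop_atTop
  have h3 := (tendsto_const_nhds (x := w)).div (h1.mul (h2.pow 4)) (by simp)
  simp only [one_pow, mul_one, div_one] at h3
  refine tendsto_of_tendsto_of_tendsto_of_le_of_le' h3 h
    (eventually_atTop.2 ⟨3, fun n hn => ?_⟩) (Eventually.of_forall fun n => ?_)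
  · obtain ⟨N, rfl⟩ := Nat.exists_eq_add_of_le' hn
    have h4 : ((ball p q N).ncard : ℝ) ≤ 8 * (N + 1) ^ 4 * (Gam p q (N + 3)).ncard := by
      exact_mod_cast ball_le_gam' hp hpq N
    have h5 : w ^ (N + 3) ≤ 8 * w ^ 3 * ((N + 3 : ℕ) : ℝ) ^ 4 * (Gam p q (N + 3)).ncard := by
      calc w ^ (N + 3) = w ^ N * w ^ 3 := pow_add _ _ _
        _ ≤ (8 * ((N + 3 : ℕ) : ℝ) ^ 4 * (Gam p q (N + 3)).ncard) * w ^ 3 := by
          gcongr
          refine (h' N).trans (h4.trans ?_)
          gcongr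
          push_cast
          linarith
        _ = _ := by ring
    have h6 := Real.rpow_le_rpow (by positivity) h5
      (by positivity : (0 : ℝ) ≤ 1 / ((N + 3 : ℕ) : ℝ))
    rw [one_div, Real.pow_rpow_inv_natCast (by linarith) (by omega),
      Real.mul_rpow (by positivity) (by positivity), Real.mul_rpow (by positivity) (by positivity),
      ← Real.rpow_natCast _ 4, ← Real.rpow_mul (by positivity), mul_comm ((4 : ℕ) : ℝ),
      Real.rpow_mul (by positivity), Real.rpow_natCast] at h6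
    simp only [Pi.div_apply, one_div]
    rw [div_le_iff₀ (by positivity), mul_comm]
    exact h6
  · refine Real.rpow_le_rpow (by positivity) ?_ (by positivity)
    exact_mod_cast gam_le n

namespace Core

omit [NeZero p] [NeZero q] in
theorem as_ev {G : Type} [Group G] {a t : G} (h : t * a ^ p * t⁻¹ = a ^ q) (hpq : p ∣ q) :
    ∀ c : Core p q, valid c → ∀ k : ℤ, As a t (ev a t c * a ^ k) (D c k) ∧
      (pure c → Dy a t (ev a t c * a ^ k) (D c k))
  | empty, _, k => by
    have : Dy a t (ev a t (empty : Core p q) * a ^ k) (D (empty : Core p q) k) := by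
      simpa [ev, D] using Dy.zpow k
    exact ⟨As.dy this, fun _ => this⟩
  | up y d, hv, k => by
    obtain ⟨j, hj⟩ := D_up_ex y d k
    rw [hj, ev_up h y d k j]
    exact ⟨(As.up (as_ev h hpq y hv _).1 (Dy.zpow _)).cast rfl (by omega), False.elim⟩
  | node x r y d, hv, k => by
    obtain ⟨i, j, hj⟩ := D_node_ex x r y d k
    rw [hj, ev_node h hpq x r y d hv.2.1 hv.2.2.1 k i j]
    have h1 := (Dy.one.conj ((as_ev h hpq y hv.2.1 (d.val + q * j)).2 hv.2.2.1)).mul
      (Dy.zpow (k - p * (i + j)))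
    have h2 := as_ev h hpq x hv.1 (r.val + p * i)
    exact ⟨(h2.1.mul_dy h1).cast (by group) (by omega),
      fun hc => ((h2.2 hc).mul h1).cast (by group) (by omega)⟩

theorem st_ev (hpq : p ∣ q) (c : Core p q) (hc : valid c) (k : ℤ) :
    (st (ev (gA p q) (gT p q) c * gA p q ^ k)).1 = code c := by
  have hA : rho p q (gA p q) = permA p q := by simp [rho, gA]
  have hT : rho p q (gT p q) = permT p q := by simp [rho, gT]
  have h := act_ev hpq c [] 0 hc (by simp [pp]) (Or.inr ⟨rfl, rfl⟩)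
  rw [st_mul, act_A, st, act, map_ev, hA, hT]
  simpa using congrArg Prod.fst h

end Core

theorem gam_eq (hpq : p ∣ q) (n : ℕ) :
    (Gam p q n).ncard = ∑ i ∈ Finset.range (n + 1), cnt p q i := by
  have h1 : Gam p q n = Core.code '' cores p q n := by
    ext l
    constructor
    · rintro ⟨g, n', i1, i2, rfl⟩
      obtain ⟨c, k, j1, -, rfl, j3⟩ := Core.as_rep g_rel hpq i2
      exact ⟨c, ⟨j1, (c.mu_le k).trans (j3.trans i1)⟩, (Core.st_ev hpq c j1 k).symm⟩
    · rintro ⟨c, ⟨j1, j2⟩, rfl⟩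
      obtain ⟨k, hk⟩ := c.mu_ex
      exact ⟨_, _, hk.le.trans j2, (Core.as_ev g_rel hpq c j1 k).1, Core.st_ev hpq c j1 k⟩
  rw [h1, Set.InjOn.ncard_image fun c hc c' hc' h =>
    (Core.code_inj c c' [] [] hc.1 hc'.1 (by simp) (by simp) (Or.inr rfl) (Or.inr rfl)
      (by simpa using h)).1]
  clear h1
  induction n with
  | zero => simp [cores, cnt]
  | succ n ih =>
    have h2 : cores p q (n + 1) = cores p q n ∪ {c : Core p q | c.valid ∧ c.mu = n + 1} := by
      ext c
      simp only [cores, Set.mem_ofPred_eq, Set.mem_union]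
      constructor
      · rintro ⟨i1, i2⟩
        rcases i2.eq_or_lt with i3 | i3
        · exact Or.inr ⟨i1, i3⟩
        · exact Or.inl ⟨i1, by omega⟩
      · rintro (⟨i1, i2⟩ | ⟨i1, i2⟩) <;> exact ⟨i1, by omega⟩
    have hf := cores_finite hpq (n + 1)
    rw [h2] at hf
    rw [Finset.sum_range_succ, ← ih, h2, Set.ncard_union_eq (Set.disjoint_left.2 fun c h h' => by
      have := h.2; have := h'.2; omega) (hf.subset Set.subset_union_left)
      (hf.subset Set.subset_union_right), cnt]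

end Pool.Agent.MP_e0ec03_al
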