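import Pool.Agent.MP_e0ec03_al.Types
import Pool.Agent.MP_e0ec03_al.FEDefs

namespace Pool.Agent.MP_e0ec03_al

/-- total absolute value of the slopes -/
def cst (e : ℤ →₀ ℕ) : ℕ := e.sum fun s n => n * s.natAbs

/-- signed number of slopes -/
def sg (e : ℤ →₀ ℕ) : ℤ := e.sum fun s n => if s < 0 then -(n : ℤ) else n

/-- number of slopes -/
def dg (e : ℤ →₀ ℕ) : ℕ := e.sum fun _ n => n

theorem cst_add (e e' : ℤ →₀ ℕ) : cst (e + e') = cst e + cst e' :=
  Finsupp.sum_add_index' (by simp) (by intro s a b; ring)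

theorem sg_add (e e' : ℤ →₀ ℕ) : sg (e + e') = sg e + sg e' :=
  Finsupp.sum_add_index' (by simp) (by intro s a b; split_ifs <;> push_cast <;> ring)

theorem dg_add (e e' : ℤ →₀ ℕ) : dg (e + e') = dg e + dg e' :=
  Finsupp.sum_add_index' (by simp) (by intro s a b; ring)

theorem cst_zero : cst 0 = 0 := by simp [cst]
theorem sg_zero : sg 0 = 0 := by simp [sg]

theorem cst_single (s : ℤ) : cst (Finsupp.single s 1) = s.natAbs := by
  simp [cst]

theorem sg_single (s : ℤ) : sg (Finsupp.single s 1) = if s < 0 then -1 else 1 := by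
  simp [sg]

theorem sg_le_dg (e : ℤ →₀ ℕ) : (sg e).natAbs ≤ dg e := by
  induction e using Finsupp.induction_linear with
  | zero => simp [sg]
  | add f g hf hg => rw [sg_add, dg_add]; omega
  | single s n =>
    simp only [sg, dg]
    rw [Finsupp.sum_single_index (by simp), Finsupp.sum_single_index rfl]
    split_ifs <;> simp

theorem dg_mono {e d : ℤ →₀ ℕ} (h : e ≤ d) : dg e ≤ dg d := by
  obtain ⟨c, rfl⟩ := exists_add_of_le h
  rw [dg_add]; omega

variable {p : ℕ}

theorem prof_le {d e : ℤ →₀ ℕ} (h : e ≤ d) (j : ℤ) :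
    prof p d j ≤ cst e + p * (j - sg e).natAbs :=
  ciInf_le' (fun e : {e : ℤ →₀ ℕ // e ≤ d} => cst e.1 + p * (j - sg e.1).natAbs) ⟨e, h⟩

theorem prof_ex (d : ℤ →₀ ℕ) (j : ℤ) :
    ∃ e ≤ d, prof p d j = cst e + p * (j - sg e).natAbs := by
  have : Nonempty {e : ℤ →₀ ℕ // e ≤ d} := ⟨⟨d, le_rfl⟩⟩
  obtain ⟨e, he⟩ := ciInf_mem
    (fun e : {e : ℤ →₀ ℕ // e ≤ d} => cst e.1 + p * (j - sg e.1).natAbs)
  exact ⟨e.1, e.2, he.symm⟩

theorem prof_at_zero (d : ℤ →₀ ℕ) : prof p d 0 = 0 := by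
  have := prof_le (p := p) (zero_le : 0 ≤ d) 0
  simpa [cst_zero, sg_zero] using this

theorem tri (p : ℕ) (a b c : ℤ) (h : c = a + b) : p * c.natAbs ≤ p * a.natAbs + p * b.natAbs := by
  rw [← mul_add, h]
  exact Nat.mul_le_mul_left _ (Int.natAbs_add_le a b)

theorem prof_add (d d' : ℤ →₀ ℕ) : prof p (d + d') = conv (prof p d) (prof p d') := by
  ext k
  refine le_antisymm ?_ ?_
  · obtain ⟨i, j, h1, h2⟩ := conv_ex (prof p d) (prof p d') k
    obtain ⟨e, h3, h4⟩ := prof_ex (p := p) d i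
    obtain ⟨e', h5, h6⟩ := prof_ex (p := p) d' j
    have h7 := prof_le (p := p) (add_le_add h3 h5) k
    rw [cst_add, sg_add] at h7
    have := tri p (i - sg e) (j - sg e') (k - (sg e + sg e')) (by omega)
    omega
  · obtain ⟨e, h1, h2⟩ := prof_ex (p := p) (d + d') k
    have h3 : e = e ⊓ d + (e - d) := by
      ext s
      simp only [Finsupp.add_apply, Finsupp.inf_apply, Finsupp.tsub_apply]
      omega
    have h4 : e - d ≤ d' := by
      intro s
      have := h1 s
      simp only [Finsupp.add_apply, Finsupp.tsub_apply] at this ⊢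
      omega
    have h5 := prof_le (p := p) (inf_le_right : e ⊓ d ≤ d) (sg (e ⊓ d))
    have h6 := prof_le (p := p) h4 (k - sg (e ⊓ d))
    have h7 := conv_le (prof p d) (prof p d') k (sg (e ⊓ d)) (k - sg (e ⊓ d)) (by ring)
    have h8 := cst_add (e ⊓ d) (e - d)
    have h9 := sg_add (e ⊓ d) (e - d)
    rw [← h3] at h8 h9
    rw [h2, h8, h9]
    rw [sub_sub] at h6
    simp only [sub_self, Int.natAbs_zero, mul_zero, add_zero] at h5
    omega

theorem psi_zero (j : ℤ) : psi p 0 j = p * j.natAbs := by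
  simp [psi, Int.natAbs_mul]

theorem prof_empty : prof p 0 = psi p 0 := by
  ext j
  obtain ⟨e, h1, h2⟩ := prof_ex (p := p) 0 j
  rw [h2, nonpos_iff_eq_zero.1 h1, psi_zero]
  simp [cst_zero, sg_zero]

theorem prof_lb (d : ℤ →₀ ℕ) (j : ℤ) : p * j.natAbs ≤ prof p d j + p * dg d := by
  obtain ⟨e, h1, h2⟩ := prof_ex (p := p) d j
  have h3 := tri p (j - sg e) (sg e) j (by ring)
  have h4 := Nat.mul_le_mul_left p ((sg_le_dg e).trans (dg_mono h1))
  omega

/-- `g` is the profile of `x^d`, translated by `s` and raised by `μ` -/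
def Rp (p : ℕ) (g : ℤ → ℕ) (μ : ℕ) (s : ℤ) (d : ℤ →₀ ℕ) : Prop :=
  ∀ j, g (s + j) = μ + prof p d j

theorem Rp.conv {g g' : ℤ → ℕ} {μ μ' : ℕ} {s s' : ℤ} {d d' : ℤ →₀ ℕ} (h : Rp p g μ s d)
    (h' : Rp p g' μ' s' d') : Rp p (conv g g') (μ + μ') (s + s') (d + d') := by
  intro j
  rw [prof_add]
  refine le_antisymm ?_ ?_
  · obtain ⟨a, b, h1, h2⟩ := conv_ex (prof p d) (prof p d') j
    have := conv_le g g' (s + s' + j) (s + a) (s' + b) (by omega)
    rw [h a, h' b] at this
    omega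
  · obtain ⟨a, b, h1, h2⟩ := conv_ex g g' (s + s' + j)
    have h3 := h (a - s)
    have h4 := h' (b - s')
    have := conv_le (prof p d) (prof p d') j (a - s) (b - s') (by omega)
    simp only [add_sub_cancel] at h3 h4
    omega

theorem Rp.add {g : ℤ → ℕ} {μ : ℕ} {s : ℤ} {d : ℤ →₀ ℕ} (h : Rp p g μ s d) (c : ℕ) :
    Rp p (fun i => c + g i) (c + μ) s d := fun j => by
  simp only [h j]; omega

theorem rp_zero : Rp p (psi p 0) 0 0 0 := fun j => by simp [prof_empty]

/-- the slope of a digit -/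
noncomputable def dig (p r : ℕ) : ℤ →₀ ℕ :=
  if r = 0 then 0 else Finsupp.single (2 * (r : ℤ) - p) 1

/-- the position of the minimum for a digit -/
def dsh (p r : ℕ) : ℤ := if 2 * r < p then 0 else -1

theorem le_single {e : ℤ →₀ ℕ} {s : ℤ} (h : e ≤ Finsupp.single s 1) :
    e = 0 ∨ e = Finsupp.single s 1 := by
  have h1 := h s
  simp only [Finsupp.single_eq_same] at h1
  have h2 : ∀ t, t ≠ s → e t = 0 := fun t ht => by
    have := h t
    rw [Finsupp.single_eq_of_ne ht] at this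
    omega
  rcases Nat.le_one_iff_eq_zero_or_eq_one.1 h1 with h3 | h3
  · left
    ext t
    by_cases ht : t = s
    · simp [ht, h3]
    · simp [h2 t ht]
  · right
    ext t
    by_cases ht : t = s
    · simp [ht, h3]
    · simp [h2 t ht, Finsupp.single_eq_of_ne ht]

theorem prof_single (s j : ℤ) : prof p (Finsupp.single s 1) j =
    min (p * j.natAbs) (s.natAbs + p * (j - if s < 0 then -1 else 1).natAbs) := by
  refine le_antisymm (le_min ?_ ?_) ?_
  · simpa [cst_zero, sg_zero] using prof_le (p := p) (zero_le : 0 ≤ Finsupp.single s 1) j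
  · simpa [cst_single, sg_single] using prof_le (p := p) (le_refl (Finsupp.single s 1)) j
  · obtain ⟨e, h1, h2⟩ := prof_ex (p := p) (Finsupp.single s 1) j
    rw [h2]
    rcases le_single h1 with rfl | rfl
    · simp [cst_zero, sg_zero]
    · simp [cst_single, sg_single]

theorem rp_dig {r : ℕ} (hr : r < p) :
    Rp p (psi p r) (min r (p - r)) (dsh p r) (dig p r) := by
  by_cases h0 : r = 0
  · subst h0
    simpa [dig, dsh, hr] using rp_zero
  intro j
  have e1 : ∀ u : ℤ, p * u.natAbs = ((p : ℤ) * u).natAbs := fun u => by simp [Int.natAbs_mul]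
  have e2 : j = 0 ∨ (p : ℤ) ≤ p * j ∨ (p : ℤ) * j ≤ -p := by
    rcases lt_trichotomy j 0 with h | h | h
    · right; right; nlinarith
    · left; exact h
    · right; left; nlinarith
  simp only [dig, if_neg h0, prof_single, dsh, psi, e1]
  rcases e2 with rfl | e2
  · split_ifs <;> simp <;> omega
  · split_ifs <;> simp only [mul_add, mul_sub, mul_neg, mul_one, mul_zero] <;> omega

end Pool.Agent.MP_e0ec03_al
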