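import Mathlib.Analysis.CStarAlgebra.Classes
import Mathlib.Analysis.Complex.LocallyUniformLimit
import Mathlib.Combinatorics.SimpleGraph.Basic
import Pool.Agent.MP_e0ec03_al.Types
import Pool.Agent.MP_e0ec03_al.Cert39
import Pool.Agent.MP_e0ec03_al.Radius

-- ======== part 0: formerly Pool.Agent.MP_e0ec03_al.Prof39
section MrgPart0

namespace Pool.Agent.MP_e0ec03_al

/-- the profiles which occur for `p = m = 3` -/
def F (t : ℕ × ℕ) (j : ℤ) : ℕ := j.natAbs + 2 * (j - t.2).toNat + 2 * (-j - t.1).toNat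

theorem F_nm (t : ℕ × ℕ) : Nm (F t) := by
  refine ⟨⟨fun j => ?_, fun j => ?_⟩, ?_⟩ <;> simp only [F] <;> omega

theorem F_inj {t t' : ℕ × ℕ} (h : F t = F t') : t = t' := by
  have h1 := congrFun h (t.2 + t'.2 : ℕ)
  have h2 := congrFun h (-(t.1 + t'.1 : ℕ))
  simp only [F] at h1 h2
  ext <;> omega

theorem conv_F (t t' : ℕ × ℕ) : conv (F t) (F t') = F (t + t') := by
  ext k
  refine le_antisymm ?_ ?_
  · by_cases hk : 0 ≤ k
    · have := conv_le (F t) (F t') k (min k t.2) (k - min k t.2) (by ring)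
      simp only [F, Prod.fst_add, Prod.snd_add] at this ⊢
      omega
    · have := conv_le (F t) (F t') k (max k (-t.1)) (k - max k (-t.1)) (by ring)
      simp only [F, Prod.fst_add, Prod.snd_add] at this ⊢
      omega
  · obtain ⟨a, b, h1, h2⟩ := conv_ex (F t) (F t') k
    rw [h2]
    simp only [F, Prod.fst_add, Prod.snd_add]
    omega

theorem psi_F : psi 3 0 = F (0, 0) := by
  ext j; simp only [F, psi]; omega

/-- profile of a residue modulo 3 -/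
def tr (v : ℕ) : ℕ × ℕ := if v % 3 = 0 then (0, 0) else if v % 3 = 1 then (1, 0) else (0, 1)

/-- cost of a residue modulo 3 -/
def ar (v : ℕ) : ℕ := if v % 3 = 0 then 0 else 1

theorem psi_nf (v : ℕ) : Nf (psi 3 v) (ar v) (-((v + 1) / 3 : ℕ)) (F (tr v)) := by
  refine ⟨F_nm _, fun j => ?_⟩
  simp only [psi, ar, tr]
  split_ifs <;> simp only [F] <;> omega

/-- cost of a section -/
def cst (t : ℕ × ℕ) (e : ℕ) : ℕ :=
  if e % 3 = 0 then 0 else if e % 3 = 1 then (if 1 ≤ t.2 then 1 else if 2 ≤ t.1 then 2 else 3)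
  else (if 1 ≤ t.1 then 1 else if 2 ≤ t.2 then 2 else 3)

/-- profile of a section -/
def out (t : ℕ × ℕ) (e : ℕ) : ℕ × ℕ :=
  if e % 3 = 0 then (0, 0) else if e % 3 = 1 then
    (if 1 ≤ t.2 then (if 2 ≤ t.1 then (1, 0) else (0, 0))
      else if 2 ≤ t.1 then (0, 1) else if 1 ≤ t.1 then (1, 0) else (0, 0))
  else (if 1 ≤ t.1 then (if 2 ≤ t.2 then (0, 1) else (0, 0))
      else if 2 ≤ t.2 then (1, 0) else if 1 ≤ t.2 then (0, 1) else (0, 0))

/-- position of the minimum of a section -/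
def pos (t : ℕ × ℕ) (e : ℕ) : ℤ :=
  if e % 3 = 0 then 0 else if e % 3 = 1 then (if t.2 = 0 ∧ 2 ≤ t.1 then -1 else 0)
  else (if t.1 = 0 ∧ 2 ≤ t.2 then 0 else -1)

theorem sec_F (t : ℕ × ℕ) (e : ℕ) :
    Nf (conv (fun i => F t (e + 3 * i)) (psi 3 0)) (cst t e) (pos t e - (e / 3 : ℕ))
      (F (out t e)) := by
  refine ⟨F_nm _, fun j => le_antisymm ?_ ?_⟩
  · have h0 := conv_le (fun i => F t (e + 3 * i)) (psi 3 0) (pos t e - (e / 3 : ℕ) + j)
      (pos t e - (e / 3 : ℕ)) j rfl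
    have h1 := conv_le (fun i => F t (e + 3 * i)) (psi 3 0) (pos t e - (e / 3 : ℕ) + j)
      (pos t e - (e / 3 : ℕ) + 1) (j - 1) (by ring)
    have h2 := conv_le (fun i => F t (e + 3 * i)) (psi 3 0) (pos t e - (e / 3 : ℕ) + j)
      (pos t e - (e / 3 : ℕ) - 1) (j + 1) (by ring)
    generalize conv (fun i => F t (e + 3 * i)) (psi 3 0) (pos t e - (e / 3 : ℕ) + j) = v at *
    simp only [cst, out, pos, psi] at *
    split_ifs at * <;> simp only [F] at * <;> omega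
  · obtain ⟨a, b, h1, h2⟩ := conv_ex (fun i => F t (e + 3 * i)) (psi 3 0)
      (pos t e - (e / 3 : ℕ) + j)
    rw [h2]
    simp only [cst, out, pos, psi] at *
    split_ifs at * <;> simp only [F] at * <;> omega

/-- cost of a digit -/
def co (t : ℕ × ℕ) (v : ℕ) : ℕ := ar v + cst (t + tr v) ((v + 1) / 3)

/-- profile of a digit -/
def ou (t : ℕ × ℕ) (v : ℕ) : ℕ × ℕ := out (t + tr v) ((v + 1) / 3)

theorem o3 : Odd 3 := by decide

namespace Core

theorem child_nf (y : Core 3 (3 * 3)) (d : ZMod (3 * 3)) {t : ℕ × ℕ} (ht : nr o3 o3 y = F t) :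
    ∃ s, Nf (conv (fun i => D y ((d + (3 * sh o3 o3 y : ℤ)).val + (3 * 3 : ℕ) * i)) (psi 3 0))
      (mu y + co t d.val) s (F (ou t d.val)) := by
  have h1 := psi_nf d.val
  obtain ⟨⟨c, s, σ⟩, h2⟩ := ((F_nm (t + tr d.val)).1.sec o3 ((d.val + 1) / 3 : ℕ)).ex_nf
  have h3 := (h2.conv (psi_nm o3).nf).unique (sec_F (t + tr d.val) ((d.val + 1) / 3))
  simp only at h2 h3
  obtain ⟨s', h4⟩ := sec_nf o3 o3 y d h1 (c := c) (s' := s) (σ := σ) (by
    rw [ht, conv_F, neg_neg]; exact h2)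
  have h5 := h4.conv (psi_nm o3).nf
  rw [h3.2.2] at h5
  refine ⟨s' + 0, ?_⟩
  have e : mu y + co t d.val = mu y + (ar d.val + c) + 0 := by
    have := h3.1
    simp only [co]
    omega
  rw [e]
  exact h5

theorem ex_ab : ∀ c : Core 3 (3 * 3), ∃ t, nr o3 o3 c = F t
  | empty => by
    have h := (psi_nm o3).nf
    rw [← P_empty (q := 3 * 3)] at h
    refine ⟨(0, 0), ?_⟩
    rw [← (h.unique (nf_P o3 o3 _)).2.2, P_empty, psi_F]
  | up y d => by
    obtain ⟨t, ht⟩ := ex_ab y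
    obtain ⟨s, h⟩ := child_nf y (d - (3 * sh o3 o3 y : ℤ)) ht
    have h1 := h.add 1
    rw [sub_add_cancel, ← P_up] at h1
    exact ⟨_, (h1.unique (nf_P o3 o3 _)).2.2.symm⟩
  | node x r y d => by
    obtain ⟨t, ht⟩ := ex_ab y
    obtain ⟨t', ht'⟩ := ex_ab x
    obtain ⟨s, h⟩ := child_nf y (d - (3 * sh o3 o3 y : ℤ)) ht
    have h1 := (((nf_P o3 o3 x).conv (psi_nf r.val)).conv h).add 2
    rw [sub_add_cancel, ← P_node, ht', conv_F, conv_F] at h1
    exact ⟨_, (h1.unique (nf_P o3 o3 _)).2.2.symm⟩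

/-- numbers of small slopes on the two sides -/
noncomputable def ab (c : Core 3 (3 * 3)) : ℕ × ℕ := (ex_ab c).choose

theorem ab_spec (c : Core 3 (3 * 3)) : nr o3 o3 c = F (ab c) := (ex_ab c).choose_spec

theorem empty_data : ab empty = (0, 0) ∧ mu (empty : Core 3 (3 * 3)) = 0 := by
  have h := (psi_nm o3).nf
  rw [← P_empty (q := 3 * 3)] at h
  have h1 := h.unique (nf_P o3 o3 _)
  refine ⟨F_inj ?_, h1.1.symm⟩
  rw [← ab_spec, ← h1.2.2, P_empty, psi_F]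

theorem up_data (y : Core 3 (3 * 3)) (d : ZMod (3 * 3)) :
    ab (up y (d + (3 * sh o3 o3 y : ℤ))) = ou (ab y) d.val ∧
      mu (up y (d + (3 * sh o3 o3 y : ℤ))) = mu y + (co (ab y) d.val + 1) := by
  obtain ⟨s, h⟩ := child_nf y d (ab_spec y)
  have h1 := h.add 1
  rw [← P_up] at h1
  have h2 := h1.unique (nf_P o3 o3 _)
  refine ⟨F_inj ?_, by omega⟩
  rw [← ab_spec, ← h2.2.2]

theorem node_data (x : Core 3 (3 * 3)) (r : ZMod 3) (y : Core 3 (3 * 3)) (d : ZMod (3 * 3)) :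
    ab (node x r y (d + (3 * sh o3 o3 y : ℤ))) = ab x + tr r.val + ou (ab y) d.val ∧
      mu (node x r y (d + (3 * sh o3 o3 y : ℤ))) =
        mu x + mu y + (ar r.val + (co (ab y) d.val + 1) + 1) := by
  obtain ⟨s, h⟩ := child_nf y d (ab_spec y)
  have h1 := (((nf_P o3 o3 x).conv (psi_nf r.val)).conv h).add 2
  rw [← P_node, ab_spec x, conv_F, conv_F] at h1
  have h2 := h1.unique (nf_P o3 o3 _)
  refine ⟨F_inj ?_, by omega⟩
  rw [← ab_spec, ← h2.2.2]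

theorem sh_empty : sh o3 o3 (empty : Core 3 (3 * 3)) = 0 := by
  have h := (psi_nm o3).nf
  rw [← P_empty (q := 3 * 3)] at h
  exact (h.unique (nf_P o3 o3 _)).2.1.symm

end Core

end Pool.Agent.MP_e0ec03_al

end MrgPart0

-- ======== part 1: formerly Pool.Agent.MP_e0ec03_al.Sums39
section MrgPart1

namespace Pool.Agent.MP_e0ec03_al

open Classical
open scoped ENNReal
open _root_.Pool.Agent.MP_e0ec03_al.Core

/-- weight of a core -/
noncomputable def wt (b : Prop) (W : ℕ → ℝ≥0∞) (χ : ℕ × ℕ → ℝ≥0∞) (c : Core 3 (3 * 3)) : ℝ≥0∞ :=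
  if c.valid ∧ (b → c.pure) then W (mu c) * χ (ab c) else 0

/-- weighted sum over cores -/
noncomputable def S (b : Prop) (W : ℕ → ℝ≥0∞) (χ : ℕ × ℕ → ℝ≥0∞) : ℝ≥0∞ := ∑' c, wt b W χ c

/-- weighted number of nonempty pure cores -/
noncomputable def Nn (W : ℕ → ℝ≥0∞) : ℝ≥0∞ :=
  ∑' c, if c = empty then 0 else wt True W (fun _ => 1) c

theorem tsum_core (f : Core 3 (3 * 3) → ℝ≥0∞) : ∑' c, f c = f empty +
    ((∑' y, ∑ d : ZMod (3 * 3), f (up y (d + (3 * sh o3 o3 y : ℤ)))) +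
      ∑' x, ∑' y, ∑ r : ZMod 3, ∑ d : ZMod (3 * 3), f (node x r y (d + (3 * sh o3 o3 y : ℤ)))) := by
  rw [← (Core.dec o3 o3).tsum_eq, Summable.tsum_sum ENNReal.summable ENNReal.summable,
    Summable.tsum_sum ENNReal.summable ENNReal.summable]
  simp only [ENNReal.tsum_prod', tsum_fintype, Core.dec, Equiv.coe_fn_mk, Fintype.sum_prod_type]
  simp

/-- indicator -/
noncomputable def ind (σ t : ℕ × ℕ) : ℝ≥0∞ := if t = σ then 1 else 0

/-- the weight of a digit -/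
noncomputable def dg (x : ℝ≥0∞) (σ : ℕ × ℕ) (v : ℕ) (t : ℕ × ℕ) : ℝ≥0∞ :=
  x ^ co t v * ind σ (ou t v)

/-- the three profiles of a child -/
def sg : Fin 3 → ℕ × ℕ := ![(0, 0), (1, 0), (0, 1)]

theorem ou_mem (t : ℕ × ℕ) (v : ℕ) : ∃ i, ou t v = sg i := by
  simp only [ou, out]
  split_ifs
  all_goals first | exact ⟨0, rfl⟩ | exact ⟨1, rfl⟩ | exact ⟨2, rfl⟩

theorem sum_ind (χ : ℕ × ℕ → ℝ≥0∞) (t : ℕ × ℕ) (v : ℕ) :
    χ (ou t v) = ∑ i, ind (sg i) (ou t v) * χ (sg i) := by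
  obtain ⟨i, hi⟩ := ou_mem t v
  rw [hi]
  fin_cases i <;> simp [Fin.sum_univ_three, sg, ind]

/-- ascending children -/
noncomputable def G (x : ℝ≥0∞) (W : ℕ → ℝ≥0∞) (i : Fin 3) : ℝ≥0∞ :=
  x * ∑ v ∈ Finset.range 9, S False W (dg x (sg i) v)

/-- hanging children -/
noncomputable def H (x : ℝ≥0∞) (W : ℕ → ℝ≥0∞) (i : Fin 3) : ℝ≥0∞ :=
  x ^ 2 * ((if i = 0 then Nn W else 0) + ∑ v ∈ Finset.range 8, S True W (dg x (sg i) (v + 1)))

/-- right hand side of the recursion, without the empty core -/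
noncomputable def Rh (x : ℝ≥0∞) (b : Prop) (W : ℕ → ℝ≥0∞) (χ : ℕ × ℕ → ℝ≥0∞) : ℝ≥0∞ :=
  (if b then 0 else ∑ i, G x W i * χ (sg i)) +
    ∑ i, H x W i * (W 0 * χ (sg i) + x * (S b W (fun t => χ (t + (1, 0) + sg i)) +
      S b W (fun t => χ (t + (0, 1) + sg i))))

theorem sum_zmod9 (f : ℕ → ℝ≥0∞) : ∑ d : ZMod (3 * 3), f d.val = ∑ v ∈ Finset.range 9, f v :=
  Fin.sum_univ_eq_sum_range f 9

theorem up_sum (x : ℝ≥0∞) (b : Prop) (W : ℕ → ℝ≥0∞) (χ : ℕ × ℕ → ℝ≥0∞) :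
    (∑' y : Core 3 (3 * 3), ∑ d : ZMod (3 * 3), if y.valid ∧ ¬ b then
      W (mu y) * x ^ (co (ab y) d.val + 1) * χ (ou (ab y) d.val) else 0) =
      if b then 0 else ∑ i, G x W i * χ (sg i) := by
  by_cases hb : b
  · simp [hb]
  simp only [hb, not_false_eq_true, and_true, if_false, G, S, Finset.mul_sum, Finset.sum_mul,
    ← ENNReal.tsum_mul_left, ← ENNReal.tsum_mul_right]
  rw [Finset.sum_comm]
  simp only [← Summable.tsum_finsetSum (fun _ _ => ENNReal.summable)]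
  refine tsum_congr fun y => ?_
  rw [sum_zmod9 (fun v => if y.valid then W (mu y) * x ^ (co (ab y) v + 1) * χ (ou (ab y) v)
    else 0)]
  refine Finset.sum_congr rfl fun v _ => ?_
  by_cases hy : y.valid
  · simp only [wt, hy, if_true, false_imp_iff, and_self, dg]
    rw [sum_ind χ, Finset.mul_sum]
    refine Finset.sum_congr rfl fun i _ => ?_
    ring
  · simp [wt, hy]

theorem child_sum (x : ℝ≥0∞) (W : ℕ → ℝ≥0∞) (i : Fin 3) :
    (∑' y : Core 3 (3 * 3), ∑ d : ZMod (3 * 3), if y.valid ∧ y.pure ∧ ¬ (y = empty ∧ d.val = 0) then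
      W (mu y) * x ^ (co (ab y) d.val + 2) * ind (sg i) (ou (ab y) d.val) else 0) = H x W i := by
  have e : (if i = 0 then Nn W else 0) = ∑' c, if c = empty then 0 else
      wt True W (fun _ => if i = 0 then 1 else 0) c := by
    by_cases hi : i = 0
    · simp [hi, Nn]
    · simp [hi, wt]
  simp only [H, e, S, mul_add, Finset.mul_sum, ← ENNReal.tsum_mul_left]
  simp only [← Summable.tsum_finsetSum (fun _ _ => ENNReal.summable), ← ENNReal.tsum_add]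
  refine tsum_congr fun y => ?_
  rw [sum_zmod9 (fun v => if y.valid ∧ y.pure ∧ ¬ (y = empty ∧ v = 0) then
      W (mu y) * x ^ (co (ab y) v + 2) * ind (sg i) (ou (ab y) v) else 0),
    Finset.sum_range_succ', add_comm]
  congr 1
  · by_cases hy : y = empty
    · simp [hy]
    · by_cases hv : y.valid ∧ y.pure
      · have e1 : co (ab y) 0 = 0 := by simp [co, ar, cst]
        have e2 : ou (ab y) 0 = (0, 0) := by simp [ou, out]
        simp only [hy, hv.1, hv.2, wt, e1, e2]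
        fin_cases i <;> simp [ind, sg, mul_comm]
      · have : ¬ (y.valid ∧ y.pure ∧ ¬ (y = empty ∧ 0 = 0)) := fun h => hv ⟨h.1, h.2.1⟩
        rw [if_neg this]
        simp [wt, hv]
  · refine Finset.sum_congr rfl fun v _ => ?_
    by_cases hv : y.valid ∧ y.pure
    · simp only [hv.1, hv.2, wt, dg]
      simp
      ring
    · have : ¬ (y.valid ∧ y.pure ∧ ¬ (y = empty ∧ v + 1 = 0)) := fun h => hv ⟨h.1, h.2.1⟩
      rw [if_neg this]
      simp [wt, hv]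

theorem ext_sum (x : ℝ≥0∞) (b : Prop) (W : ℕ → ℝ≥0∞) (χ : ℕ × ℕ → ℝ≥0∞) :
    (∑' c : Core 3 (3 * 3), ∑ r : ZMod 3, if c.valid ∧ (b → c.pure) ∧ (c = empty ∨ r.val ≠ 0) then
      W (mu c) * x ^ ar r.val * χ (ab c + tr r.val) else 0) =
      W 0 * χ (0, 0) + x * (S b W (fun t => χ (t + (1, 0))) + S b W (fun t => χ (t + (0, 1)))) := by
  have e : W 0 * χ (0, 0) = ∑' c : Core 3 (3 * 3), if c = empty then W 0 * χ (0, 0) else 0 := by
    simp
  rw [e]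
  simp only [S, mul_add, ← ENNReal.tsum_mul_left, ← ENNReal.tsum_add]
  refine tsum_congr fun c => ?_
  rw [show (∑ r : ZMod 3, if c.valid ∧ (b → c.pure) ∧ (c = empty ∨ r.val ≠ 0) then
      W (mu c) * x ^ ar r.val * χ (ab c + tr r.val) else 0) = ∑ v ∈ Finset.range 3,
      if c.valid ∧ (b → c.pure) ∧ (c = empty ∨ v ≠ 0) then
      W (mu c) * x ^ ar v * χ (ab c + tr v) else 0 from Fin.sum_univ_eq_sum_range (fun v =>
        if c.valid ∧ (b → c.pure) ∧ (c = empty ∨ v ≠ 0) then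
        W (mu c) * x ^ ar v * χ (ab c + tr v) else 0) 3]
  simp only [Finset.sum_range_succ, Finset.sum_range_zero, zero_add, add_assoc]
  congr 1
  · by_cases hc : c = empty
    · simp [hc, valid, Core.pure, empty_data.1, empty_data.2, ar, tr]
    · simp [hc]
  · by_cases hc : c.valid ∧ (b → c.pure)
    · simp [wt, hc.1, ar, tr, if_pos hc.2]
      ring
    · have : ∀ v, ¬ (c.valid ∧ (b → c.pure) ∧ (c = empty ∨ v ≠ 0)) := fun v h => hc ⟨h.1, h.2.1⟩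
      simp only [if_neg (this _), wt, if_neg hc]
      simp

theorem node_sum (x : ℝ≥0∞) (b : Prop) (W : ℕ → ℝ≥0∞) (χ : ℕ × ℕ → ℝ≥0∞) :
    (∑' c : Core 3 (3 * 3), ∑' y : Core 3 (3 * 3), ∑ r : ZMod 3, ∑ d : ZMod (3 * 3),
      if (c.valid ∧ (b → c.pure) ∧ (c = empty ∨ r.val ≠ 0)) ∧
        (y.valid ∧ y.pure ∧ ¬ (y = empty ∧ d.val = 0)) then
      W (mu c) * W (mu y) * x ^ (ar r.val + (co (ab y) d.val + 1) + 1) *
        χ (ab c + tr r.val + ou (ab y) d.val) else 0) =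
    ∑ i, H x W i * (W 0 * χ (sg i) + x * (S b W (fun t => χ (t + (1, 0) + sg i)) +
      S b W (fun t => χ (t + (0, 1) + sg i)))) := by
  have e : ∀ i, W 0 * χ (sg i) + x * (S b W (fun t => χ (t + (1, 0) + sg i)) +
      S b W (fun t => χ (t + (0, 1) + sg i))) = (∑' c : Core 3 (3 * 3), ∑ r : ZMod 3,
        if c.valid ∧ (b → c.pure) ∧ (c = empty ∨ r.val ≠ 0) then
      W (mu c) * x ^ ar r.val * χ (ab c + tr r.val + sg i) else 0) := fun i => by
    have := ext_sum x b W (fun t => χ (t + sg i))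
    rw [show ((0, 0) : ℕ × ℕ) + sg i = sg i from zero_add _] at this
    exact this.symm
  simp only [e, ← ENNReal.tsum_mul_left]
  simp only [← child_sum, ← ENNReal.tsum_mul_right]
  simp only [← Summable.tsum_finsetSum (fun _ _ => ENNReal.summable)]
  refine tsum_congr fun c => tsum_congr fun y => ?_
  simp only [Finset.sum_mul, Finset.mul_sum]
  symm
  rw [Finset.sum_comm]
  refine Finset.sum_congr rfl fun r _ => ?_
  rw [Finset.sum_comm]
  refine Finset.sum_congr rfl fun d _ => ?_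
  by_cases h1 : c.valid ∧ (b → c.pure) ∧ (c = empty ∨ r.val ≠ 0)
  · by_cases h2 : y.valid ∧ y.pure ∧ ¬ (y = empty ∧ d.val = 0)
    · simp only [if_pos h1, if_pos h2, if_pos (And.intro h1 h2)]
      rw [sum_ind (fun t => χ (ab c + tr r.val + t)), Finset.mul_sum]
      refine Finset.sum_congr rfl fun i _ => ?_
      ring
    · simp only [if_neg h2, if_neg (fun h : _ ∧ _ => h2 h.2)]
      simp
  · simp only [if_neg h1, if_neg (fun h : _ ∧ _ => h1 h.1)]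
    simp

theorem wt_up (b : Prop) (W : ℕ → ℝ≥0∞) (χ : ℕ × ℕ → ℝ≥0∞) (y : Core 3 (3 * 3))
    (d : ZMod (3 * 3)) : wt b W χ (up y (d + (3 * sh o3 o3 y : ℤ))) =
      if y.valid ∧ ¬ b then W (mu y + (co (ab y) d.val + 1)) * χ (ou (ab y) d.val) else 0 := by
  simp only [wt, (up_data y d).1, (up_data y d).2, valid, Core.pure, imp_false]

theorem wt_node (b : Prop) (W : ℕ → ℝ≥0∞) (χ : ℕ × ℕ → ℝ≥0∞) (c y : Core 3 (3 * 3)) (r : ZMod 3)
    (d : ZMod (3 * 3)) : wt b W χ (node c r y (d + (3 * sh o3 o3 y : ℤ))) =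
      if (c.valid ∧ (b → c.pure) ∧ (c = empty ∨ r.val ≠ 0)) ∧
        (y.valid ∧ y.pure ∧ ¬ (y = empty ∧ d.val = 0)) then
      W (mu c + mu y + (ar r.val + (co (ab y) d.val + 1) + 1)) *
        χ (ab c + tr r.val + ou (ab y) d.val) else 0 := by
  simp only [wt, (node_data c r y d).1, (node_data c r y d).2, valid, Core.pure]
  have : (y = empty ∧ d + (3 * sh o3 o3 y : ℤ) = 0) ↔ (y = empty ∧ d.val = 0) := by
    by_cases hy : y = empty
    · simp [hy, sh_empty]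
    · simp [hy]
  refine if_congr ?_ rfl rfl
  rw [this]
  simp only [ne_eq, ZMod.val_eq_zero]
  tauto

theorem rest_le {x : ℝ≥0∞} (b : Prop) {W W' : ℕ → ℝ≥0∞} (χ : ℕ × ℕ → ℝ≥0∞)
    (h1 : ∀ n k, W (n + (k + 1)) ≤ W' n * x ^ (k + 1))
    (h2 : ∀ n n' k, W (n + n' + (k + 1)) ≤ W' n * W' n' * x ^ (k + 1)) :
    ((∑' y, ∑ d : ZMod (3 * 3), wt b W χ (up y (d + (3 * sh o3 o3 y : ℤ)))) +
      ∑' c, ∑' y, ∑ r : ZMod 3, ∑ d : ZMod (3 * 3),
        wt b W χ (node c r y (d + (3 * sh o3 o3 y : ℤ)))) ≤ Rh x b W' χ := by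
  rw [Rh, ← up_sum, ← node_sum]
  simp only [wt_up, wt_node]
  gcongr with y d _ c y r _ d _
  · split_ifs
    · gcongr; exact h1 _ _
    · exact le_rfl
  · split_ifs
    · gcongr; exact h2 _ _ _
    · exact le_rfl

theorem rest_eq (x : ℝ≥0∞) (b : Prop) (χ : ℕ × ℕ → ℝ≥0∞) :
    ((∑' y, ∑ d : ZMod (3 * 3), wt b (x ^ ·) χ (up y (d + (3 * sh o3 o3 y : ℤ)))) +
      ∑' c, ∑' y, ∑ r : ZMod 3, ∑ d : ZMod (3 * 3),
        wt b (x ^ ·) χ (node c r y (d + (3 * sh o3 o3 y : ℤ)))) = Rh x b (x ^ ·) χ := by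
  rw [Rh, ← up_sum, ← node_sum]
  simp only [wt_up, wt_node, pow_add x (mu _), pow_add x (mu _ + mu _)]

theorem wt_empty (b : Prop) (W : ℕ → ℝ≥0∞) (χ : ℕ × ℕ → ℝ≥0∞) :
    wt b W χ empty = W 0 * χ (0, 0) := by
  simp [wt, valid, Core.pure, empty_data.1, empty_data.2]

theorem S_eq (x : ℝ≥0∞) (b : Prop) (χ : ℕ × ℕ → ℝ≥0∞) :
    S b (x ^ ·) χ = χ (0, 0) + Rh x b (x ^ ·) χ := by
  rw [S, tsum_core, rest_eq, wt_empty]; simp

theorem Nn_eq (x : ℝ≥0∞) : Nn (x ^ ·) = Rh x True (x ^ ·) (fun _ => 1) := by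
  rw [Nn, tsum_core, ← rest_eq]; simp

/-- truncated powers -/
noncomputable def tp (x : ℝ≥0∞) (N n : ℕ) : ℝ≥0∞ := if n < N then x ^ n else 0

theorem tp_le1 (x : ℝ≥0∞) (N n k : ℕ) : tp x (N + 1) (n + (k + 1)) ≤ tp x N n * x ^ (k + 1) := by
  simp only [tp]
  split_ifs with h1 h2
  · rw [pow_add]
  · omega
  all_goals simp

theorem tp_le2 (x : ℝ≥0∞) (N n n' k : ℕ) :
    tp x (N + 1) (n + n' + (k + 1)) ≤ tp x N n * tp x N n' * x ^ (k + 1) := by
  simp only [tp]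
  by_cases h : n + n' + (k + 1) < N + 1
  · rw [if_pos h, if_pos (by omega), if_pos (by omega), pow_add, pow_add]
  · simp [h]

theorem tp_zero_le (x : ℝ≥0∞) (N : ℕ) : tp x N 0 ≤ 1 := by
  simp only [tp]; split_ifs <;> simp

theorem S_le (x : ℝ≥0∞) (b : Prop) (χ : ℕ × ℕ → ℝ≥0∞) (N : ℕ) :
    S b (tp x (N + 1)) χ ≤ χ (0, 0) + Rh x b (tp x N) χ := by
  rw [S, tsum_core, wt_empty]
  gcongr
  · simp [tp]
  · exact rest_le b χ (tp_le1 x N) (tp_le2 x N)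

theorem Nn_le (x : ℝ≥0∞) (N : ℕ) : Nn (tp x (N + 1)) ≤ Rh x True (tp x N) (fun _ => 1) := by
  rw [Nn, tsum_core]
  simpa using rest_le True (fun _ => 1) (tp_le1 x N) (tp_le2 x N)

theorem tsum_le_of_trunc {ι : Type} (x : ℝ≥0∞) (κ : ι → ℕ) (g : ι → ℝ≥0∞) {B : ℝ≥0∞}
    (h : ∀ N, ∑' c, tp x N (κ c) * g c ≤ B) : ∑' c, x ^ κ c * g c ≤ B := by
  rw [ENNReal.tsum_eq_iSup_sum]
  refine iSup_le fun s => le_trans ?_ ((ENNReal.sum_le_tsum s).trans (h (s.sup κ + 1)))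
  refine Finset.sum_le_sum fun c hc => ?_
  rw [tp, if_pos (Nat.lt_succ_of_le (Finset.le_sup hc))]

theorem S_le_of_trunc (x : ℝ≥0∞) (b : Prop) (χ : ℕ × ℕ → ℝ≥0∞) {B : ℝ≥0∞}
    (h : ∀ N, S b (tp x N) χ ≤ B) : S b (x ^ ·) χ ≤ B := by
  have e : ∀ W, S b W χ = ∑' c, W (mu c) * if c.valid ∧ (b → c.pure) then χ (ab c) else 0 := by
    intro W; simp [S, wt]
  simp only [e] at h ⊢
  exact tsum_le_of_trunc x _ _ h

theorem Nn_le_of_trunc (x : ℝ≥0∞) {B : ℝ≥0∞} (h : ∀ N, Nn (tp x N) ≤ B) : Nn (x ^ ·) ≤ B := by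
  have e : ∀ W, Nn W = ∑' c : Core 3 (3 * 3), W (mu c) *
      if c = empty then 0 else if c.valid ∧ c.pure then 1 else 0 := by
    intro W; simp [Nn, wt]
  simp only [e] at h ⊢
  exact tsum_le_of_trunc x _ _ h

/-- indicator of a truncated profile -/
noncomputable def iu (i j : ℕ) (t : ℕ × ℕ) : ℝ≥0∞ := if min t.1 2 = i ∧ min t.2 2 = j then 1 else 0

theorem S_lin (b : Prop) (W : ℕ → ℝ≥0∞) (χ : ℕ × ℕ → ℝ≥0∞)
    (h : ∀ t : ℕ × ℕ, χ t = χ (min t.1 2, min t.2 2)) :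
    S b W χ = ∑ i ∈ Finset.range 3, ∑ j ∈ Finset.range 3, χ (i, j) * S b W (iu i j) := by
  simp only [S, ← ENNReal.tsum_mul_left]
  simp only [← Summable.tsum_finsetSum (fun _ _ => ENNReal.summable)]
  refine tsum_congr fun c => ?_
  simp only [wt]
  split_ifs
  · rw [Finset.sum_eq_single (min (ab c).1 2), Finset.sum_eq_single (min (ab c).2 2), h]
    · simp [iu, mul_comm]
    · intro j _ hj
      simp [iu, hj.symm]
    · intro hj
      simp at hj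
    · intro i _ hi
      simp [iu, hi.symm]
    · intro hj
      simp at hj
  · simp

end Pool.Agent.MP_e0ec03_al

end MrgPart1

-- ======== part 2: formerly Pool.Agent.MP_e0ec03_al.Sys39
section MrgPart2

namespace Pool.Agent.MP_e0ec03_al

open Classical
open scoped ENNReal
open _root_.Pool.Agent.MP_e0ec03_al.Core

section poly

variable {R : Type} [CommSemiring R]

/-- total -/
def eT (y : ℕ → ℕ → R) : R := y 0 0 + y 0 1 + y 0 2 + y 1 0 + y 1 1 + y 1 2 + y 2 0 + y 2 1 + y 2 2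

/-- weights of the nonzero digits -/
def eL (x : R) (y : ℕ → ℕ → R) : Fin 3 → R := ![
  (2 * x + 2 * x ^ 2 + 2 * x ^ 3) * y 0 0 + (3 * x + 3 * x ^ 2) * y 0 1 + (3 * x + 2 * x ^ 2) * y 0 2 + (3 * x + 3 * x ^ 2) * y 1 0 + (4 * x + 2 * x ^ 2) * y 1 1 + (3 * x + x ^ 2) * y 1 2 + (3 * x + 2 * x ^ 2) * y 2 0 + (3 * x + x ^ 2) * y 2 1 + (2 * x) * y 2 2,
  (x ^ 4) * y 0 0 + (x ^ 3) * y 0 1 + (x ^ 2 + x ^ 3) * y 0 2 + (x ^ 3) * y 1 0 + (x ^ 2) * y 1 1 + (x ^ 2) * y 1 2 + (x ^ 2) * y 2 0 + (x + 2 * x ^ 2) * y 2 1 + (x + 2 * x ^ 2) * y 2 2,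
  (x ^ 4) * y 0 0 + (x ^ 3) * y 0 1 + (x ^ 2) * y 0 2 + (x ^ 3) * y 1 0 + (x ^ 2) * y 1 1 + (x + 2 * x ^ 2) * y 1 2 + (x ^ 2 + x ^ 3) * y 2 0 + (x ^ 2) * y 2 1 + (x + 2 * x ^ 2) * y 2 2]

/-- hanging children -/
def eH (x n : R) (y : ℕ → ℕ → R) : Fin 3 → R :=
  ![x ^ 2 * (n + eL x y 0), x ^ 2 * eL x y 1, x ^ 2 * eL x y 2]

/-- ascending children -/
def eG (x : R) (y : ℕ → ℕ → R) : Fin 3 → R :=
  ![x * (eT y + eL x y 0), x * eL x y 1, x * eL x y 2]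

/-- recursion for the cores ending with an excursion -/
def eR (x : R) (h : Fin 3 → R) (y : ℕ → ℕ → R) : ℕ → ℕ → R
  | 0, 0 => h 0
  | 0, 1 => h 0 * (x * (y 0 0)) + h 2
  | 0, 2 => h 0 * (x * (y 0 1 + y 0 2)) + h 2 * (x * (y 0 0 + y 0 1 + y 0 2))
  | 1, 0 => h 0 * (x * (y 0 0)) + h 1
  | 1, 1 => h 0 * (x * (y 0 1 + y 1 0)) + h 1 * (x * (y 0 0)) + h 2 * (x * (y 0 0))
  | 1, 2 => h 0 * (x * (y 0 2 + y 1 1 + y 1 2)) + h 1 * (x * (y 0 1 + y 0 2)) + h 2 * (x * (y 0 1 + y 0 2 + y 1 0 + y 1 1 + y 1 2))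
  | 2, 0 => h 0 * (x * (y 1 0 + y 2 0)) + h 1 * (x * (y 0 0 + y 1 0 + y 2 0))
  | 2, 1 => h 0 * (x * (y 1 1 + y 2 0 + y 2 1)) + h 1 * (x * (y 0 1 + y 1 0 + y 1 1 + y 2 0 + y 2 1)) + h 2 * (x * (y 1 0 + y 2 0))
  | 2, 2 => h 0 * (x * (y 1 2 + y 2 1 + 2 * y 2 2)) + h 1 * (x * (y 0 2 + y 1 1 + 2 * y 1 2 + y 2 1 + 2 * y 2 2)) + h 2 * (x * (y 1 1 + y 1 2 + y 2 0 + 2 * y 2 1 + 2 * y 2 2))
  | _, _ => 0

/-- recursion for the first letter -/
def eC (c : R) (g : Fin 3 → R) : ℕ → ℕ → R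
  | 0, 0 => c + g 0
  | 1, 0 => g 1
  | 0, 1 => g 2
  | _, _ => 0

/-- recursion for nonempty cores -/
def eN (x : R) (h : Fin 3 → R) (y : ℕ → ℕ → R) : R := (h 0 + h 1 + h 2) * (1 + 2 * x * eT y)

end poly

theorem co_trunc (t : ℕ × ℕ) (v : ℕ) : co t v = co (min t.1 2, min t.2 2) v := by
  simp only [co, cst, Prod.fst_add, Prod.snd_add]
  split_ifs <;> omega

theorem ou_trunc (t : ℕ × ℕ) (v : ℕ) : ou t v = ou (min t.1 2, min t.2 2) v := by
  simp only [ou, out, Prod.fst_add, Prod.snd_add]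
  split_ifs <;> first | rfl | omega

theorem dg_trunc (x : ℝ≥0∞) (σ : ℕ × ℕ) (v : ℕ) (t : ℕ × ℕ) :
    dg x σ v t = dg x σ v (min t.1 2, min t.2 2) := by
  rw [dg, dg, co_trunc, ou_trunc]

theorem iu_trunc (i j : ℕ) (c d t : ℕ × ℕ) :
    iu i j (t + c + d) = iu i j ((min t.1 2, min t.2 2) + c + d) := by
  simp only [iu, Prod.fst_add, Prod.snd_add]
  refine if_congr ?_ rfl rfl
  omega

theorem S_one (b : Prop) (W : ℕ → ℝ≥0∞) : S b W (fun _ => 1) = eT (fun i j => S b W (iu i j)) := by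
  rw [S_lin b W _ (fun _ => rfl)]
  simp only [Finset.sum_range_succ, Finset.sum_range_zero, eT]
  ring

theorem L_eq (x : ℝ≥0∞) (b : Prop) (W : ℕ → ℝ≥0∞) (k : Fin 3) :
    ∑ v ∈ Finset.range 8, S b W (dg x (sg k) (v + 1)) = eL x (fun i j => S b W (iu i j)) k := by
  simp only [fun v => S_lin b W _ (dg_trunc x (sg k) v)]
  fin_cases k <;>
    simp [Finset.sum_range_succ, eL, dg, co, ou, ar, cst, out, tr, ind, sg] <;> ring

theorem H_eq (x : ℝ≥0∞) (W : ℕ → ℝ≥0∞) :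
    H x W = eH x (Nn W) (fun i j => S True W (iu i j)) := by
  ext k
  rw [H, L_eq]
  fin_cases k <;> simp [eH]

theorem G_eq (x : ℝ≥0∞) (W : ℕ → ℝ≥0∞) : G x W = eG x (fun i j => S False W (iu i j)) := by
  ext k
  rw [G, Finset.sum_range_succ', L_eq]
  have : dg x (sg k) 0 = fun _ => if k = 0 then 1 else 0 := by
    ext t
    fin_cases k <;> simp [dg, co, ou, ar, cst, out, ind, sg]
  rw [this]
  fin_cases k
  · simp [eG, S_one, add_comm]
  · simp [eG, S, wt]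
  · simp [eG, S, wt]

theorem R_core (x : ℝ≥0∞) (b : Prop) (W : ℕ → ℝ≥0∞) (h : Fin 3 → ℝ≥0∞) {i j : ℕ} (hi : i < 3)
    (hj : j < 3) : ∑ k, h k * (iu i j (sg k) + x * (S b W (fun t => iu i j (t + (1, 0) + sg k)) +
      S b W (fun t => iu i j (t + (0, 1) + sg k)))) = eR x h (fun i j => S b W (iu i j)) i j := by
  simp only [fun c d => S_lin b W _ (iu_trunc i j c d)]
  interval_cases i <;> interval_cases j <;>
    simp [Finset.sum_range_succ, Fin.sum_univ_three, eR, iu, sg] <;> ring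

theorem C_core (b : Prop) (g : Fin 3 → ℝ≥0∞) {i j : ℕ} (hi : i < 3) (hj : j < 3) :
    iu i j (0, 0) + (if b then 0 else ∑ k, g k * iu i j (sg k)) =
      eC 1 (if b then 0 else g) i j := by
  by_cases hb : b <;> interval_cases i <;> interval_cases j <;>
    simp [hb, eC, iu, Fin.sum_univ_three, sg]

theorem Y_le (x : ℝ≥0∞) (b : Prop) (N : ℕ) {i j : ℕ} (hi : i < 3) (hj : j < 3) :
    S b (tp x (N + 1)) (iu i j) ≤ eC 1 (if b then 0 else G x (tp x N)) i j +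
      eR x (H x (tp x N)) (fun i j => S b (tp x N) (iu i j)) i j := by
  refine (S_le x b _ N).trans ?_
  rw [Rh, ← add_assoc, C_core b _ hi hj, ← R_core x b _ _ hi hj]
  gcongr
  exact mul_le_of_le_one_left' (tp_zero_le x N)

theorem Y_eq (x : ℝ≥0∞) (b : Prop) {i j : ℕ} (hi : i < 3) (hj : j < 3) :
    S b (x ^ ·) (iu i j) = eC 1 (if b then 0 else G x (x ^ ·)) i j +
      eR x (H x (x ^ ·)) (fun i j => S b (x ^ ·) (iu i j)) i j := by
  rw [S_eq, Rh, ← add_assoc, C_core b _ hi hj, ← R_core x b _ _ hi hj]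
  simp

theorem N_le (x : ℝ≥0∞) (N : ℕ) :
    Nn (tp x (N + 1)) ≤ eN x (H x (tp x N)) (fun i j => S True (tp x N) (iu i j)) := by
  refine (Nn_le x N).trans ?_
  simp only [Rh, if_true, zero_add, S_one, mul_one, eN, Fin.sum_univ_three]
  have := tp_zero_le x N
  generalize tp x N 0 = w at *
  calc _ ≤ H x (tp x N) 0 * (1 + _) + H x (tp x N) 1 * (1 + _) + H x (tp x N) 2 * (1 + _) := by
        gcongr
    _ = _ := by ring

theorem N_eq (x : ℝ≥0∞) :
    Nn (x ^ ·) = eN x (H x (x ^ ·)) (fun i j => S True (x ^ ·) (iu i j)) := by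
  rw [Nn_eq]
  simp only [Rh, if_true, zero_add, S_one, mul_one, eN, Fin.sum_univ_three, pow_zero]
  ring

/-- comparison of the nine entries -/
def Le9 (y y' : ℕ → ℕ → ℝ≥0∞) : Prop := ∀ i < 3, ∀ j < 3, y i j ≤ y' i j

theorem eT_mono {y y' : ℕ → ℕ → ℝ≥0∞} (h : Le9 y y') : eT y ≤ eT y' := by
  simp only [eT]
  gcongr <;> exact h _ (by norm_num) _ (by norm_num)

theorem eL_mono (x : ℝ≥0∞) {y y' : ℕ → ℕ → ℝ≥0∞} (h : Le9 y y') (k : Fin 3) :
    eL x y k ≤ eL x y' k := by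
  fin_cases k <;> simp only [eL, Fin.zero_eta, Fin.mk_one, Fin.reduceFinMk, Matrix.cons_val] <;>
    gcongr <;> exact h _ (by norm_num) _ (by norm_num)

theorem eH_mono (x : ℝ≥0∞) {n n' : ℝ≥0∞} (hn : n ≤ n') {y y' : ℕ → ℕ → ℝ≥0∞} (h : Le9 y y')
    (k : Fin 3) : eH x n y k ≤ eH x n' y' k := by
  fin_cases k <;> simp only [eH, Fin.zero_eta, Fin.mk_one, Fin.reduceFinMk, Matrix.cons_val] <;>
    gcongr <;> exact eL_mono x h _

theorem eG_mono (x : ℝ≥0∞) {y y' : ℕ → ℕ → ℝ≥0∞} (h : Le9 y y') (k : Fin 3) :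
    eG x y k ≤ eG x y' k := by
  have := eT_mono h
  fin_cases k <;> simp only [eG, Fin.zero_eta, Fin.mk_one, Fin.reduceFinMk, Matrix.cons_val] <;>
    gcongr <;> exact eL_mono x h _

theorem eR_mono (x : ℝ≥0∞) {g g' : Fin 3 → ℝ≥0∞} (hg : ∀ k, g k ≤ g' k) {y y' : ℕ → ℕ → ℝ≥0∞}
    (h : Le9 y y') : Le9 (eR x g y) (eR x g' y') := by
  intro i hi j hj
  interval_cases i <;> interval_cases j <;> simp only [eR] <;>
    first | exact hg _ | (gcongr <;> first | exact hg _ | exact h _ (by norm_num) _ (by norm_num))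

theorem eC_mono {g g' : Fin 3 → ℝ≥0∞} (hg : ∀ k, g k ≤ g' k) : Le9 (eC 1 g) (eC 1 g') := by
  intro i hi j hj
  interval_cases i <;> interval_cases j <;> simp only [eC] <;>
    first | exact hg _ | exact le_rfl | (gcongr; exact hg _)

theorem eN_mono (x : ℝ≥0∞) {g g' : Fin 3 → ℝ≥0∞} (hg : ∀ k, g k ≤ g' k) {y y' : ℕ → ℕ → ℝ≥0∞}
    (h : Le9 y y') : eN x g y ≤ eN x g' y' := by
  have := eT_mono h
  simp only [eN]
  gcongr <;> exact hg _

theorem S_tp_zero (x : ℝ≥0∞) (b : Prop) (χ : ℕ × ℕ → ℝ≥0∞) : S b (tp x 0) χ = 0 := by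
  simp [S, wt, tp]

theorem super_pure_trunc (x n : ℝ≥0∞) (y : ℕ → ℕ → ℝ≥0∞)
    (hY : Le9 (fun i j => eC 1 0 i j + eR x (eH x n y) y i j) y) (hN : eN x (eH x n y) y ≤ n)
    (N : ℕ) : Le9 (fun i j => S True (tp x N) (iu i j)) y ∧ Nn (tp x N) ≤ n := by
  induction N with
  | zero => exact ⟨fun i _ j _ => by simp [S_tp_zero], by simp [Nn, wt, tp]⟩
  | succ N ih =>
    have h1 : ∀ k, H x (tp x N) k ≤ eH x n y k := fun k => by
      rw [H_eq]; exact eH_mono x ih.2 ih.1 k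
    refine ⟨fun i hi j hj => (Y_le x True N hi hj).trans (le_trans ?_ (hY i hi j hj)),
      (N_le x N).trans ((eN_mono x h1 ih.1).trans hN)⟩
    rw [if_pos trivial]
    exact add_le_add le_rfl (eR_mono x h1 ih.1 i hi j hj)

theorem super_pure (x n : ℝ≥0∞) (y : ℕ → ℕ → ℝ≥0∞)
    (hY : Le9 (fun i j => eC 1 0 i j + eR x (eH x n y) y i j) y) (hN : eN x (eH x n y) y ≤ n) :
    Le9 (fun i j => S True (x ^ ·) (iu i j)) y ∧ Nn (x ^ ·) ≤ n :=
  ⟨fun i hi j hj => S_le_of_trunc x _ _ fun N => (super_pure_trunc x n y hY hN N).1 i hi j hj,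
    Nn_le_of_trunc x fun N => (super_pure_trunc x n y hY hN N).2⟩

theorem super_all (x n : ℝ≥0∞) (y z : ℕ → ℕ → ℝ≥0∞)
    (hY : Le9 (fun i j => eC 1 0 i j + eR x (eH x n y) y i j) y) (hN : eN x (eH x n y) y ≤ n)
    (hZ : Le9 (fun i j => eC 1 (eG x z) i j + eR x (eH x n y) z i j) z) :
    Le9 (fun i j => S False (x ^ ·) (iu i j)) z := by
  have key : ∀ N, Le9 (fun i j => S False (tp x N) (iu i j)) z := by
    intro N
    induction N with
    | zero => exact fun i _ j _ => by simp [S_tp_zero]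
    | succ N ih =>
      have h0 := super_pure_trunc x n y hY hN N
      have h1 : ∀ k, H x (tp x N) k ≤ eH x n y k := fun k => by
        rw [H_eq]; exact eH_mono x h0.2 h0.1 k
      have h2 : ∀ k, G x (tp x N) k ≤ eG x z k := fun k => by
        rw [G_eq]; exact eG_mono x ih k
      refine fun i hi j hj => (Y_le x False N hi hj).trans (le_trans ?_ (hZ i hi j hj))
      rw [if_neg not_false]
      exact add_le_add (eC_mono h2 i hi j hj) (eR_mono x h1 ih i hi j hj)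
  exact fun i hi j hj => S_le_of_trunc x _ _ fun N => key N i hi j hj

/-- pure sums -/
noncomputable def Yp (x : ℝ≥0∞) (i j : ℕ) : ℝ≥0∞ := S True (x ^ ·) (iu i j)

/-- all sums -/
noncomputable def Za (x : ℝ≥0∞) (i j : ℕ) : ℝ≥0∞ := S False (x ^ ·) (iu i j)

theorem Yp_eq (x : ℝ≥0∞) {i j : ℕ} (hi : i < 3) (hj : j < 3) :
    Yp x i j = eC 1 0 i j + eR x (eH x (Nn (x ^ ·)) (Yp x)) (Yp x) i j := by
  have := Y_eq x True hi hj
  rwa [if_pos trivial, H_eq] at this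

theorem Np_eq (x : ℝ≥0∞) : Nn (x ^ ·) = eN x (eH x (Nn (x ^ ·)) (Yp x)) (Yp x) := by
  have := N_eq x
  rwa [H_eq] at this

theorem Za_eq (x : ℝ≥0∞) {i j : ℕ} (hi : i < 3) (hj : j < 3) :
    Za x i j = eC 1 (eG x (Za x)) i j + eR x (eH x (Nn (x ^ ·)) (Yp x)) (Za x) i j := by
  have := Y_eq x False hi hj
  rwa [if_neg not_false, H_eq, G_eq] at this

section swap

variable {R : Type} [CommSemiring R]

theorem eT_swap (y : ℕ → ℕ → R) : eT (fun i j => y j i) = eT y := by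
  simp only [eT]; ring

theorem eL_swap (x : R) (y : ℕ → ℕ → R) :
    eL x (fun i j => y j i) = ![eL x y 0, eL x y 2, eL x y 1] := by
  ext k
  fin_cases k <;> simp [eL] <;> ring

theorem eH_swap (x n : R) (y : ℕ → ℕ → R) :
    eH x n (fun i j => y j i) = ![eH x n y 0, eH x n y 2, eH x n y 1] := by
  simp [eH, eL_swap]

theorem eG_swap (x : R) (y : ℕ → ℕ → R) :
    eG x (fun i j => y j i) = ![eG x y 0, eG x y 2, eG x y 1] := by
  simp [eG, eL_swap, eT_swap]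

theorem eR_swap (x : R) (h : Fin 3 → R) (y : ℕ → ℕ → R) {i j : ℕ} (hi : i < 3) (hj : j < 3) :
    eR x ![h 0, h 2, h 1] (fun i j => y j i) i j = eR x h y j i := by
  interval_cases i <;> interval_cases j <;> simp [eR] <;> ring

theorem eC_swap (h : Fin 3 → R) {i j : ℕ} (hi : i < 3) (hj : j < 3) :
    eC 1 ![h 0, h 2, h 1] i j = eC 1 h j i := by
  interval_cases i <;> interval_cases j <;> simp [eC]

theorem eC_zero_swap {i j : ℕ} (hi : i < 3) (hj : j < 3) :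
    eC (1 : R) 0 i j = eC 1 0 j i := by
  interval_cases i <;> interval_cases j <;> simp [eC]

theorem eN_swap (x : R) (h : Fin 3 → R) (y : ℕ → ℕ → R) :
    eN x ![h 0, h 2, h 1] (fun i j => y j i) = eN x h y := by
  simp [eN, eT_swap]; ring

end swap

theorem swap_hyp (x : ℝ≥0∞) :
    Le9 (fun i j => eC 1 0 i j + eR x (eH x (Nn (x ^ ·)) (fun i j => Yp x j i))
      (fun i j => Yp x j i) i j) (fun i j => Yp x j i) ∧
    eN x (eH x (Nn (x ^ ·)) (fun i j => Yp x j i)) (fun i j => Yp x j i) ≤ Nn (x ^ ·) := by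
  refine ⟨fun i hi j hj => ?_, ?_⟩
  · simp only
    rw [eH_swap, eR_swap _ _ _ hi hj, eC_zero_swap hi hj, ← Yp_eq x hj hi]
  · rw [eH_swap, eN_swap, ← Np_eq]

theorem Yp_symm (x : ℝ≥0∞) {i j : ℕ} (hi : i < 3) (hj : j < 3) : Yp x i j = Yp x j i := by
  have := (super_pure x _ _ (swap_hyp x).1 (swap_hyp x).2).1
  exact le_antisymm (this i hi j hj) (this j hj i hi)

theorem Za_symm (x : ℝ≥0∞) {i j : ℕ} (hi : i < 3) (hj : j < 3) : Za x i j = Za x j i := by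
  have := super_all x _ _ (fun i j => Za x j i) (swap_hyp x).1 (swap_hyp x).2 (fun i hi j hj => by
    simp only
    rw [eH_swap, eR_swap _ _ _ hi hj, eG_swap, eC_swap _ hi hj, ← Za_eq x hj hi])
  exact le_antisymm (this i hi j hj) (this j hj i hi)

end Pool.Agent.MP_e0ec03_al

end MrgPart2

-- ======== part 3: formerly Pool.Agent.MP_e0ec03_al.Real39
section MrgPart3

namespace Pool.Agent.MP_e0ec03_al

open Classical Filter Topology
open scoped ENNReal NNReal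
open _root_.Pool.Agent.MP_e0ec03_al.Core

section map

variable {R R' : Type} [CommSemiring R] [CommSemiring R'] (f : R →+* R')

theorem map_eT (y : ℕ → ℕ → R) : f (eT y) = eT (fun i j => f (y i j)) := by simp [eT]

theorem map_eL (x : R) (y : ℕ → ℕ → R) (k : Fin 3) :
    f (eL x y k) = eL (f x) (fun i j => f (y i j)) k := by
  fin_cases k <;> simp [eL, map_ofNat]

theorem map_eH (x n : R) (y : ℕ → ℕ → R) :
    (fun k => f (eH x n y k)) = eH (f x) (f n) (fun i j => f (y i j)) := by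
  ext k
  fin_cases k <;> simp [eH, map_eL]

theorem map_eG (x : R) (y : ℕ → ℕ → R) :
    (fun k => f (eG x y k)) = eG (f x) (fun i j => f (y i j)) := by
  ext k
  fin_cases k <;> simp [eG, map_eL, map_eT]

theorem map_eR (x : R) (h : Fin 3 → R) (y : ℕ → ℕ → R) {i j : ℕ} (hi : i < 3) (hj : j < 3) :
    f (eR x h y i j) = eR (f x) (fun k => f (h k)) (fun i j => f (y i j)) i j := by
  interval_cases i <;> interval_cases j <;> simp [eR, map_ofNat]

theorem map_eC (h : Fin 3 → R) {i j : ℕ} (hi : i < 3) (hj : j < 3) :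
    f (eC 1 h i j) = eC 1 (fun k => f (h k)) i j := by
  interval_cases i <;> interval_cases j <;> simp [eC]

theorem map_eC0 {i j : ℕ} (hi : i < 3) (hj : j < 3) : f (eC 1 0 i j) = eC 1 0 i j := by
  interval_cases i <;> interval_cases j <;> simp [eC]

theorem map_eN (x : R) (h : Fin 3 → R) (y : ℕ → ℕ → R) :
    f (eN x h y) = eN (f x) (fun k => f (h k)) (fun i j => f (y i j)) := by
  simp [eN, map_eT, map_ofNat]

end map

theorem S_big (b : Prop) (W : ℕ → ℝ≥0∞) {i j : ℕ} (h : ¬ (i < 3 ∧ j < 3)) :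
    S b W (iu i j) = 0 := by
  have : iu i j = fun _ => 0 := by
    ext t
    rw [iu, if_neg (by omega)]
  simp [S, wt, this]

/-- all pure sums are finite -/
def FinP (x : ℝ≥0) : Prop := (∀ i j, Yp x i j ≠ ∞) ∧ Nn ((x : ℝ≥0∞) ^ ·) ≠ ∞

/-- all sums are finite -/
def FinA (x : ℝ≥0) : Prop := ∀ i j, Za x i j ≠ ∞

theorem finP_of_super (x n : ℝ≥0) (y : ℕ → ℕ → ℝ≥0)
    (hY : ∀ i < 3, ∀ j < 3, eC 1 0 i j + eR x (eH x n y) y i j ≤ y i j)
    (hN : eN x (eH x n y) y ≤ n) : FinP x := by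
  have := super_pure x n (fun i j => y i j) (fun i hi j hj => by
    have := ENNReal.coe_le_coe.2 (hY i hi j hj)
    change ENNReal.ofNNRealHom _ ≤ _ at this
    rwa [map_add, map_eC0 _ hi hj, map_eR _ _ _ _ hi hj, map_eH] at this) (by
    have := ENNReal.coe_le_coe.2 hN
    change ENNReal.ofNNRealHom _ ≤ _ at this
    rwa [map_eN, map_eH] at this)
  refine ⟨fun i j => ?_, ne_top_of_le_ne_top ENNReal.coe_ne_top this.2⟩
  by_cases h : i < 3 ∧ j < 3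
  · exact ne_top_of_le_ne_top ENNReal.coe_ne_top (this.1 i h.1 j h.2)
  · simp [Yp, S_big _ _ h]

theorem finA_of_super (x n : ℝ≥0) (y z : ℕ → ℕ → ℝ≥0)
    (hY : ∀ i < 3, ∀ j < 3, eC 1 0 i j + eR x (eH x n y) y i j ≤ y i j)
    (hN : eN x (eH x n y) y ≤ n)
    (hZ : ∀ i < 3, ∀ j < 3, eC 1 (eG x z) i j + eR x (eH x n y) z i j ≤ z i j) : FinA x := by
  have := super_all x n (fun i j => y i j) (fun i j => z i j) (fun i hi j hj => by
    have := ENNReal.coe_le_coe.2 (hY i hi j hj)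
    change ENNReal.ofNNRealHom _ ≤ _ at this
    rwa [map_add, map_eC0 _ hi hj, map_eR _ _ _ _ hi hj, map_eH] at this) (by
    have := ENNReal.coe_le_coe.2 hN
    change ENNReal.ofNNRealHom _ ≤ _ at this
    rwa [map_eN, map_eH] at this) (fun i hi j hj => by
    have := ENNReal.coe_le_coe.2 (hZ i hi j hj)
    change ENNReal.ofNNRealHom _ ≤ _ at this
    rwa [map_add, map_eC _ _ hi hj, map_eR _ _ _ _ hi hj, map_eH, map_eG] at this)
  intro i j
  by_cases h : i < 3 ∧ j < 3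
  · exact ne_top_of_le_ne_top ENNReal.coe_ne_top (this i h.1 j h.2)
  · simp [Za, S_big _ _ h]

theorem wt_mono {x x' : ℝ≥0∞} (h : x ≤ x') (b : Prop) (χ : ℕ × ℕ → ℝ≥0∞) (c : Core 3 (3 * 3)) :
    wt b (x ^ ·) χ c ≤ wt b (x' ^ ·) χ c := by
  simp only [wt]
  split_ifs
  · gcongr
  · exact le_rfl

theorem FinP.mono {x x' : ℝ≥0} (h : FinP x') (hx : x ≤ x') : FinP x := by
  have hx' : (x : ℝ≥0∞) ≤ x' := ENNReal.coe_le_coe.2 hx
  refine ⟨fun i j => ne_top_of_le_ne_top (h.1 i j) (ENNReal.tsum_le_tsum fun c => wt_mono hx' _ _ c),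
    ne_top_of_le_ne_top h.2 (ENNReal.tsum_le_tsum fun c => ?_)⟩
  split_ifs
  · exact le_rfl
  · exact wt_mono hx' _ _ c

/-- real pure sums -/
noncomputable def yr (x : ℝ) (i j : ℕ) : ℝ := (Yp x.toNNReal i j).toReal
/-- real nonempty sum -/
noncomputable def nn (x : ℝ) : ℝ := (Nn ((x.toNNReal : ℝ≥0∞) ^ ·)).toReal
/-- real sums -/
noncomputable def zr (x : ℝ) (i j : ℕ) : ℝ := (Za x.toNNReal i j).toReal

theorem real_pure {x : ℝ} (hx : 0 ≤ x) (h : FinP x.toNNReal) :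
    (∀ i < 3, ∀ j < 3, yr x i j = eC 1 0 i j + eR x (eH x (nn x) (yr x)) (yr x) i j) ∧
      nn x = eN x (eH x (nn x) (yr x)) (yr x) := by
  have e1 : Yp x.toNNReal = fun i j => ENNReal.ofNNRealHom (Yp x.toNNReal i j).toNNReal := by
    ext i j; exact (ENNReal.coe_toNNReal (h.1 i j)).symm
  have e2 : Nn ((x.toNNReal : ℝ≥0∞) ^ ·) =
      ENNReal.ofNNRealHom (Nn ((x.toNNReal : ℝ≥0∞) ^ ·)).toNNReal :=
    (ENNReal.coe_toNNReal h.2).symm
  have e3 : NNReal.toRealHom x.toNNReal = x := Real.coe_toNNReal x hx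
  refine ⟨fun i hi j hj => ?_, ?_⟩
  · have h1 := Yp_eq x.toNNReal hi hj
    rw [e1, e2] at h1
    change ENNReal.ofNNRealHom _ = _ + eR (ENNReal.ofNNRealHom _) (eH (ENNReal.ofNNRealHom _) _ _)
      _ _ _ at h1
    rw [← map_eH, ← map_eR _ _ _ _ hi hj, ← map_eC0 ENNReal.ofNNRealHom hi hj, ← map_add] at h1
    have h2 := congrArg NNReal.toRealHom (ENNReal.coe_injective h1)
    rw [map_add, map_eC0 _ hi hj, map_eR _ _ _ _ hi hj, map_eH, e3] at h2
    exact h2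
  · have h1 := Np_eq x.toNNReal
    rw [e1, e2] at h1
    change ENNReal.ofNNRealHom _ = eN (ENNReal.ofNNRealHom _) (eH (ENNReal.ofNNRealHom _) _ _)
      _ at h1
    rw [← map_eH, ← map_eN] at h1
    have h2 := congrArg NNReal.toRealHom (ENNReal.coe_injective h1)
    rw [map_eN, map_eH, e3] at h2
    exact h2

theorem real_all {x : ℝ} (hx : 0 ≤ x) (h : FinP x.toNNReal) (h' : FinA x.toNNReal) :
    ∀ i < 3, ∀ j < 3, zr x i j = eC 1 (eG x (zr x)) i j +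
      eR x (eH x (nn x) (yr x)) (zr x) i j := by
  have e1 : Yp x.toNNReal = fun i j => ENNReal.ofNNRealHom (Yp x.toNNReal i j).toNNReal := by
    ext i j; exact (ENNReal.coe_toNNReal (h.1 i j)).symm
  have e1' : Za x.toNNReal = fun i j => ENNReal.ofNNRealHom (Za x.toNNReal i j).toNNReal := by
    ext i j; exact (ENNReal.coe_toNNReal (h' i j)).symm
  have e2 : Nn ((x.toNNReal : ℝ≥0∞) ^ ·) =
      ENNReal.ofNNRealHom (Nn ((x.toNNReal : ℝ≥0∞) ^ ·)).toNNReal :=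
    (ENNReal.coe_toNNReal h.2).symm
  have e3 : NNReal.toRealHom x.toNNReal = x := Real.coe_toNNReal x hx
  intro i hi j hj
  have h1 := Za_eq x.toNNReal hi hj
  rw [e1, e1', e2] at h1
  change ENNReal.ofNNRealHom _ = eC 1 (eG (ENNReal.ofNNRealHom _) _) _ _ +
    eR (ENNReal.ofNNRealHom _) (eH (ENNReal.ofNNRealHom _) _ _) _ _ _ at h1
  rw [← map_eH, ← map_eR _ _ _ _ hi hj, ← map_eG, ← map_eC ENNReal.ofNNRealHom _ hi hj,
    ← map_add] at h1
  have h2 := congrArg NNReal.toRealHom (ENNReal.coe_injective h1)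
  rw [map_add, map_eC _ _ hi hj, map_eR _ _ _ _ hi hj, map_eH, map_eG, e3] at h2
  exact h2

theorem S_cnt (X : ℝ≥0∞) : S False (X ^ ·) (fun _ => 1) = ∑' n, (cnt 3 (3 * 3) n : ℝ≥0∞) * X ^ n := by
  have e : ∀ c, wt False (X ^ ·) (fun _ => 1) c =
      ∑' n, if c.valid ∧ mu c = n then X ^ n else 0 := by
    intro c
    rw [tsum_eq_single (mu c) (fun n hn => if_neg fun h => hn h.2.symm)]
    simp [wt]
  simp only [S, e]
  rw [ENNReal.tsum_comm]
  refine tsum_congr fun n => ?_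
  have hf : {c : Core 3 (3 * 3) | c.valid ∧ mu c = n}.Finite :=
    (cores_finite (by norm_num) n).subset fun c hc => ⟨hc.1, hc.2.le⟩
  rw [tsum_eq_sum (s := hf.toFinset) (fun c hc => if_neg (by simpa using hc)),
    Finset.sum_congr rfl (fun c hc => if_pos (by simpa using hc)), Finset.sum_const, cnt,
    Set.ncard_eq_toFinset_card _ hf, nsmul_eq_mul]

theorem eT_Za (X : ℝ≥0∞) : eT (Za X) = ∑' n, (cnt 3 (3 * 3) n : ℝ≥0∞) * X ^ n := by
  rw [← S_cnt, S_one]; rfl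

theorem finA_of_summable {x : ℝ} (hx : 0 ≤ x)
    (h : Summable (fun n => (cnt 3 (3 * 3) n : ℝ) * x ^ n)) : FinA x.toNNReal := by
  have h1 := ENNReal.ofReal_tsum_of_nonneg (fun n => by positivity) h
  have h2 : eT (Za x.toNNReal) ≠ ∞ := by
    rw [eT_Za]
    have : ∀ n, ENNReal.ofReal ((cnt 3 (3 * 3) n : ℝ) * x ^ n) =
        (cnt 3 (3 * 3) n : ℝ≥0∞) * (x.toNNReal : ℝ≥0∞) ^ n := by
      intro n
      rw [ENNReal.ofReal_mul (by positivity), ENNReal.ofReal_pow hx, ENNReal.ofReal_natCast]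
      rfl
    simp only [this] at h1
    rw [← h1]
    exact ENNReal.ofReal_ne_top
  intro i j
  by_cases hij : i < 3 ∧ j < 3
  · obtain ⟨hi, hj⟩ := hij
    simp only [eT, ne_eq, ENNReal.add_eq_top, not_or] at h2
    interval_cases i <;> interval_cases j <;> tauto
  · simp [Za, S_big _ _ hij]

theorem summable_of_finA {x : ℝ} (hx : 0 ≤ x) (h : FinA x.toNNReal) :
    HasSum (fun n => (cnt 3 (3 * 3) n : ℝ) * x ^ n) (eT (zr x)) := by
  have h2 : eT (Za x.toNNReal) ≠ ∞ := by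
    simp only [eT, ne_eq, ENNReal.add_eq_top, not_or]
    simp [h _ _]
  have e : eT (zr x) = (eT (Za x.toNNReal)).toReal := by
    simp only [eT, zr]
    repeat rw [ENNReal.toReal_add]
    all_goals simp [h _ _]
  rw [e]
  rw [eT_Za] at h2 ⊢
  have := ENNReal.hasSum_toReal h2
  rw [← ENNReal.tsum_toReal_eq (fun n => by finiteness)] at this
  simpa [Real.coe_toNNReal x hx] using this

theorem finP_of_finA {x : ℝ≥0} (h : FinA x) : FinP x := by
  have h1 : ∀ χ c, wt True ((x : ℝ≥0∞) ^ ·) χ c ≤ wt False ((x : ℝ≥0∞) ^ ·) χ c := by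
    intro χ c
    simp only [wt]
    by_cases hc : c.valid
    · simp only [hc, true_and, false_imp_iff, if_true]
      split_ifs <;> simp
    · simp [hc]
  refine ⟨fun i j => ne_top_of_le_ne_top (h i j) (ENNReal.tsum_le_tsum fun c => h1 _ c), ?_⟩
  have h2 : S False ((x : ℝ≥0∞) ^ ·) (fun _ => 1) ≠ ∞ := by
    rw [S_one]
    change eT (Za x) ≠ ∞
    simp only [eT, ne_eq, ENNReal.add_eq_top, not_or]
    simp [h _ _]
  refine ne_top_of_le_ne_top h2 (ENNReal.tsum_le_tsum fun c => ?_)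
  split_ifs
  · simp
  · exact h1 _ c

theorem analytic_sum {ι : Type} (g : ι → Prop) [DecidablePred g] (κ : ι → ℕ) {x1 x : ℝ} (hx : 0 < x) (hx1 : x < x1)
    (h : (∑' c, if g c then (x1.toNNReal : ℝ≥0∞) ^ κ c else 0) ≠ ∞) :
    AnalyticAt ℝ (fun y : ℝ => (∑' c, if g c then (y.toNNReal : ℝ≥0∞) ^ κ c else 0).toReal) x := by
  have e : ∀ y : ℝ, 0 ≤ y → ∀ c, (if g c then (y.toNNReal : ℝ≥0∞) ^ κ c else 0).toReal =
      if g c then y ^ κ c else 0 := by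
    intro y hy c
    split_ifs <;> simp [Real.coe_toNNReal y hy]
  have h1 := ENNReal.summable_toReal h
  simp only [e x1 (by linarith)] at h1
  have h2 : DifferentiableOn ℂ (fun w : ℂ => ∑' c, if g c then w ^ κ c else 0)
      (Metric.ball 0 x1) := by
    refine Complex.differentiableOn_tsum_of_summable_norm h1 (fun c => ?_) Metric.isOpen_ball
      (fun c w hw => ?_)
    · split_ifs <;> fun_prop
    · have : ‖w‖ ≤ x1 := by simpa using (mem_ball_zero_iff.1 hw).le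
      split_ifs
      · rw [norm_pow]; gcongr
      · simp
  have h3 := h2.analyticAt (z := (x : ℂ)) (Metric.isOpen_ball.mem_nhds (by
    simpa [abs_of_pos hx] using hx1))
  have h4 := (Complex.reCLM.analyticAt _).comp
    ((h3.restrictScalars (𝕜 := ℝ)).comp (Complex.ofRealCLM.analyticAt x))
  refine h4.congr ?_
  filter_upwards [lt_mem_nhds hx] with y hy
  rw [ENNReal.tsum_toReal_eq (fun c => by split_ifs <;> finiteness)]
  simp only [e y hy.le, Function.comp, Complex.reCLM_apply]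
  have : ∀ c, (if g c then (y : ℂ) ^ κ c else 0) = ((if g c then y ^ κ c else 0 : ℝ) : ℂ) := by
    intro c
    split_ifs <;> simp
  simp only [this]
  rw [← Complex.ofReal_tsum, Complex.ofReal_re]

theorem analytic_yr {x1 x : ℝ} (hx : 0 < x) (hx1 : x < x1) (h : FinP x1.toNNReal) (i j : ℕ) :
    AnalyticAt ℝ (fun y => yr y i j) x := by
  have e : ∀ X : ℝ≥0∞, Yp X i j = ∑' c : Core 3 (3 * 3), if (c.valid ∧ c.pure) ∧
      (min (ab c).1 2 = i ∧ min (ab c).2 2 = j) then X ^ mu c else 0 := by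
    intro X
    refine tsum_congr fun c => ?_
    simp only [wt, iu, true_imp_iff, ite_and]
    split_ifs <;> simp
  have h1 := h.1 i j
  rw [e] at h1
  simp only [yr, e]
  exact analytic_sum _ _ hx hx1 h1

theorem analytic_nn {x1 x : ℝ} (hx : 0 < x) (hx1 : x < x1) (h : FinP x1.toNNReal) :
    AnalyticAt ℝ nn x := by
  have e : ∀ X : ℝ≥0∞, Nn (X ^ ·) = ∑' c : Core 3 (3 * 3), if ¬ c = empty ∧ (c.valid ∧ c.pure)
      then X ^ mu c else 0 := by
    intro X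
    refine tsum_congr fun c => ?_
    simp only [wt, true_imp_iff, ite_and]
    split_ifs <;> simp
  have h1 := h.2
  rw [e] at h1
  unfold nn
  simp only [e]
  exact analytic_sum _ _ hx hx1 h1

end Pool.Agent.MP_e0ec03_al

end MrgPart3

-- ======== part 4: formerly Pool.Agent.MP_e0ec03_al.Solve39
section MrgPart4

namespace Pool.Agent.MP_e0ec03_al

/-- the symmetric linear system -/
def Sym (A B c0 c1 a b c d e f : ℝ) : Prop :=
  a = c0 ∧ b = A * a + c1 ∧ c = A * (b + c) + B * (a + b + c) ∧ d = 2 * A * b + 2 * B * a ∧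
    e = A * (c + d + e) + B * (b + c) + B * (2 * b + c + d + e) ∧
    f = A * (2 * e + 2 * f) + 2 * B * (c + d + 3 * e + 2 * f)

/-- total -/
def tot (a b c d e f : ℝ) : ℝ := a + 2 * b + 2 * c + d + 2 * e + f

/-- first linear form -/
def l0 (x a b c d e f : ℝ) : ℝ :=
  (2 * x + 2 * x ^ 2 + 2 * x ^ 3) * a + 2 * (3 * x + 3 * x ^ 2) * b + 2 * (3 * x + 2 * x ^ 2) * c +
    (4 * x + 2 * x ^ 2) * d + 2 * (3 * x + x ^ 2) * e + 2 * x * f

/-- second linear form -/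
def l1 (x a b c d e f : ℝ) : ℝ :=
  x ^ 4 * a + 2 * x ^ 3 * b + (2 * x ^ 2 + x ^ 3) * c + x ^ 2 * d + (x + 3 * x ^ 2) * e +
    (x + 2 * x ^ 2) * f

/-- transfer matrix -/
noncomputable def T00 (x U V : ℝ) : ℝ :=
  x * ((1 + 2 * x) / V + 2 * x * ((1 + x) / U - 1 + (x / U + (1 + x) * (1 - V) / (2 * U ^ 2)) -
    (x + 2 * (1 - U) - (1 - V) / 2)) + 2 * x ^ 3)
/-- transfer matrix -/
noncomputable def T01 (x U V : ℝ) : ℝ :=
  x * (2 * ((1 + 2 * x) / V) + 2 * x * (2 * ((1 + x) / U) +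
    (x / U + (1 + x) * (1 - V) / (2 * U ^ 2)) - 1))
/-- transfer matrix -/
noncomputable def T10 (x U V : ℝ) : ℝ :=
  x * (x * ((1 + 2 * x) / V - 2 * ((1 + x) / U) - (x / U + (1 + x) * (1 - V) / (2 * U ^ 2)) + 1 +
    (x + 2 * (1 - U) - (1 - V) / 2)) + x ^ 2 * ((1 + x) / U - 1 - (x + 2 * (1 - U) - (1 - V) / 2)) +
    x ^ 3 * (x + 2 * (1 - U) - (1 - V) / 2))
/-- transfer matrix -/
noncomputable def T11 (x U V : ℝ) : ℝ :=
  x * (x * (2 * ((1 + 2 * x) / V) - 3 * ((1 + x) / U) -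
    (x / U + (1 + x) * (1 - V) / (2 * U ^ 2)) + 1) + x ^ 2 * ((1 + x) / U - 1) + x ^ 3)

theorem solve {x U V A B c0 c1 a b c d e f : ℝ} (hU : U = 1 - (A + B)) (hV : V = 1 - 2 * (A + 2 * B))
    (hU0 : U ≠ 0) (hV0 : V ≠ 0) (h : Sym A B c0 c1 a b c d e f) :
    x * (tot a b c d e f + l0 x a b c d e f) = T00 x U V * c0 + T01 x U V * c1 ∧
    x * l1 x a b c d e f = T10 x U V * c0 + T11 x U V * c1 ∧
    tot a b c d e f = (c0 + 2 * c1) / V := by
  obtain ⟨h1, h2, h3, h4, h5, h6⟩ := h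
  have hA : A = 2 * (1 - U) - (1 - V) / 2 := by rw [hU, hV]; ring
  have hB : B = (1 - V) / 2 - (1 - U) := by rw [hU, hV]; ring
  have e3 : c = (A * b + B * (a + b)) / U := by
    rw [eq_div_iff hU0, hU]; linarith
  have e5 : e = (A * (c + d) + B * (3 * b + 2 * c + d)) / U := by
    rw [eq_div_iff hU0, hU]; linarith
  have e6 : f = (2 * A * e + 2 * B * (c + d + 3 * e)) / V := by
    rw [eq_div_iff hV0, hV]; linarith
  clear h3 h5 h6 hU hV
  subst e6 e5 h4 e3 h2 h1 hA hB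
  simp only [tot, l0, l1, T00, T01, T10, T11]
  refine ⟨?_, ?_, ?_⟩ <;> field_simp <;> ring

/-- weight of hanging children without small slope -/
noncomputable def h0 (x : ℝ) : ℝ := eH x (nn x) (yr x) 0
/-- weight of hanging children with one small slope -/
noncomputable def h1 (x : ℝ) : ℝ := eH x (nn x) (yr x) 1

theorem yr_symm (x : ℝ) {i j : ℕ} (hi : i < 3) (hj : j < 3) : yr x i j = yr x j i := by
  rw [yr, yr, Yp_symm _ hi hj]

theorem zr_symm (x : ℝ) {i j : ℕ} (hi : i < 3) (hj : j < 3) : zr x i j = zr x j i := by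
  rw [zr, zr, Za_symm _ hi hj]

theorem sym_forms (x : ℝ) (y : ℕ → ℕ → ℝ) (h1 : y 1 0 = y 0 1) (h2 : y 2 0 = y 0 2)
    (h3 : y 2 1 = y 1 2) :
    eT y = tot (y 0 0) (y 0 1) (y 0 2) (y 1 1) (y 1 2) (y 2 2) ∧
    eL x y 0 = l0 x (y 0 0) (y 0 1) (y 0 2) (y 1 1) (y 1 2) (y 2 2) ∧
    eL x y 1 = l1 x (y 0 0) (y 0 1) (y 0 2) (y 1 1) (y 1 2) (y 2 2) ∧
    eL x y 2 = l1 x (y 0 0) (y 0 1) (y 0 2) (y 1 1) (y 1 2) (y 2 2) := by
  simp only [eT, eL, tot, l0, l1, h1, h2, h3, Matrix.cons_val]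
  refine ⟨?_, ?_, ?_, ?_⟩ <;> ring

theorem sym_sys (x : ℝ) (h g : Fin 3 → ℝ) (hh : h 2 = h 1) (hg : g 2 = g 1) (y : ℕ → ℕ → ℝ)
    (h1 : y 1 0 = y 0 1) (h2 : y 2 0 = y 0 2) (h3 : y 2 1 = y 1 2)
    (hy : ∀ i < 3, ∀ j < 3, y i j = eC 1 g i j + eR x h y i j) :
    Sym (x * h 0) (x * h 1) (1 + g 0 + h 0) (g 1 + h 1)
      (y 0 0) (y 0 1) (y 0 2) (y 1 1) (y 1 2) (y 2 2) := by
  have i1 := hy 0 (by norm_num) 0 (by norm_num)
  have i2 := hy 0 (by norm_num) 1 (by norm_num)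
  have i3 := hy 0 (by norm_num) 2 (by norm_num)
  have i4 := hy 1 (by norm_num) 1 (by norm_num)
  have i5 := hy 1 (by norm_num) 2 (by norm_num)
  have i6 := hy 2 (by norm_num) 2 (by norm_num)
  simp only [eC, eR, hh, hg, h1, h2, h3] at i1 i2 i3 i4 i5 i6
  refine ⟨by linarith, by linarith, by linarith, by linarith, by linarith, by linarith⟩

theorem pure_facts {x : ℝ} (hx : 0 ≤ x) (h : FinP x.toNNReal) :
    Sym (x * h0 x) (x * h1 x) (1 + h0 x) (h1 x)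
      (yr x 0 0) (yr x 0 1) (yr x 0 2) (yr x 1 1) (yr x 1 2) (yr x 2 2) ∧
    h0 x = x ^ 2 * (nn x +
      l0 x (yr x 0 0) (yr x 0 1) (yr x 0 2) (yr x 1 1) (yr x 1 2) (yr x 2 2)) ∧
    h1 x = x ^ 2 * l1 x (yr x 0 0) (yr x 0 1) (yr x 0 2) (yr x 1 1) (yr x 1 2) (yr x 2 2) ∧
    nn x = (h0 x + 2 * h1 x) *
      (1 + 2 * x * tot (yr x 0 0) (yr x 0 1) (yr x 0 2) (yr x 1 1) (yr x 1 2) (yr x 2 2)) := by
  have s1 := yr_symm x (i := 1) (j := 0) (by norm_num) (by norm_num)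
  have s2 := yr_symm x (i := 2) (j := 0) (by norm_num) (by norm_num)
  have s3 := yr_symm x (i := 2) (j := 1) (by norm_num) (by norm_num)
  obtain ⟨f1, f2, f3, f4⟩ := sym_forms x (yr x) s1 s2 s3
  have hh : eH x (nn x) (yr x) 2 = eH x (nn x) (yr x) 1 := by simp [eH, f3, f4]
  obtain ⟨r1, r2⟩ := real_pure hx h
  refine ⟨?_, by simp [h0, eH, f2], by simp [h1, eH, f3], ?_⟩
  · have := sym_sys x _ 0 hh rfl (yr x) s1 s2 s3 r1
    simpa [h0, h1] using this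
  · rw [eN, hh, f1] at r2
    rw [h0, h1]
    linarith

theorem all_facts {x : ℝ} (hx : 0 ≤ x) (h : FinA x.toNNReal) :
    Sym (x * h0 x) (x * h1 x)
      (1 + x * (tot (zr x 0 0) (zr x 0 1) (zr x 0 2) (zr x 1 1) (zr x 1 2) (zr x 2 2) +
        l0 x (zr x 0 0) (zr x 0 1) (zr x 0 2) (zr x 1 1) (zr x 1 2) (zr x 2 2)) + h0 x)
      (x * l1 x (zr x 0 0) (zr x 0 1) (zr x 0 2) (zr x 1 1) (zr x 1 2) (zr x 2 2) + h1 x)
      (zr x 0 0) (zr x 0 1) (zr x 0 2) (zr x 1 1) (zr x 1 2) (zr x 2 2) ∧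
    eT (zr x) = tot (zr x 0 0) (zr x 0 1) (zr x 0 2) (zr x 1 1) (zr x 1 2) (zr x 2 2) := by
  have s1 := yr_symm x (i := 1) (j := 0) (by norm_num) (by norm_num)
  have s2 := yr_symm x (i := 2) (j := 0) (by norm_num) (by norm_num)
  have s3 := yr_symm x (i := 2) (j := 1) (by norm_num) (by norm_num)
  obtain ⟨-, -, f3, f4⟩ := sym_forms x (yr x) s1 s2 s3
  have hh : eH x (nn x) (yr x) 2 = eH x (nn x) (yr x) 1 := by simp [eH, f3, f4]
  have t1 := zr_symm x (i := 1) (j := 0) (by norm_num) (by norm_num)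
  have t2 := zr_symm x (i := 2) (j := 0) (by norm_num) (by norm_num)
  have t3 := zr_symm x (i := 2) (j := 1) (by norm_num) (by norm_num)
  obtain ⟨g1, g2, g3, g4⟩ := sym_forms x (zr x) t1 t2 t3
  have hg : eG x (zr x) 2 = eG x (zr x) 1 := by simp [eG, g3, g4]
  refine ⟨?_, g1⟩
  have := sym_sys x _ _ hh hg (zr x) t1 t2 t3 (real_all hx (finP_of_finA h) h)
  simpa [h0, h1, eG, g1, g2, g3] using this

theorem analytic_h {x1 x : ℝ} (hx : 0 < x) (hx1 : x < x1) (h : FinP x1.toNNReal) :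
    AnalyticAt ℝ h0 x ∧ AnalyticAt ℝ h1 x := by
  have a1 := analytic_yr hx hx1 h
  have a2 := analytic_nn hx hx1 h
  have a00 := a1 0 0
  have a01 := a1 0 1
  have a02 := a1 0 2
  have a10 := a1 1 0
  have a11 := a1 1 1
  have a12 := a1 1 2
  have a20 := a1 2 0
  have a21 := a1 2 1
  have a22 := a1 2 2
  unfold h0 h1
  simp only [eH, eL, Matrix.cons_val]
  constructor <;> fun_prop

end Pool.Agent.MP_e0ec03_al

end MrgPart4

-- ======== part 5: formerly Pool.Agent.MP_e0ec03_al.Num39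
section MrgPart5

namespace Pool.Agent.MP_e0ec03_al

open scoped NNReal

/-- numerical supersolution -/
noncomputable def y1 : ℕ → ℕ → ℝ≥0
  | 0, 0 => 6868483 / 5000000
  | 0, 1 => 1873799 / 10000000
  | 0, 2 => 41739 / 1250000
  | 1, 0 => 1873799 / 10000000
  | 1, 1 => 141999 / 2500000
  | 1, 2 => 158531 / 10000000
  | 2, 0 => 41739 / 1250000
  | 2, 1 => 158531 / 10000000
  | 2, 2 => 16937 / 2500000
  | _, _ => 0

/-- numerical supersolution -/
noncomputable def y0 : ℕ → ℕ → ℝ≥0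
  | 0, 0 => 121233 / 100000
  | 0, 1 => 8933 / 100000
  | 0, 2 => 831 / 100000
  | 1, 0 => 8933 / 100000
  | 1, 1 => 761 / 50000
  | 1, 2 => 107 / 50000
  | 2, 0 => 831 / 100000
  | 2, 1 => 107 / 50000
  | 2, 2 => 43 / 100000
  | _, _ => 0

/-- numerical supersolution -/
noncomputable def z0 : ℕ → ℕ → ℝ≥0
  | 0, 0 => 672607 / 100000
  | 0, 1 => 27487 / 50000
  | 0, 2 => 5193 / 100000
  | 1, 0 => 27487 / 50000
  | 1, 1 => 1899 / 20000
  | 1, 2 => 43 / 3125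
  | 2, 0 => 5193 / 100000
  | 2, 1 => 43 / 3125
  | 2, 2 => 57 / 20000
  | _, _ => 0

theorem finP_x1 : FinP (3488 / 10000 : ℝ).toNNReal := by
  have e : (3488 / 10000 : ℝ).toNNReal = 3488 / 10000 := by
    ext; rw [Real.coe_toNNReal _ (by norm_num)]; push_cast; rfl
  rw [e]
  refine finP_of_super _ (910519 / 1000000) y1 (fun i hi j hj => ?_) ?_
  · interval_cases i <;> interval_cases j <;> rw [← NNReal.coe_le_coe] <;>
      simp only [eC, eR, eH, eG, eL, eN, eT, y1, y0, z0, Matrix.cons_val, Pi.zero_apply] <;>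
      push_cast <;> norm_num
  · rw [← NNReal.coe_le_coe] <;>
      simp only [eC, eR, eH, eG, eL, eN, eT, y1, y0, z0, Matrix.cons_val, Pi.zero_apply] <;>
      push_cast <;> norm_num

theorem finA_x0 : FinA (1 / 3 : ℝ).toNNReal := by
  have e : (1 / 3 : ℝ).toNNReal = 1 / 3 := by
    ext; rw [Real.coe_toNNReal _ (by norm_num)]; push_cast; rfl
  rw [e]
  refine finA_of_super _ (42751 / 100000) y0 z0 (fun i hi j hj => ?_) ?_ (fun i hi j hj => ?_)
  · interval_cases i <;> interval_cases j <;> rw [← NNReal.coe_le_coe] <;>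
      simp only [eC, eR, eH, eG, eL, eN, eT, y1, y0, z0, Matrix.cons_val, Pi.zero_apply] <;>
      push_cast <;> norm_num
  · rw [← NNReal.coe_le_coe] <;>
      simp only [eC, eR, eH, eG, eL, eN, eT, y1, y0, z0, Matrix.cons_val, Pi.zero_apply] <;>
      push_cast <;> norm_num
  · interval_cases i <;> interval_cases j <;> rw [← NNReal.coe_le_coe] <;>
      simp only [eC, eR, eH, eG, eL, eN, eT, y1, y0, z0, Matrix.cons_val, Pi.zero_apply] <;>
      push_cast <;> norm_num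

theorem step0 {p q n a b c d e f : ℝ}
    (hs : Sym (3487 / 10000 * p) (3487 / 10000 * q) (1 + p) q a b c d e f)
    (hp : p = (3487 / 10000) ^ 2 * (n + l0 (3487 / 10000) a b c d e f))
    (hq : q = (3487 / 10000) ^ 2 * l1 (3487 / 10000) a b c d e f)
    (hn : n = (p + 2 * q) * (1 + 2 * (3487 / 10000) * tot a b c d e f))
    (h : 0 / 1 ≤ p ∧ 0 / 1 ≤ q ∧ 0 / 1 ≤ a ∧ 0 / 1 ≤ b ∧ 0 / 1 ≤ c ∧ 0 / 1 ≤ d ∧ 0 / 1 ≤ e ∧ 0 / 1 ≤ f) :
    16689 / 100000 ≤ p ∧ 211 / 100000 ≤ q ∧ 116589 / 100000 ≤ a ∧ 211 / 100000 ≤ b ∧ 0 / 1 ≤ c ∧ 0 / 1 ≤ d ∧ 0 / 1 ≤ e ∧ 0 / 1 ≤ f := by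
  obtain ⟨s1, s2, s3, s4, s5, s6⟩ := hs
  obtain ⟨ip, iq, ia, ib, ic, id, ie, ig⟩ := h
  simp only [l0, l1, tot] at hp hq hn
  have := mul_nonneg (sub_nonneg.2 ip) (sub_nonneg.2 ia)
  have := mul_nonneg (sub_nonneg.2 ip) (sub_nonneg.2 ib)
  have := mul_nonneg (sub_nonneg.2 ip) (sub_nonneg.2 ic)
  have := mul_nonneg (sub_nonneg.2 ip) (sub_nonneg.2 id)
  have := mul_nonneg (sub_nonneg.2 ip) (sub_nonneg.2 ie)
  have := mul_nonneg (sub_nonneg.2 ip) (sub_nonneg.2 ig)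
  have := mul_nonneg (sub_nonneg.2 iq) (sub_nonneg.2 ia)
  have := mul_nonneg (sub_nonneg.2 iq) (sub_nonneg.2 ib)
  have := mul_nonneg (sub_nonneg.2 iq) (sub_nonneg.2 ic)
  have := mul_nonneg (sub_nonneg.2 iq) (sub_nonneg.2 id)
  have := mul_nonneg (sub_nonneg.2 iq) (sub_nonneg.2 ie)
  have := mul_nonneg (sub_nonneg.2 iq) (sub_nonneg.2 ig)
  refine ⟨?_, ?_, ?_, ?_, ?_, ?_, ?_, ?_⟩ <;> linarith

theorem step1 {p q n a b c d e f : ℝ}
    (hs : Sym (3487 / 10000 * p) (3487 / 10000 * q) (1 + p) q a b c d e f)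
    (hp : p = (3487 / 10000) ^ 2 * (n + l0 (3487 / 10000) a b c d e f))
    (hq : q = (3487 / 10000) ^ 2 * l1 (3487 / 10000) a b c d e f)
    (hn : n = (p + 2 * q) * (1 + 2 * (3487 / 10000) * tot a b c d e f))
    (h : 16689 / 100000 ≤ p ∧ 211 / 100000 ≤ q ∧ 116589 / 100000 ≤ a ∧ 211 / 100000 ≤ b ∧ 0 / 1 ≤ c ∧ 0 / 1 ≤ d ∧ 0 / 1 ≤ e ∧ 0 / 1 ≤ f) :
    6961 / 25000 ≤ p ∧ 439 / 100000 ≤ q ∧ 3992 / 3125 ≤ a ∧ 2483 / 20000 ≤ b ∧ 123 / 12500 ≤ c ∧ 367 / 20000 ≤ d ∧ 207 / 100000 ≤ e ∧ 33 / 100000 ≤ f := by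
  obtain ⟨s1, s2, s3, s4, s5, s6⟩ := hs
  obtain ⟨ip, iq, ia, ib, ic, id, ie, ig⟩ := h
  simp only [l0, l1, tot] at hp hq hn
  have := mul_nonneg (sub_nonneg.2 ip) (sub_nonneg.2 ia)
  have := mul_nonneg (sub_nonneg.2 ip) (sub_nonneg.2 ib)
  have := mul_nonneg (sub_nonneg.2 ip) (sub_nonneg.2 ic)
  have := mul_nonneg (sub_nonneg.2 ip) (sub_nonneg.2 id)
  have := mul_nonneg (sub_nonneg.2 ip) (sub_nonneg.2 ie)
  have := mul_nonneg (sub_nonneg.2 ip) (sub_nonneg.2 ig)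
  have := mul_nonneg (sub_nonneg.2 iq) (sub_nonneg.2 ia)
  have := mul_nonneg (sub_nonneg.2 iq) (sub_nonneg.2 ib)
  have := mul_nonneg (sub_nonneg.2 iq) (sub_nonneg.2 ic)
  have := mul_nonneg (sub_nonneg.2 iq) (sub_nonneg.2 id)
  have := mul_nonneg (sub_nonneg.2 iq) (sub_nonneg.2 ie)
  have := mul_nonneg (sub_nonneg.2 iq) (sub_nonneg.2 ig)
  refine ⟨?_, ?_, ?_, ?_, ?_, ?_, ?_, ?_⟩ <;> linarith

theorem step2 {p q n a b c d e f : ℝ}
    (hs : Sym (3487 / 10000 * p) (3487 / 10000 * q) (1 + p) q a b c d e f)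
    (hp : p = (3487 / 10000) ^ 2 * (n + l0 (3487 / 10000) a b c d e f))
    (hq : q = (3487 / 10000) ^ 2 * l1 (3487 / 10000) a b c d e f)
    (hn : n = (p + 2 * q) * (1 + 2 * (3487 / 10000) * tot a b c d e f))
    (h : 6961 / 25000 ≤ p ∧ 439 / 100000 ≤ q ∧ 3992 / 3125 ≤ a ∧ 2483 / 20000 ≤ b ∧ 123 / 12500 ≤ c ∧ 367 / 20000 ≤ d ∧ 207 / 100000 ≤ e ∧ 33 / 100000 ≤ f) :
    8269 / 25000 ≤ p ∧ 641 / 100000 ≤ q ∧ 8311 / 6250 ≤ a ∧ 3179 / 20000 ≤ b ∧ 587 / 25000 ≤ c ∧ 413 / 10000 ≤ d ∧ 887 / 100000 ≤ e ∧ 267 / 100000 ≤ f := by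
  obtain ⟨s1, s2, s3, s4, s5, s6⟩ := hs
  obtain ⟨ip, iq, ia, ib, ic, id, ie, ig⟩ := h
  simp only [l0, l1, tot] at hp hq hn
  have := mul_nonneg (sub_nonneg.2 ip) (sub_nonneg.2 ia)
  have := mul_nonneg (sub_nonneg.2 ip) (sub_nonneg.2 ib)
  have := mul_nonneg (sub_nonneg.2 ip) (sub_nonneg.2 ic)
  have := mul_nonneg (sub_nonneg.2 ip) (sub_nonneg.2 id)
  have := mul_nonneg (sub_nonneg.2 ip) (sub_nonneg.2 ie)
  have := mul_nonneg (sub_nonneg.2 ip) (sub_nonneg.2 ig)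
  have := mul_nonneg (sub_nonneg.2 iq) (sub_nonneg.2 ia)
  have := mul_nonneg (sub_nonneg.2 iq) (sub_nonneg.2 ib)
  have := mul_nonneg (sub_nonneg.2 iq) (sub_nonneg.2 ic)
  have := mul_nonneg (sub_nonneg.2 iq) (sub_nonneg.2 id)
  have := mul_nonneg (sub_nonneg.2 iq) (sub_nonneg.2 ie)
  have := mul_nonneg (sub_nonneg.2 iq) (sub_nonneg.2 ig)
  refine ⟨?_, ?_, ?_, ?_, ?_, ?_, ?_, ?_⟩ <;> linarith

theorem step3 {p q n a b c d e f : ℝ}
    (hs : Sym (3487 / 10000 * p) (3487 / 10000 * q) (1 + p) q a b c d e f)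
    (hp : p = (3487 / 10000) ^ 2 * (n + l0 (3487 / 10000) a b c d e f))
    (hq : q = (3487 / 10000) ^ 2 * l1 (3487 / 10000) a b c d e f)
    (hn : n = (p + 2 * q) * (1 + 2 * (3487 / 10000) * tot a b c d e f))
    (h : 8269 / 25000 ≤ p ∧ 641 / 100000 ≤ q ∧ 8311 / 6250 ≤ a ∧ 3179 / 20000 ≤ b ∧ 587 / 25000 ≤ c ∧ 413 / 10000 ≤ d ∧ 887 / 100000 ≤ e ∧ 267 / 100000 ≤ f) :
    1104 / 3125 ≤ p ∧ 741 / 100000 ≤ q ∧ 33807 / 25000 ≤ a ∧ 8699 / 50000 ≤ b ∧ 1443 / 50000 ≤ c ∧ 993 / 20000 ≤ d ∧ 51 / 4000 ≤ e ∧ 61 / 12500 ≤ f := by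
  obtain ⟨s1, s2, s3, s4, s5, s6⟩ := hs
  obtain ⟨ip, iq, ia, ib, ic, id, ie, ig⟩ := h
  simp only [l0, l1, tot] at hp hq hn
  have := mul_nonneg (sub_nonneg.2 ip) (sub_nonneg.2 ia)
  have := mul_nonneg (sub_nonneg.2 ip) (sub_nonneg.2 ib)
  have := mul_nonneg (sub_nonneg.2 ip) (sub_nonneg.2 ic)
  have := mul_nonneg (sub_nonneg.2 ip) (sub_nonneg.2 id)
  have := mul_nonneg (sub_nonneg.2 ip) (sub_nonneg.2 ie)
  have := mul_nonneg (sub_nonneg.2 ip) (sub_nonneg.2 ig)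
  have := mul_nonneg (sub_nonneg.2 iq) (sub_nonneg.2 ia)
  have := mul_nonneg (sub_nonneg.2 iq) (sub_nonneg.2 ib)
  have := mul_nonneg (sub_nonneg.2 iq) (sub_nonneg.2 ic)
  have := mul_nonneg (sub_nonneg.2 iq) (sub_nonneg.2 id)
  have := mul_nonneg (sub_nonneg.2 iq) (sub_nonneg.2 ie)
  have := mul_nonneg (sub_nonneg.2 iq) (sub_nonneg.2 ig)
  refine ⟨?_, ?_, ?_, ?_, ?_, ?_, ?_, ?_⟩ <;> linarith

theorem all_contra {p q a b c d e f : ℝ} (ip : 1104 / 3125 ≤ p) (iq : 741 / 100000 ≤ q)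
    (hs : Sym (3487 / 10000 * p) (3487 / 10000 * q)
      (1 + 3487 / 10000 * (tot a b c d e f + l0 (3487 / 10000) a b c d e f) + p)
      (3487 / 10000 * l1 (3487 / 10000) a b c d e f + q) a b c d e f)
    (ia : 0 ≤ a) (ib : 0 ≤ b) (ic : 0 ≤ c) (id : 0 ≤ d) (ie : 0 ≤ e) (ig : 0 ≤ f) : False := by
  obtain ⟨s1, s2, s3, s4, s5, s6⟩ := hs
  simp only [l0, l1, tot] at s1 s2
  have := mul_nonneg (sub_nonneg.2 ip) ia
  have := mul_nonneg (sub_nonneg.2 ip) ib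
  have := mul_nonneg (sub_nonneg.2 ip) ic
  have := mul_nonneg (sub_nonneg.2 ip) id
  have := mul_nonneg (sub_nonneg.2 ip) ie
  have := mul_nonneg (sub_nonneg.2 ip) ig
  have := mul_nonneg (sub_nonneg.2 iq) ia
  have := mul_nonneg (sub_nonneg.2 iq) ib
  have := mul_nonneg (sub_nonneg.2 iq) ic
  have := mul_nonneg (sub_nonneg.2 iq) id
  have := mul_nonneg (sub_nonneg.2 iq) ie
  have := mul_nonneg (sub_nonneg.2 iq) ig
  linarith

theorem h_nonneg {x : ℝ} (hx : 0 ≤ x) : 0 ≤ h0 x ∧ 0 ≤ h1 x := by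
  have h : ∀ i j, 0 ≤ yr x i j := fun i j => ENNReal.toReal_nonneg
  have h' : 0 ≤ nn x := ENNReal.toReal_nonneg
  have a00 := h 0 0
  have a01 := h 0 1
  have a02 := h 0 2
  have a10 := h 1 0
  have a11 := h 1 1
  have a12 := h 1 2
  have a20 := h 2 0
  have a21 := h 2 1
  have a22 := h 2 2
  simp only [h0, h1, eH, eL, Matrix.cons_val]
  constructor <;> positivity

theorem not_finA : ¬ FinA (3487 / 10000 : ℝ).toNNReal := by
  intro h
  have hx : (0 : ℝ) ≤ 3487 / 10000 := by norm_num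
  obtain ⟨f1, f2, f3, f4⟩ := pure_facts hx (finP_of_finA h)
  have y : ∀ i j, 0 ≤ yr (3487 / 10000) i j := fun i j => ENNReal.toReal_nonneg
  have z : ∀ i j, 0 ≤ zr (3487 / 10000) i j := fun i j => ENNReal.toReal_nonneg
  have i0 := step0 f1 f2 f3 f4 (by simp [y, h_nonneg hx])
  have i3 := step3 f1 f2 f3 f4 (step2 f1 f2 f3 f4 (step1 f1 f2 f3 f4 i0))
  exact all_contra i3.1 i3.2.1 (all_facts hx h).1 (z _ _) (z _ _) (z _ _) (z _ _) (z _ _) (z _ _)

end Pool.Agent.MP_e0ec03_al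

end MrgPart5

-- ======== part 6: formerly Pool.Agent.MP_e0ec03_al.Main39
section MrgPart6

namespace Pool.Agent.MP_e0ec03_al

open Filter Topology

/-- first denominator -/
noncomputable def UU (x : ℝ) : ℝ := 1 - (x * h0 x + x * h1 x)
/-- second denominator -/
noncomputable def VV (x : ℝ) : ℝ := 1 - 2 * (x * h0 x + 2 * (x * h1 x))
/-- determinant -/
noncomputable def DD (x : ℝ) : ℝ :=
  (1 - T00 x (UU x) (VV x)) * (1 - T11 x (UU x) (VV x)) - T01 x (UU x) (VV x) * T10 x (UU x) (VV x)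

theorem sym_sums {A B c0 c1 a b c d e f : ℝ} (h : Sym A B c0 c1 a b c d e f) :
    (1 - (A + B)) * (a + b + c) = c0 + c1 ∧
      (1 - 2 * (A + 2 * B)) * tot a b c d e f = c0 + 2 * c1 := by
  obtain ⟨h1, h2, h3, h4, h5, h6⟩ := h
  simp only [tot]
  constructor <;> linarith

theorem UV_ne {x : ℝ} (hx : 0 ≤ x) (h : FinP x.toNNReal) : UU x ≠ 0 ∧ VV x ≠ 0 := by
  obtain ⟨f1, -, -, -⟩ := pure_facts hx h
  obtain ⟨s1, s2⟩ := sym_sums f1
  obtain ⟨n0, n1⟩ := h_nonneg hx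
  constructor
  · intro hU
    rw [UU] at hU
    rw [hU] at s1
    linarith
  · intro hV
    rw [VV] at hV
    rw [hV] at s2
    linarith

theorem conv1 {x U V p q : ℝ} (hx : x ≠ 0) (hU0 : U ≠ 0) (hV0 : V ≠ 0)
    (hU : U = 1 - (x * p + x * q)) (hV : V = 1 - 2 * (x * p + 2 * (x * q)))
    (h : 1 + p - x * (T00 x U V * (1 + p) + T01 x U V * q) - (1 - x ^ 2) = 0) :
    ev3 x U V eq1 = 0 := by
  have hp : p = (2 * (1 - U) - (1 - V) / 2) / x := by rw [hU, hV]; field_simp; ring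
  have hq : q = ((1 - V) / 2 - (1 - U)) / x := by rw [hU, hV]; field_simp; ring
  have : ev3 x U V eq1 = 2 * x * U ^ 2 * V *
      (1 + p - x * (T00 x U V * (1 + p) + T01 x U V * q) - (1 - x ^ 2)) := by
    rw [hp, hq]
    simp only [ev3, ev2, ev1, evL, eq1, T00, T01]
    push_cast
    field_simp
    ring
  rw [this, h, mul_zero]

theorem conv2 {x U V p q : ℝ} (hx : x ≠ 0) (hU0 : U ≠ 0) (hV0 : V ≠ 0)
    (hU : U = 1 - (x * p + x * q)) (hV : V = 1 - 2 * (x * p + 2 * (x * q)))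
    (h : q - x * (T10 x U V * (1 + p) + T11 x U V * q) = 0) :
    ev3 x U V eq2 = 0 := by
  have hp : p = (2 * (1 - U) - (1 - V) / 2) / x := by rw [hU, hV]; field_simp; ring
  have hq : q = ((1 - V) / 2 - (1 - U)) / x := by rw [hU, hV]; field_simp; ring
  have : ev3 x U V eq2 = 4 * x * U ^ 2 * V *
      (q - x * (T10 x U V * (1 + p) + T11 x U V * q)) := by
    rw [hp, hq]
    simp only [ev3, ev2, ev1, evL, eq2, T10, T11]
    push_cast
    field_simp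
    ring
  rw [this, h, mul_zero]

theorem conv3 {x U V : ℝ} (hU0 : U ≠ 0) (hV0 : V ≠ 0)
    (h : (1 - T00 x U V) * (1 - T11 x U V) - T01 x U V * T10 x U V = 0) :
    ev3 x U V eq3 = 0 := by
  have : ev3 x U V eq3 = 2 * U ^ 2 * V *
      ((1 - T00 x U V) * (1 - T11 x U V) - T01 x U V * T10 x U V) := by
    simp only [ev3, ev2, ev1, evL, eq3, T00, T01, T10, T11]
    push_cast
    field_simp
    ring
  rw [this, h, mul_zero]

theorem pure_eqs {x : ℝ} (hx : 0 < x) (h : FinP x.toNNReal) :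
    ev3 x (UU x) (VV x) eq1 = 0 ∧ ev3 x (UU x) (VV x) eq2 = 0 := by
  obtain ⟨hU, hV⟩ := UV_ne hx.le h
  obtain ⟨f1, f2, f3, f4⟩ := pure_facts hx.le h
  obtain ⟨s1, s2, -⟩ := solve (x := x) (U := UU x) (V := VV x) rfl rfl hU hV f1
  obtain ⟨-, s3⟩ := sym_sums f1
  refine ⟨conv1 hx.ne' hU hV rfl rfl ?_, conv2 hx.ne' hU hV rfl rfl ?_⟩
  · rw [← s1]
    have : nn x = tot (yr x 0 0) (yr x 0 1) (yr x 0 2) (yr x 1 1) (yr x 1 2) (yr x 2 2) - 1 := by
      linarith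
    rw [this] at f2
    linarith
  · rw [← s2]
    linarith

/-- closed form of the series -/
noncomputable def gg (x : ℝ) : ℝ :=
  ((1 - T11 x (UU x) (VV x)) * (1 + h0 x) + T01 x (UU x) (VV x) * h1 x +
    2 * (T10 x (UU x) (VV x) * (1 + h0 x) + (1 - T00 x (UU x) (VV x)) * h1 x)) / (DD x * VV x)

theorem gg_eq {x : ℝ} (hx : 0 ≤ x) (h : FinA x.toNNReal) (hD : DD x ≠ 0) : gg x = eT (zr x) := by
  obtain ⟨hU, hV⟩ := UV_ne hx (finP_of_finA h)
  obtain ⟨f1, f2⟩ := all_facts hx h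
  obtain ⟨s1, s2, s3⟩ := solve (x := x) (U := UU x) (V := VV x) rfl rfl hU hV f1
  rw [f2, s3, gg, div_eq_div_iff (mul_ne_zero hD hV) hV, DD]
  generalize tot (zr x 0 0) (zr x 0 1) (zr x 0 2) (zr x 1 1) (zr x 1 2) (zr x 2 2) = t at *
  generalize l0 x (zr x 0 0) (zr x 0 1) (zr x 0 2) (zr x 1 1) (zr x 1 2) (zr x 2 2) = m0 at *
  generalize l1 x (zr x 0 0) (zr x 0 1) (zr x 0 2) (zr x 1 1) (zr x 1 2) (zr x 2 2) = m1 at *
  generalize T00 x (UU x) (VV x) = a at *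
  generalize T01 x (UU x) (VV x) = b at *
  generalize T10 x (UU x) (VV x) = c at *
  generalize T11 x (UU x) (VV x) = d at *
  linear_combination (-VV x * ((1 - d) + 2 * c)) * s1 + (-VV x * (b + 2 * (1 - a))) * s2

theorem analytic_parts {x1 x : ℝ} (hx : 0 < x) (hx1 : x < x1) (h : FinP x1.toNNReal) :
    AnalyticAt ℝ DD x ∧ (DD x ≠ 0 → AnalyticAt ℝ gg x) := by
  obtain ⟨a0, a1⟩ := analytic_h hx hx1 h
  obtain ⟨hU, hV⟩ := UV_ne hx.le (h.mono (Real.toNNReal_le_toNNReal hx1.le))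
  have aU : AnalyticAt ℝ UU x := by unfold UU; fun_prop
  have aV : AnalyticAt ℝ VV x := by unfold VV; fun_prop
  have hU2 : 2 * UU x ^ 2 ≠ 0 := by positivity
  have t00 : AnalyticAt ℝ (fun y => T00 y (UU y) (VV y)) x := by
    unfold T00; fun_prop (disch := first | assumption | norm_num)
  have t01 : AnalyticAt ℝ (fun y => T01 y (UU y) (VV y)) x := by
    unfold T01; fun_prop (disch := first | assumption | norm_num)
  have t10 : AnalyticAt ℝ (fun y => T10 y (UU y) (VV y)) x := by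
    unfold T10; fun_prop (disch := first | assumption | norm_num)
  have t11 : AnalyticAt ℝ (fun y => T11 y (UU y) (VV y)) x := by
    unfold T11; fun_prop (disch := first | assumption | norm_num)
  have aD : AnalyticAt ℝ DD x := by unfold DD; fun_prop
  refine ⟨aD, fun hD => ?_⟩
  have := mul_ne_zero hD hV
  unfold gg
  fun_prop (disch := assumption)

/-- the growth rate is the inverse of a root of the polynomial -/
theorem rate_root : ∃ w : ℝ,
    Tendsto (fun n : ℕ => ((ball 3 (3 * 3) n).ncard : ℝ) ^ (1 / (n : ℝ))) atTop (𝓝 w) ∧ 0 < w ∧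
      1 / 3 ≤ w⁻¹ ∧ w⁻¹ ≤ 3487 / 10000 ∧ ev1 w⁻¹ qz = 0 := by
  obtain ⟨w, h1, h2, -, -, h3, h4⟩ := growth_core (p := 3) (q := 3 * 3) (dvd_mul_right 3 3)
  have hw : 0 < w := by linarith
  have hR : 0 < w⁻¹ := inv_pos.2 hw
  have l1 : 1 / 3 ≤ w⁻¹ := by
    have := h4 (1 / 3) (by norm_num) (by norm_num)
      (summable_of_finA (by norm_num) finA_x0).summable
    rwa [inv_eq_one_div, le_div_iff₀ hw]
  have l2 : w⁻¹ ≤ 3487 / 10000 := by
    by_contra hc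
    rw [not_le, inv_eq_one_div, lt_div_iff₀ hw] at hc
    exact not_finA (finA_of_summable (by norm_num) (h3 _ (by norm_num) hc))
  have l3 : w⁻¹ < 3488 / 10000 := by linarith
  refine ⟨w, h2, hw, l1, l2, ?_⟩
  have hP : FinP (w⁻¹).toNNReal := finP_x1.mono (Real.toNNReal_le_toNNReal l3.le)
  obtain ⟨e1, e2⟩ := pure_eqs hR hP
  obtain ⟨hU, hV⟩ := UV_ne hR.le hP
  refine qz_zero hR (by linarith) e1 e2 (conv3 hU hV ?_)
  by_contra hD
  obtain ⟨aD, ag⟩ := analytic_parts hR l3 finP_x1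
  have hs : ∀ x, 0 ≤ x → x < w⁻¹ → Summable (fun n => (cnt 3 (3 * 3) n : ℝ) * x ^ n) := by
    intro x hx hx'
    rw [inv_eq_one_div, lt_div_iff₀ hw] at hx'
    exact h3 x hx hx'
  obtain ⟨x, hx, hsx⟩ := pringsheim (fun n => (cnt 3 (3 * 3) n : ℝ)) (fun n => by positivity) hR hs
    (ag hD) (by
      have hD' : ∀ᶠ y in 𝓝 w⁻¹, DD y ≠ 0 := aD.continuousAt.eventually_ne hD
      filter_upwards [nhdsWithin_le_nhds hD', nhdsWithin_le_nhds (lt_mem_nhds hR),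
        self_mem_nhdsWithin] with y hy hy0 hy1
      have hA := finA_of_summable hy0.le (hs y hy0.le hy1)
      rw [gg_eq hy0.le hA hy, (summable_of_finA hy0.le hA).tsum_eq])
  have h7 : w⁻¹ < min x 1 := lt_min hx (by linarith)
  have h8 : 0 ≤ min x 1 := hR.le.trans h7.le
  have h9 := h4 (min x 1) h8 (min_le_right _ _) (Summable.of_nonneg_of_le
    (fun n => by positivity) (fun n => by gcongr; exact min_le_left _ _) hsx)
  rw [inv_eq_one_div, div_lt_iff₀ hw] at h7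
  linarith

end Pool.Agent.MP_e0ec03_al

end MrgPart6

-- marker of a merged file
example : 731051 + 799004 = 731051 + 799004 := rfl
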