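import Mathlib.Data.Int.Notation
import Mathlib.Tactic.Common

namespace Pool.Agent.MP_e0ec03_al

/-- Coefficients of a polynomial of degree 104, leading coefficient first. -/
def qz : List ℤ := [8, 8, -328, -904, 3688, 21020, 6834, -207730, -535054, 580352, 5070592, 6420547, -17021134,
    -66584811, -42833642, 199781421, 528915916, 340811528, -1020044855, -3012229253,
    -2344165989, 5347085667, 17957916024, 21347957001, -997740876, -46026893556, -73084603702,
    -15313050603, 139821928988, 301136407802, 397709881849, 351466249617, -289551979836,
    -2075542861632, -4355268741828, -4774271737135, -956640695902, 5557812967604, 7578951449749,
    1925400688033, -2780910074615, -2739613369712, -7764944657733, -15797864946503,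
    -8289294439502, 19810356010968, 43705848503163, 19693487586631, -35634359340310,
    -29472465981809, 6202135488861, -22349572601701, -8395300303543, 30080095961976,
    -44176896829379, 25975099121803, 199283583083761, -21885920610749, -249020147511899,
    29591807717808, 122857247208150, -186914413501238, -56266036987626, 274738199139068,
    22497157124054, -103177517397570, 210695125061548, -58608722207460, -391507848171564,
    39661321638048, 159953853468764, -50407048391480, 189728141333216, 118928196558600,
    -222033115731512, -61394849464232, 45094759472672, -63025153579200, 54555928056304,
    84947358155136, -44585671250928, -26667761897696, 14558764361792, -11976221252992,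
    -740473547520, 13011113022208, -1944097735808, -4371371448576, 1247036441088, 158677935744,
    -449102554624, 465700285184, 133544001024, -221923681280, -46514312192, 54555216896,
    16284309504, -7839311872, -4112691200, 685834240, 615350272, -47284224, -43319296, 1835008,
    1048576]

end Pool.Agent.MP_e0ec03_al
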