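import Mathlib.Tactic.Ring.RingNF

namespace Pool.Agent.MP_e0ec03_al

/-- sum of coefficient lists -/
def addL {α : Type} (add : α → α → α) : List α → List α → List α
  | [], b => b
  | a :: as, [] => a :: as
  | a :: as, b :: bs => add a b :: addL add as bs

/-- product of coefficient lists -/
def mulL {α : Type} (add mul : α → α → α) (zero : α) : List α → List α → List α
  | [], _ => []
  | a :: as, b => addL add (b.map (mul a)) (zero :: mulL add mul zero as b)

/-- Horner evaluation -/
def evL {α R : Type} [CommRing R] (ev : α → R) (x : R) : List α → R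
  | [] => 0
  | a :: as => ev a + x * evL ev x as

section

variable {α R : Type} [CommRing R] {ev : α → R} {add mul : α → α → α} {zero : α}

theorem evL_add (x : R) (h : ∀ a b, ev (add a b) = ev a + ev b) :
    ∀ a b, evL ev x (addL add a b) = evL ev x a + evL ev x b
  | [], b => by simp [addL, evL]
  | a :: as, [] => by simp [addL, evL]
  | a :: as, b :: bs => by simp only [addL, evL, h, evL_add x h as bs]; ring

theorem evL_map (x : R) (h : ∀ a b, ev (mul a b) = ev a * ev b) (a : α) :
    ∀ b : List α, evL ev x (b.map (mul a)) = ev a * evL ev x b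
  | [] => by simp [evL]
  | b :: bs => by simp only [List.map, evL, h, evL_map x h a bs]; ring

theorem evL_mul (x : R) (h : ∀ a b, ev (add a b) = ev a + ev b)
    (h' : ∀ a b, ev (mul a b) = ev a * ev b) (h0 : ev zero = 0) :
    ∀ a b, evL ev x (mulL add mul zero a b) = evL ev x a * evL ev x b
  | [], b => by simp [mulL, evL]
  | a :: as, b => by
    simp only [mulL, evL, evL_add x h, evL_map x h', h0, evL_mul x h h' h0 as b]; ring

theorem evL_zero (x : R) {t : α → Bool} (h : ∀ a, t a = true → ev a = 0) :
    ∀ a : List α, a.all t = true → evL ev x a = 0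
  | [], _ => rfl
  | a :: as, ha => by
    simp only [List.all_cons, Bool.and_eq_true] at ha
    simp [evL, h a ha.1, evL_zero x h as ha.2]

end

/-- one variable -/
def add1 : List ℤ → List ℤ → List ℤ := addL Int.add
/-- one variable -/
def mul1 : List ℤ → List ℤ → List ℤ := mulL Int.add Int.mul 0
/-- one variable -/
def ev1 {R : Type} [CommRing R] (x : R) : List ℤ → R := evL (fun a : ℤ => (a : R)) x
/-- two variables -/
def add2 : List (List ℤ) → List (List ℤ) → List (List ℤ) := addL add1
/-- two variables -/
def mul2 : List (List ℤ) → List (List ℤ) → List (List ℤ) := mulL add1 mul1 []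
/-- two variables -/
def ev2 {R : Type} [CommRing R] (x u : R) : List (List ℤ) → R := evL (ev1 x) u
/-- three variables -/
def add3 : List (List (List ℤ)) → List (List (List ℤ)) → List (List (List ℤ)) := addL add2
/-- three variables -/
def mul3 : List (List (List ℤ)) → List (List (List ℤ)) → List (List (List ℤ)) := mulL add2 mul2 []
/-- three variables -/
def ev3 {R : Type} [CommRing R] (x u v : R) : List (List (List ℤ)) → R := evL (ev2 x u) v
/-- zero test -/
def zero3 (a : List (List (List ℤ))) : Bool := a.all fun b => b.all fun c => c.all fun d => d == 0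

section

variable {R : Type} [CommRing R]

theorem ev1_add (x : R) (a b : List ℤ) : ev1 x (add1 a b) = ev1 x a + ev1 x b :=
  evL_add x (fun a b => Int.cast_add a b) a b
theorem ev1_mul (x : R) (a b : List ℤ) : ev1 x (mul1 a b) = ev1 x a * ev1 x b :=
  evL_mul x (fun a b => Int.cast_add a b) (fun a b => Int.cast_mul a b) Int.cast_zero a b
theorem ev2_add (x u : R) (a b : List (List ℤ)) : ev2 x u (add2 a b) = ev2 x u a + ev2 x u b :=
  evL_add u (ev1_add x) a b
theorem ev2_mul (x u : R) (a b : List (List ℤ)) : ev2 x u (mul2 a b) = ev2 x u a * ev2 x u b :=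
  evL_mul u (ev1_add x) (ev1_mul x) rfl a b
theorem ev3_add (x u v : R) (a b : List (List (List ℤ))) :
    ev3 x u v (add3 a b) = ev3 x u v a + ev3 x u v b := evL_add v (ev2_add x u) a b
theorem ev3_mul (x u v : R) (a b : List (List (List ℤ))) :
    ev3 x u v (mul3 a b) = ev3 x u v a * ev3 x u v b :=
  evL_mul v (ev2_add x u) (ev2_mul x u) rfl a b
theorem ev3_zero (x u v : R) (a : List (List (List ℤ))) (h : zero3 a = true) : ev3 x u v a = 0 :=
  evL_zero v (fun b hb => evL_zero u (fun c hc => evL_zero x (fun d hd => by
    rw [beq_iff_eq.1 hd, Int.cast_zero]) c hc) b hb) a h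
theorem ev3_const (x u v : R) (a : List ℤ) : ev3 x u v [[a]] = ev1 x a := by
  simp [ev3, ev2, evL]
theorem ev1_nil (x : R) : ev1 x [] = 0 := rfl
theorem ev1_cons (x : R) (a : ℤ) (l : List ℤ) : ev1 x (a :: l) = a + x * ev1 x l := rfl

end

end Pool.Agent.MP_e0ec03_al
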