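import Mathlib.Algebra.Polynomial.AlgebraMap
import Mathlib.Tactic.LinearCombination
import Mathlib.Data.Int.Star
import Mathlib.Algebra.Order.Ring.Star
import Mathlib.Algebra.Order.Star.Real
import Pool.Agent.MP_e0ec03_al.PolyList
import Pool.Agent.MP_e0ec03_al.Poly39

namespace Pool.Agent.MP_e0ec03_al

/-- Horner value with leading coefficient first -/
def horner (l : List ℤ) (y : ℝ) (s : ℝ) : ℝ := l.foldl (fun (s : ℝ) (c : ℤ) => s * y + (c : ℝ)) s

theorem horner_eq {y : ℝ} (hy : y ≠ 0) : ∀ (l : List ℤ) (s : ℝ),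
    horner l y s = y ^ l.length * (s + y⁻¹ * ev1 y⁻¹ l)
  | [], s => by simp [horner, ev1_nil]
  | c :: l, s => by
    have := horner_eq hy l (s * y + c)
    simp only [horner, List.foldl_cons, List.length_cons, ev1_cons] at this ⊢
    rw [this]
    field_simp
    ring

/-- homogeneous substitution -/
def mob (N D : List ℤ) : List ℤ → List ℤ → List ℤ → List ℤ
  | [], H, _ => H
  | c :: l, H, E => mob N D l (add1 (mul1 H N) (mul1 [c] E)) (mul1 E D)

theorem mob_eq (N D : List ℤ) {t y : ℝ} (h : ev1 t N = y * ev1 t D) : ∀ (l H E : List ℤ) (s : ℝ),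
    ev1 t H * ev1 t D = ev1 t E * s →
      ev1 t (mob N D l H E) * ev1 t D = ev1 t E * ev1 t D ^ l.length * horner l y s
  | [], H, E, s, hs => by simpa [mob, horner] using hs
  | c :: l, H, E, s, hs => by
    have := mob_eq N D h l (add1 (mul1 H N) (mul1 [c] E)) (mul1 E D) (s * y + c) (by
      simp only [ev1_add, ev1_mul, ev1_cons, ev1_nil, h]
      linear_combination y * ev1 t D * hs)
    simp only [mob, horner, List.foldl_cons, List.length_cons, ev1_mul] at this ⊢
    rw [this]
    ring

/-- one sign change -/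
def chk : List ℤ → Bool
  | [] => true
  | c :: l => (decide (c < 0) && chk l) || (c :: l).all fun a => decide (0 ≤ a)

theorem ev1_mono {s t : ℝ} (hs : 0 ≤ s) (hst : s ≤ t) : ∀ l : List ℤ,
    (l.all fun a => decide (0 ≤ a)) = true → 0 ≤ ev1 s l ∧ ev1 s l ≤ ev1 t l
  | [], _ => by simp [ev1_nil]
  | c :: l, h => by
    simp only [List.all_cons, Bool.and_eq_true, decide_eq_true_eq] at h
    obtain ⟨h1, h2⟩ := ev1_mono hs hst l h.2
    have : (0 : ℝ) ≤ c := by exact_mod_cast h.1
    simp only [ev1_cons]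
    constructor
    · positivity
    · nlinarith

theorem chk_step {s t : ℝ} (hs : 0 ≤ s) (hst : s < t) {c : ℤ} {l : List ℤ} (hc : c < 0)
    (hl : 0 ≤ ev1 s l → ev1 s l ≤ ev1 t l) (h : 0 ≤ ev1 s (c :: l)) :
    ev1 s (c :: l) < ev1 t (c :: l) := by
  simp only [ev1_cons] at h ⊢
  have : (c : ℝ) < 0 := by exact_mod_cast hc
  have h1 : 0 < ev1 s l := by
    by_contra h2
    nlinarith
  have := hl h1.le
  nlinarith

theorem chk_mono {s t : ℝ} (hs : 0 ≤ s) (hst : s < t) : ∀ l : List ℤ, chk l = true →
    0 ≤ ev1 s l → ev1 s l ≤ ev1 t l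
  | [], _, _ => by simp [ev1_nil]
  | c :: l, h, h0 => by
    simp only [chk, Bool.or_eq_true, Bool.and_eq_true, decide_eq_true_eq] at h
    rcases h with h | h
    · exact (chk_step hs hst h.1 (chk_mono hs hst l h.2) h0).le
    · exact (ev1_mono hs hst.le _ h).2

theorem mob_chk : (decide ((mob [12, 7] [4, 4] qz [] [1]).headD 0 < 0) &&
    chk (mob [12, 7] [4, 4] qz [] [1]).tail) = true := by decide +kernel

theorem sign_lo : 0 < (mob [28750562950968466] [10000000000000000] qz [] [1]).headD 0 := by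
  decide +kernel

theorem sign_hi : (mob [28750562950968467] [10000000000000000] qz [] [1]).headD 0 < 0 := by
  decide +kernel

theorem ev1_zero (l : List ℤ) : ev1 (0 : ℝ) l = l.headD 0 := by
  cases l <;> simp [ev1_cons, ev1_nil]

theorem horner_sign (a b : ℤ) (hb : 0 < b) :
    ((mob [a] [b] qz [] [1]).headD 0 : ℝ) * b = b ^ qz.length * horner qz (a / b) 0 := by
  have hb' : (0 : ℝ) < b := by exact_mod_cast hb
  have := mob_eq [a] [b] (t := 0) (y := a / b) (by simp [ev1_cons]; field_simp) qz [] [1] 0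
    (by simp [ev1_nil])
  rw [ev1_zero (mob _ _ _ _ _)] at this
  simpa [ev1_cons] using this

theorem horner_lo : 0 < horner qz (28750562950968466 / 10000000000000000) 0 := by
  have h := horner_sign 28750562950968466 10000000000000000 (by norm_num)
  have h1 : (0 : ℝ) < (mob [28750562950968466] [10000000000000000] qz [] [1]).headD 0 := by
    exact_mod_cast sign_lo
  push_cast at h h1
  have h2 : (0 : ℝ) < 10000000000000000 ^ qz.length := by positivity
  by_contra h3
  nlinarith

theorem horner_hi : horner qz (28750562950968467 / 10000000000000000) 0 < 0 := by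
  have h := horner_sign 28750562950968467 10000000000000000 (by norm_num)
  have h1 : ((mob [28750562950968467] [10000000000000000] qz [] [1]).headD 0 : ℝ) < 0 := by
    exact_mod_cast sign_hi
  push_cast at h h1
  have h2 : (0 : ℝ) < 10000000000000000 ^ qz.length := by positivity
  by_contra h3
  nlinarith

/-- left of a point where the value is nonnegative, the value is positive -/
theorem horner_pos {y y' : ℝ} (h1 : 7 / 4 < y) (h2 : y < y') (h3 : y' ≤ 3)
    (h : 0 ≤ horner qz y' 0) : 0 < horner qz y 0 := by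
  have key : ∀ z : ℝ, 7 / 4 < z → ∃ k > 0, ev1 ((12 - 4 * z) / (4 * z - 7))
      (mob [12, 7] [4, 4] qz [] [1]) = k * horner qz z 0 ∨ 3 < z := by
    intro z hz
    by_cases hz3 : 3 < z
    · exact ⟨1, one_pos, Or.inr hz3⟩
    have hd : 0 < 4 * z - 7 := by linarith
    have ht : 0 ≤ (12 - 4 * z) / (4 * z - 7) := div_nonneg (by linarith) hd.le
    have := mob_eq [12, 7] [4, 4] (t := (12 - 4 * z) / (4 * z - 7)) (y := z) (by
      simp only [ev1_cons, ev1_nil]; push_cast; field_simp; ring) qz [] [1] 0 (by simp [ev1_nil])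
    have hD : 0 < ev1 ((12 - 4 * z) / (4 * z - 7)) [4, 4] := by
      simp only [ev1_cons, ev1_nil]
      push_cast
      linarith
    refine ⟨ev1 ((12 - 4 * z) / (4 * z - 7)) [4, 4] ^ qz.length /
      ev1 ((12 - 4 * z) / (4 * z - 7)) [4, 4], div_pos (pow_pos hD _) hD, Or.inl ?_⟩
    rw [div_mul_eq_mul_div, eq_div_iff hD.ne', this, ev1_cons _ 1 [], ev1_nil]
    simp
  obtain ⟨k, hk, e | e⟩ := key y h1
  swap
  · linarith
  obtain ⟨k', hk', e' | e'⟩ := key y' (by linarith)
  swap
  · linarith
  have hc := mob_chk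
  generalize mob [12, 7] [4, 4] qz [] [1] = M at *
  have ht : 0 ≤ (12 - 4 * y') / (4 * y' - 7) := div_nonneg (by linarith) (by linarith)
  have hlt : (12 - 4 * y') / (4 * y' - 7) < (12 - 4 * y) / (4 * y - 7) := by
    rw [div_lt_div_iff₀ (by linarith) (by linarith)]
    nlinarith
  obtain _ | ⟨c, l⟩ := M
  · simp at hc
  simp only [List.headD_cons, List.tail_cons, Bool.and_eq_true, decide_eq_true_eq] at hc
  have := chk_step ht hlt hc.1 (chk_mono ht hlt l hc.2) (by rw [e']; positivity)
  rw [e, e'] at this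
  have h5 : 0 ≤ k' * horner qz y' 0 := by positivity
  by_contra h4
  nlinarith

theorem aeval_foldl (y : ℝ) : ∀ (l : List ℤ) (s : Polynomial ℤ),
    Polynomial.aeval y (l.foldl (fun s c => s * Polynomial.X + Polynomial.C c) s) =
      horner l y (Polynomial.aeval y s)
  | [], s => rfl
  | c :: l, s => by
    have := aeval_foldl y l (s * Polynomial.X + Polynomial.C c)
    simpa [horner] using this

end Pool.Agent.MP_e0ec03_al
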